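import Mathlib

/-!
# Bilinked collections in the random graph process: common definitions

Project for MP_0be95c_pr (frozen statement S13220).
-/

set_option autoImplicit false

namespace Pool.Agent.H982R2.BL

open Finset Classical

noncomputable section

/-- potential edges of a graph on `Fin n` (same type as in the frozen statement) -/
abbrev Pr (n : ℕ) : Type := {e : Sym2 (Fin n) // ¬ e.IsDiag}

/-- the graph with edge set `S` -/
def gr {n : ℕ} (S : Finset (Pr n)) : SimpleGraph (Fin n) :=
  SimpleGraph.fromEdgeSet {e : Sym2 (Fin n) | ∃ h : ¬ e.IsDiag, (⟨e, h⟩ : Pr n) ∈ S}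

/-- `P p E A`: the probability that the random subset of `E`, which contains every element of `E`
independently with probability `p`, belongs to `A` -/
def P {α : Type*} (p : ℝ) (E : Finset α) (A : Set (Finset α)) : ℝ :=
  ∑ G ∈ E.powerset with G ∈ A, p ^ G.card * (1 - p) ^ (E.card - G.card)

/-- `U M E A`: the probability that a uniformly random `M`-subset of `E` belongs to `A` -/
def U {α : Type*} (M : ℕ) (E : Finset α) (A : Set (Finset α)) : ℝ :=
  (((E.powersetCard M).filter (· ∈ A)).card : ℝ) / (E.card.choose M : ℝ)

/-- balanced colourings of `Fin (K * N)` with `K` colours -/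
def Bal (K N : ℕ) : Finset (Fin (K * N) → Fin K) :=
  univ.filter fun σ => ∀ i : Fin K, (univ.filter fun v => σ v = i).card = N

/-- monochromatic pairs of a colouring -/
def mono {n K : ℕ} (σ : Fin n → Fin K) : Finset (Pr n) :=
  univ.filter fun e => ∃ i, ∀ v ∈ e.1, σ v = i

/-- robustly bilinked: after deleting any `η * N` vertices there is a bilinked collection
inside the colour classes of `σ` -/
def Rob {k N : ℕ} (η : ℝ) (σ : Fin (k * N) → Fin k) (S : Finset (Pr (k * N))) : Prop :=
  ∀ R : Finset (Fin (k * N)), (R.card : ℝ) ≤ η * N →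
    ∃ W : Fin k → Finset (Fin (k * N)),
      (∀ i, (W i).Nonempty) ∧ (∀ i, ∀ v ∈ W i, σ v = i ∧ v ∉ R) ∧
      ∀ i j, i ≠ j →
        ((gr S).induce ((W i ∪ W j : Finset (Fin (k * N))) : Set (Fin (k * N)))).Connected

end

end Pool.Agent.H982R2.BL
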