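import Pool.Agent.H982R2.BLBase

/-!
# Second moment of the number of balanced colourings (module 3, helper461)
-/

set_option autoImplicit false

namespace Pool.Agent.H982R2.BL

open Finset Classical

/-- pairs on which a general function is constant -/
noncomputable def monoF {n : ℕ} {ι : Type*} (f : Fin n → ι) : Finset (Pr n) :=
  univ.filter fun e => ∃ i, ∀ v ∈ e.1, f v = i

theorem card_pairs_in {n : ℕ} (s : Finset (Fin n)) :
    (univ.filter fun e : Pr n => ∀ v ∈ e.1, v ∈ s).card = s.card.choose 2 := by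
  rw [← Sym2.card_image_offDiag s]
  rw [← Finset.card_image_of_injective (univ.filter fun e : Pr n => ∀ v ∈ e.1, v ∈ s)
    Subtype.val_injective]
  congr 1
  ext e
  simp only [Finset.mem_image, Finset.mem_filter, Finset.mem_univ, true_and, Finset.mem_offDiag,
    Prod.exists]
  constructor
  · rintro ⟨e', he', rfl⟩
    obtain ⟨e, hne⟩ := e'
    induction e using Sym2.ind with
    | _ x y =>
      refine ⟨x, y, ⟨?_, ?_, ?_⟩, rfl⟩
      · exact he' x (Sym2.mem_mk_left x y)
      · exact he' y (Sym2.mem_mk_right x y)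
      · simpa using hne
  · rintro ⟨x, y, ⟨hx, hy, hxy⟩, rfl⟩
    refine ⟨⟨s(x, y), by simpa using hxy⟩, ?_, rfl⟩
    intro v hv
    simp only [Sym2.mem_iff] at hv
    rcases hv with rfl | rfl
    · exact hx
    · exact hy

theorem card_monoF {n : ℕ} {ι : Type*} [Fintype ι] [DecidableEq ι] (f : Fin n → ι) :
    (monoF f).card = ∑ i, (univ.filter fun v => f v = i).card.choose 2 := by
  have h1 : monoF f = (univ : Finset ι).biUnion
      (fun i => univ.filter fun e : Pr n => ∀ v ∈ e.1, v ∈ univ.filter fun v => f v = i) := by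
    ext e
    simp [monoF]
  rw [h1, Finset.card_biUnion]
  · exact Finset.sum_congr rfl fun i _ => card_pairs_in _
  · intro i _ j _ hij
    rw [Function.onFun, Finset.disjoint_left]
    intro e he he'
    simp only [Finset.mem_filter, Finset.mem_univ, true_and] at he he'
    obtain ⟨e, hne⟩ := e
    induction e using Sym2.ind with
    | _ x y =>
      have a := he x (Sym2.mem_mk_left x y)
      have b := he' x (Sym2.mem_mk_left x y)
      exact hij (a.symm.trans b)

theorem mono_eq_monoF {n K : ℕ} (σ : Fin n → Fin K) : mono σ = monoF σ := by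
  unfold mono monoF
  congr

theorem mono_inter {n K : ℕ} (σ τ : Fin n → Fin K) :
    mono σ ∩ mono τ = monoF (fun v => (σ v, τ v)) := by
  ext e
  simp only [mono, monoF, Finset.mem_inter, Finset.mem_filter, Finset.mem_univ, true_and,
    Prod.exists, Prod.mk.injEq]
  constructor
  · rintro ⟨⟨i, hi⟩, j, hj⟩
    exact ⟨i, j, fun v hv => ⟨hi v hv, hj v hv⟩⟩
  · rintro ⟨i, j, h⟩
    exact ⟨⟨i, fun v hv => (h v hv).1⟩, j, fun v hv => (h v hv).2⟩

theorem card_Pr (n : ℕ) : Fintype.card (Pr n) = n.choose 2 := by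
  rw [Sym2.card_subtype_not_diag, Fintype.card_fin]

theorem filter_disjoint_card {n : ℕ} (M : ℕ) (T : Finset (Pr n)) :
    ((powersetCard M (univ : Finset (Pr n))).filter fun S => Disjoint S T).card
      = (Fintype.card (Pr n) - T.card).choose M := by
  have : (powersetCard M (univ : Finset (Pr n))).filter (fun S => Disjoint S T)
      = powersetCard M (univ \ T) := by
    ext S
    simp only [Finset.mem_filter, Finset.mem_powersetCard]
    constructor
    · rintro ⟨⟨_, h2⟩, h3⟩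
      refine ⟨?_, h2⟩
      intro x hx
      simp only [Finset.mem_sdiff, Finset.mem_univ, true_and]
      exact fun hxT => (Finset.disjoint_left.mp h3 hx) hxT
    · rintro ⟨h1, h2⟩
      refine ⟨⟨Finset.subset_univ _, h2⟩, ?_⟩
      rw [Finset.disjoint_left]
      intro x hx hxT
      have := h1 hx
      simp only [Finset.mem_sdiff, Finset.mem_univ, true_and] at this
      exact this hxT
  rw [this, Finset.card_powersetCard, Finset.card_sdiff_of_subset (Finset.subset_univ _),
    Finset.card_univ]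


private noncomputable def rr (β y : ℝ) : ℝ := Real.log y - 1 + y⁻¹ - β * (y - 2 + y⁻¹)

private theorem rr_deriv (β y : ℝ) (hy : 0 < y) :
    HasDerivAt (rr β) ((y - 1) * (1 - β * (y + 1)) / y ^ 2) y := by
  have h1 : HasDerivAt (fun y : ℝ => Real.log y - 1 + y⁻¹ - β * (y - 2 + y⁻¹))
      (y⁻¹ + (-(y ^ 2)⁻¹) - β * (1 + (-(y ^ 2)⁻¹))) y := by
    have hl := Real.hasDerivAt_log hy.ne'
    have hi := hasDerivAt_inv hy.ne'
    exact ((hl.sub_const 1).add hi).sub ((((hasDerivAt_id y).sub_const 2).add hi).const_mul β)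
  have h2 : (y - 1) * (1 - β * (y + 1)) / y ^ 2 =
      y⁻¹ + (-(y ^ 2)⁻¹) - β * (1 + (-(y ^ 2)⁻¹)) := by
    field_simp
    ring
  rw [h2]
  exact h1

theorem beta_le_half (K β : ℝ) (hK : 1 < K) (hβ : β * (K - 1) ^ 2 ≤ K * (Real.log K - 1)) :
    β ≤ 1 / 2 := by
  set s := Real.sqrt K with hs
  have hK0 : 0 < K := by linarith
  have hs0 : 0 < s := Real.sqrt_pos.mpr hK0
  have hsK : s ^ 2 = K := Real.sq_sqrt hK0.le
  have hlog : Real.log K ≤ 2 * (s - 1) := by
    rw [← hsK, Real.log_pow]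
    have := Real.log_le_sub_one_of_pos hs0
    push_cast
    linarith
  have h1 : K * (Real.log K - 1) ≤ K * (2 * (s - 1) - 1) :=
    mul_le_mul_of_nonneg_left (by linarith) hK0.le
  have h2 : K * (2 * (s - 1) - 1) ≤ (K - 1) ^ 2 / 2 := by
    rw [← hsK]
    nlinarith [sq_nonneg (s ^ 2 - 2 * s)]
  have h3 : 0 < (K - 1) ^ 2 := by
    have : 0 < K - 1 := by linarith
    positivity
  by_contra hcon
  push Not at hcon
  have h4 : (1 / 2) * (K - 1) ^ 2 < β * (K - 1) ^ 2 := mul_lt_mul_of_pos_right hcon h3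
  linarith

theorem scalar_ineq (K β y : ℝ) (hK : 1 < K) (hβ0 : 0 ≤ β)
    (hβ : β * (K - 1) ^ 2 ≤ K * (Real.log K - 1)) (hy0 : 0 ≤ y) (hyK : y ≤ K) :
    β * (y - 1) ^ 2 ≤ y * Real.log y - y + 1 := by
  have hhalf := beta_le_half K β hK hβ
  have hK0 : 0 < K := by linarith
  rcases hy0.eq_or_lt with rfl | hy
  · simp
    linarith
  -- reduce to `0 ≤ rr β y`
  suffices h : 0 ≤ rr β y by
    have h2 : 0 ≤ y * rr β y := mul_nonneg hy.le h
    unfold rr at h2
    have h3 : y * (Real.log y - 1 + y⁻¹ - β * (y - 2 + y⁻¹)) =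
        y * Real.log y - y + 1 - β * (y - 1) ^ 2 := by
      field_simp
      ring
    linarith
  have hr1 : rr β 1 = 0 := by
    unfold rr; norm_num
  have hcont : ∀ D : Set ℝ, (∀ x ∈ D, 0 < x) → ContinuousOn (rr β) D := fun D hD x hx =>
    (rr_deriv β x (hD x hx)).continuousAt.continuousWithinAt
  rcases le_total y 1 with hy1 | hy1
  · have hanti : AntitoneOn (rr β) (Set.Icc y 1) := by
      apply antitoneOn_of_deriv_nonpos (convex_Icc _ _)
      · exact hcont _ fun x hx => lt_of_lt_of_le hy hx.1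
      · intro x hx
        rw [interior_Icc] at hx
        exact (rr_deriv β x (lt_trans hy hx.1)).differentiableAt.differentiableWithinAt
      · intro x hx
        rw [interior_Icc] at hx
        rw [(rr_deriv β x (lt_trans hy hx.1)).deriv]
        apply div_nonpos_of_nonpos_of_nonneg _ (sq_nonneg _)
        apply mul_nonpos_of_nonpos_of_nonneg
        · linarith [hx.2]
        · have hx0 := lt_trans hy hx.1
          nlinarith [hx.2]
    have := hanti (Set.left_mem_Icc.mpr hy1) (Set.right_mem_Icc.mpr hy1) hy1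
    linarith
  · rcases le_total (β * (y + 1)) 1 with hb | hb
    · have hmono : MonotoneOn (rr β) (Set.Icc 1 y) := by
        apply monotoneOn_of_deriv_nonneg (convex_Icc _ _)
        · exact hcont _ fun x hx => lt_of_lt_of_le one_pos hx.1
        · intro x hx
          rw [interior_Icc] at hx
          exact (rr_deriv β x (lt_trans one_pos hx.1)).differentiableAt.differentiableWithinAt
        · intro x hx
          rw [interior_Icc] at hx
          rw [(rr_deriv β x (lt_trans one_pos hx.1)).deriv]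
          apply div_nonneg _ (sq_nonneg _)
          apply mul_nonneg
          · linarith [hx.1]
          · nlinarith [hx.2]
      have := hmono (Set.left_mem_Icc.mpr hy1) (Set.right_mem_Icc.mpr hy1) hy1
      linarith
    · have hanti : AntitoneOn (rr β) (Set.Icc y K) := by
        apply antitoneOn_of_deriv_nonpos (convex_Icc _ _)
        · exact hcont _ fun x hx => lt_of_lt_of_le hy hx.1
        · intro x hx
          rw [interior_Icc] at hx
          exact (rr_deriv β x (lt_trans hy hx.1)).differentiableAt.differentiableWithinAt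
        · intro x hx
          rw [interior_Icc] at hx
          rw [(rr_deriv β x (lt_trans hy hx.1)).deriv]
          apply div_nonpos_of_nonpos_of_nonneg _ (sq_nonneg _)
          apply mul_nonpos_of_nonneg_of_nonpos
          · linarith [hx.1]
          · nlinarith [hx.1]
      have h5 := hanti (Set.left_mem_Icc.mpr hyK) (Set.right_mem_Icc.mpr hyK) hyK
      have h6 : 0 ≤ rr β K := by
        unfold rr
        have h7 : K * (Real.log K - 1 + K⁻¹ - β * (K - 2 + K⁻¹)) =
          K * (Real.log K - 1) + 1 - β * (K - 1) ^ 2 := by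
          field_simp
          ring
        have h8 : 0 ≤ K * (Real.log K - 1 + K⁻¹ - β * (K - 2 + K⁻¹)) := by
          rw [h7]; linarith
        exact nonneg_of_mul_nonneg_right h8 hK0
      linarith


/-- fibre sizes of a colouring -/
noncomputable def prof {n K : ℕ} (f : Fin n → Fin K) (i : Fin K) : ℕ :=
  (univ.filter fun v => f v = i).card

theorem exists_perm {n K : ℕ} (f f0 : Fin n → Fin K) (h : ∀ i, prof f i = prof f0 i) :
    ∃ g : Equiv.Perm (Fin n), f0 ∘ g = f := by
  let e' : ∀ i, {v // f v = i} ≃ {v // f0 v = i} := fun i => Classical.choice (by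
    apply Fintype.card_eq.mp
    have := h i
    unfold prof at this
    rw [Fintype.card_subtype, Fintype.card_subtype]
    exact this)
  refine ⟨(Equiv.sigmaFiberEquiv f).symm.trans
    ((Equiv.sigmaCongrRight e').trans (Equiv.sigmaFiberEquiv f0)), ?_⟩
  funext v
  simp only [Function.comp_apply, Equiv.trans_apply]
  have : (Equiv.sigmaFiberEquiv f).symm v = ⟨f v, ⟨v, rfl⟩⟩ := rfl
  rw [this]
  simp only [Equiv.sigmaCongrRight_apply, Sigma.map]
  exact ((e' (f v)) ⟨v, rfl⟩).2

theorem prof_comp_perm {n K : ℕ} (f0 : Fin n → Fin K) (g : Equiv.Perm (Fin n)) (i : Fin K) :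
    prof (f0 ∘ g) i = prof f0 i := by
  unfold prof
  apply Finset.card_bij (fun v _ => g v)
  · intro v hv
    simp only [Finset.mem_filter, Finset.mem_univ, true_and, Function.comp_apply] at hv ⊢
    exact hv
  · intro a _ b _ hab
    exact g.injective hab
  · intro b hb
    simp only [Finset.mem_filter, Finset.mem_univ, true_and] at hb
    exact ⟨g.symm b, by simp [hb], by simp⟩

theorem prof_count {n K : ℕ} (f0 : Fin n → Fin K) :
    (univ.filter fun f : Fin n → Fin K => ∀ i, prof f i = prof f0 i).card *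
      ∏ i, (prof f0 i).factorial = n.factorial := by
  have h1 : Fintype.card (Equiv.Perm (Fin n)) = n.factorial := by
    rw [Fintype.card_perm, Fintype.card_fin]
  have h2 : Fintype.card (Equiv.Perm (Fin n)) =
      ∑ f ∈ (univ.filter fun f : Fin n → Fin K => ∀ i, prof f i = prof f0 i),
        (univ.filter fun g : Equiv.Perm (Fin n) => f0 ∘ g = f).card := by
    rw [← Finset.card_univ]
    apply Finset.card_eq_sum_card_fiberwise (f := fun g : Equiv.Perm (Fin n) => f0 ∘ g)
    intro g _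
    simp only [Finset.coe_filter, Finset.mem_univ, true_and, Set.mem_ofPred_eq]
    exact prof_comp_perm f0 g
  have h3 : ∀ f ∈ (univ.filter fun f : Fin n → Fin K => ∀ i, prof f i = prof f0 i),
      (univ.filter fun g : Equiv.Perm (Fin n) => f0 ∘ g = f).card =
        ∏ i, (prof f0 i).factorial := by
    intro f hf
    simp only [Finset.mem_filter, Finset.mem_univ, true_and] at hf
    obtain ⟨g0, hg0⟩ := exists_perm f f0 hf
    have h4 := DomMulAct.stabilizer_card f0
    have h5 : ∏ i, (Fintype.card {a // f0 a = i}).factorial = ∏ i, (prof f0 i).factorial := by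
      refine Finset.prod_congr rfl fun i _ => ?_
      rw [Fintype.card_subtype]
      rfl
    rw [← h5, ← h4, Fintype.card_subtype]
    apply Finset.card_bij (fun g _ => g * g0⁻¹)
    · intro g hg
      simp only [Finset.mem_filter, Finset.mem_univ, true_and] at hg ⊢
      funext v
      have := congrFun (hg.trans hg0.symm) (g0⁻¹ v)
      simpa using this
    · intro a _ b _ hab
      exact mul_right_cancel hab
    · intro b hb
      simp only [Finset.mem_filter, Finset.mem_univ, true_and] at hb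
      refine ⟨b * g0, ?_, by simp⟩
      simp only [Finset.mem_filter, Finset.mem_univ, true_and]
      funext v
      have := congrFun hb (g0 v)
      simp only [Function.comp_apply] at this
      simp only [Function.comp_apply, Equiv.Perm.coe_mul]
      rw [this]
      exact congrFun hg0 v
  rw [← h1, h2, Finset.sum_congr rfl h3, Finset.sum_const, smul_eq_mul]

theorem factorial_pow_le (N m : ℕ) : N.factorial * N ^ m ≤ m.factorial * N ^ N := by
  rcases le_total N m with h | h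
  · have := Nat.factorial_mul_pow_sub_le_factorial h
    calc N.factorial * N ^ m = N.factorial * N ^ (m - N) * N ^ N := by
          rw [mul_assoc, ← pow_add, Nat.sub_add_cancel h]
      _ ≤ m.factorial * N ^ N := Nat.mul_le_mul_right _ this
  · have h2 : N.factorial ≤ m.factorial * N ^ (N - m) := by
      have := Nat.factorial_mul_pow_le_factorial (m := m) (n := 0)
      -- N! = m! * (m+1)...N
      have h3 : N.factorial = m.factorial * (m + 1).ascFactorial (N - m) := by
        have := Nat.factorial_mul_ascFactorial m (N - m)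
        rw [Nat.add_sub_cancel' h] at this
        exact this.symm
      rw [h3]
      apply Nat.mul_le_mul_left
      have h4 := Nat.ascFactorial_le_pow_add m (N - m)
      rw [Nat.add_sub_cancel' h] at h4
      exact h4
    calc N.factorial * N ^ m ≤ m.factorial * N ^ (N - m) * N ^ m := Nat.mul_le_mul_right _ h2
      _ = m.factorial * N ^ N := by rw [mul_assoc, ← pow_add, Nat.sub_add_cancel h]

theorem Bal_eq {K N : ℕ} : Bal K N = univ.filter fun f : Fin (K * N) → Fin K =>
    ∀ i, prof f i = N := by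
  unfold Bal prof
  congr

theorem sum_prof {n K : ℕ} (f : Fin n → Fin K) : ∑ i, prof f i = n := by
  unfold prof
  rw [← Finset.card_eq_sum_card_fiberwise (s := univ) (t := univ) (f := f)
    (fun _ _ => Finset.mem_coe.mpr (Finset.mem_univ _)), Finset.card_univ, Fintype.card_fin]

theorem Bal_nonempty {K N : ℕ} (hK : 0 < K) (hN : 0 < N) : (Bal K N).Nonempty := by
  refine ⟨fun v => (finProdFinEquiv.symm v).1, ?_⟩
  rw [Bal_eq]
  simp only [Finset.mem_filter, Finset.mem_univ, true_and]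
  intro i
  unfold prof
  have : (univ.filter fun v : Fin (K * N) => (finProdFinEquiv.symm v).1 = i).card =
      (univ : Finset (Fin N)).card := by
    symm
    apply Finset.card_bij (fun (j : Fin N) _ => (finProdFinEquiv (i, j) : Fin (K * N)))
    · intro j _
      simp only [Finset.mem_filter, Finset.mem_univ, true_and]
      rw [Equiv.symm_apply_apply]
    · intro a _ b _ hab
      have := finProdFinEquiv.injective hab
      simpa using this
    · intro b hb
      simp only [Finset.mem_filter, Finset.mem_univ, true_and] at hb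
      refine ⟨(finProdFinEquiv.symm b).2, Finset.mem_univ _, ?_⟩
      rw [← hb]
      exact Equiv.apply_symm_apply finProdFinEquiv b
  rw [this, Finset.card_univ, Fintype.card_fin]

theorem Bal_card {K N : ℕ} (hK : 0 < K) (hN : 0 < N) :
    (Bal K N).card * N.factorial ^ K = (K * N).factorial := by
  obtain ⟨f0, hf0⟩ := Bal_nonempty hK hN
  rw [Bal_eq] at hf0
  simp only [Finset.mem_filter, Finset.mem_univ, true_and] at hf0
  have := prof_count f0
  simp only [hf0, Finset.prod_const, Finset.card_univ, Fintype.card_fin] at this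
  rw [Bal_eq]
  exact this

/-- the balanced profile is the most frequent one -/
theorem prof_le_Bal {K N : ℕ} (hK : 0 < K) (hN : 0 < N) (f0 : Fin (K * N) → Fin K) :
    (univ.filter fun f : Fin (K * N) → Fin K => ∀ i, prof f i = prof f0 i).card ≤
      (Bal K N).card := by
  have h1 := prof_count f0
  have h2 := Bal_card hK hN
  have h3 : N.factorial ^ K ≤ ∏ i, (prof f0 i).factorial := by
    have h4 : ∏ i : Fin K, (N.factorial * N ^ (prof f0 i)) ≤
        ∏ i : Fin K, ((prof f0 i).factorial * N ^ N) :=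
      Finset.prod_le_prod' fun i _ => factorial_pow_le N (prof f0 i)
    rw [Finset.prod_mul_distrib, Finset.prod_mul_distrib, Finset.prod_const, Finset.prod_const,
      Finset.card_univ, Fintype.card_fin, Finset.prod_pow_eq_pow_sum, sum_prof, ← pow_mul,
      mul_comm N K] at h4
    exact Nat.le_of_mul_le_mul_right h4 (pow_pos hN _)
  have h5 : 0 < N.factorial ^ K := pow_pos (Nat.factorial_pos _) _
  have h6 : (univ.filter fun f : Fin (K * N) → Fin K => ∀ i, prof f i = prof f0 i).card *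
      N.factorial ^ K ≤ (Bal K N).card * N.factorial ^ K := by
    rw [h2, ← h1]
    exact Nat.mul_le_mul_left _ h3
  exact Nat.le_of_mul_le_mul_right h6 h5

theorem Bal_lower {K N : ℕ} (hK : 0 < K) (hN : 0 < N) :
    K ^ (K * N) ≤ (K * N + 1) ^ K * (Bal K N).card := by
  let Φ : (Fin (K * N) → Fin K) → (Fin K → Fin (K * N + 1)) := fun f i =>
    ⟨prof f i, Nat.lt_succ_of_le (by
      unfold prof
      exact (Finset.card_le_univ _).trans (by rw [Fintype.card_fin]))⟩
  have h1 : Fintype.card (Fin (K * N) → Fin K) = K ^ (K * N) := by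
    simp
  rw [← h1, ← Finset.card_univ,
    Finset.card_eq_sum_card_fiberwise (s := univ) (t := univ) (f := Φ)
      (fun _ _ => Finset.mem_coe.mpr (Finset.mem_univ _))]
  have h2 : ∀ a ∈ (univ : Finset (Fin K → Fin (K * N + 1))),
      (univ.filter fun f => Φ f = a).card ≤ (Bal K N).card := by
    intro a _
    rcases (univ.filter fun f => Φ f = a).eq_empty_or_nonempty with h | ⟨f0, hf0⟩
    · rw [h]; simp
    · simp only [Finset.mem_filter, Finset.mem_univ, true_and] at hf0
      refine le_trans (Finset.card_le_card ?_) (prof_le_Bal hK hN f0)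
      intro f hf
      simp only [Finset.mem_filter, Finset.mem_univ, true_and] at hf ⊢
      intro i
      have := congrFun (hf.trans hf0.symm) i
      exact congrArg Fin.val this
  refine (Finset.sum_le_card_nsmul _ _ _ h2).trans ?_
  rw [smul_eq_mul]
  apply le_of_eq
  simp

section overlap

noncomputable def ov {n K : ℕ} (σ τ : Fin n → Fin K) (i j : Fin K) : ℕ :=
  (univ.filter fun v => (σ v, τ v) = (i, j)).card

theorem ov_row {K N : ℕ} {σ : Fin (K * N) → Fin K} (hσ : σ ∈ Bal K N)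
    (τ : Fin (K * N) → Fin K) (i : Fin K) : ∑ j, ov σ τ i j = N := by
  rw [Bal_eq] at hσ
  simp only [Finset.mem_filter, Finset.mem_univ, true_and] at hσ
  refine Eq.trans ?_ (hσ i)
  unfold prof
  rw [Finset.card_eq_sum_card_fiberwise (s := univ.filter fun v => σ v = i) (t := univ) (f := τ)
    (fun _ _ => Finset.mem_coe.mpr (Finset.mem_univ _))]
  refine Finset.sum_congr rfl fun j _ => ?_
  unfold ov
  congr 1
  ext v
  simp only [Finset.mem_filter, Finset.mem_univ, true_and, Prod.mk.injEq]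

theorem sum_ov_mul {n K : ℕ} (σ τ : Fin n → Fin K) (L : Fin K → Fin K → ℝ) :
    ∑ i, ∑ j, (ov σ τ i j : ℝ) * L i j = ∑ v, L (σ v) (τ v) := by
  have h1 : ∑ v, L (σ v) (τ v) = ∑ p : Fin K × Fin K,
      ∑ v ∈ univ.filter (fun v => (σ v, τ v) = p), L (σ v) (τ v) := by
    rw [Finset.sum_fiberwise]
  rw [h1, Fintype.sum_prod_type]
  refine Finset.sum_congr rfl fun i _ => Finset.sum_congr rfl fun j _ => ?_
  have h2 : ∀ v ∈ univ.filter (fun v => (σ v, τ v) = (i, j)), L (σ v) (τ v) = L i j := by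
    intro v hv
    simp only [Finset.mem_filter, Finset.mem_univ, true_and, Prod.mk.injEq] at hv
    rw [hv.1, hv.2]
  rw [Finset.sum_congr rfl h2, Finset.sum_const, nsmul_eq_mul]
  rfl

noncomputable def QQ {K N : ℕ} (σ τ : Fin (K * N) → Fin K) : ℝ :=
  ∑ i, ∑ j, ((ov σ τ i j : ℝ) - (N : ℝ) / K) ^ 2

theorem exp_QQ_le {K N : ℕ} (hK : 2 ≤ K) (hN : 0 < N) (β : ℝ) (hβ0 : 0 ≤ β)
    (hβ : β * ((K : ℝ) - 1) ^ 2 ≤ K * (Real.log K - 1))
    {σ : Fin (K * N) → Fin K} (hσ : σ ∈ Bal K N) (τ : Fin (K * N) → Fin K) :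
    Real.exp (β * K * QQ σ τ / N) ≤
      (K : ℝ) ^ (K * N) * ∏ v, ((ov σ τ (σ v) (τ v) : ℝ) / N) := by
  have hKr : (0 : ℝ) < K := by exact_mod_cast (by omega : 0 < K)
  have hK1 : (1 : ℝ) < K := by exact_mod_cast (by omega : 1 < K)
  have hNr : (0 : ℝ) < N := by exact_mod_cast hN
  have hsum : ∑ i, ∑ j, (ov σ τ i j : ℝ) = K * N := by
    have : ∀ i, ∑ j, (ov σ τ i j : ℝ) = N := by
      intro i
      exact_mod_cast ov_row hσ τ i
    simp [this]
  -- the right side as an exponential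
  have hpos : ∀ v, 0 < (K : ℝ) * ((ov σ τ (σ v) (τ v) : ℝ) / N) := by
    intro v
    have : 0 < ov σ τ (σ v) (τ v) := by
      unfold ov
      exact Finset.card_pos.mpr ⟨v, by simp⟩
    have : (0 : ℝ) < ov σ τ (σ v) (τ v) := by exact_mod_cast this
    positivity
  have hR : (K : ℝ) ^ (K * N) * ∏ v, ((ov σ τ (σ v) (τ v) : ℝ) / N) =
      Real.exp (∑ v, Real.log ((K : ℝ) * ((ov σ τ (σ v) (τ v) : ℝ) / N))) := by
    rw [Real.exp_sum]
    rw [Finset.prod_congr rfl fun v _ => Real.exp_log (hpos v)]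
    rw [Finset.prod_mul_distrib, Finset.prod_const, Finset.card_univ, Fintype.card_fin]
  rw [hR]
  apply Real.exp_le_exp.mpr
  rw [← sum_ov_mul σ τ (fun i j => Real.log ((K : ℝ) * ((ov σ τ i j : ℝ) / N)))]
  -- termwise inequality
  have hterm : ∀ i j, (N : ℝ) / K * (β * ((K : ℝ) * ((ov σ τ i j : ℝ) / N) - 1) ^ 2) +
      (ov σ τ i j : ℝ) - N / K ≤
      (ov σ τ i j : ℝ) * Real.log ((K : ℝ) * ((ov σ τ i j : ℝ) / N)) := by
    intro i j
    have hle : (ov σ τ i j : ℝ) ≤ N := by
      have h1 := ov_row hσ τ i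
      have h2 : ov σ τ i j ≤ ∑ j, ov σ τ i j :=
        Finset.single_le_sum (f := fun j => ov σ τ i j) (fun _ _ => Nat.zero_le _)
          (Finset.mem_univ j)
      exact_mod_cast h1 ▸ h2
    have h0 : (0 : ℝ) ≤ ov σ τ i j := by positivity
    have h3 := scalar_ineq K β ((K : ℝ) * ((ov σ τ i j : ℝ) / N)) hK1 hβ0 hβ (by positivity)
      (by
        have : (ov σ τ i j : ℝ) / N ≤ 1 := by
          rw [div_le_one hNr]; exact hle
        nlinarith)
    have h4 := mul_le_mul_of_nonneg_left h3 (by positivity : (0 : ℝ) ≤ (N : ℝ) / K)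
    have h5 : (N : ℝ) / K * ((K : ℝ) * ((ov σ τ i j : ℝ) / N) *
        Real.log ((K : ℝ) * ((ov σ τ i j : ℝ) / N)) - (K : ℝ) * ((ov σ τ i j : ℝ) / N) + 1) =
        (ov σ τ i j : ℝ) * Real.log ((K : ℝ) * ((ov σ τ i j : ℝ) / N)) -
          (ov σ τ i j : ℝ) + N / K := by
      field_simp
    linarith
  have h6 : ∑ i, ∑ j, ((N : ℝ) / K * (β * ((K : ℝ) * ((ov σ τ i j : ℝ) / N) - 1) ^ 2) +
      (ov σ τ i j : ℝ) - N / K) ≤
      ∑ i, ∑ j, (ov σ τ i j : ℝ) * Real.log ((K : ℝ) * ((ov σ τ i j : ℝ) / N)) :=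
    Finset.sum_le_sum fun i _ => Finset.sum_le_sum fun j _ => hterm i j
  refine le_trans (le_of_eq ?_) h6
  have h7 : ∀ i j, (N : ℝ) / K * (β * ((K : ℝ) * ((ov σ τ i j : ℝ) / N) - 1) ^ 2) +
      (ov σ τ i j : ℝ) - N / K = β * K / N * ((ov σ τ i j : ℝ) - (N : ℝ) / K) ^ 2 +
      ((ov σ τ i j : ℝ) - N / K) := by
    intro i j
    field_simp
    ring
  simp only [h7, Finset.sum_add_distrib, ← Finset.mul_sum, Finset.sum_sub_distrib, hsum]
  simp only [Finset.sum_const, Finset.card_univ, Fintype.card_fin, nsmul_eq_mul]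
  unfold QQ
  field_simp
  ring

theorem sum_weight_le {K N : ℕ} (hN : 0 < N) {σ : Fin (K * N) → Fin K} (hσ : σ ∈ Bal K N) :
    ∑ τ ∈ Bal K N, ∏ v, ((ov σ τ (σ v) (τ v) : ℝ) / N) ≤ ((N : ℝ) + 1) ^ (K ^ 2) := by
  have hNr : (0 : ℝ) < N := by exact_mod_cast hN
  have hle : ∀ τ i j, ov σ τ i j < N + 1 := by
    intro τ i j
    have h1 := ov_row hσ τ i
    have h2 : ov σ τ i j ≤ ∑ j, ov σ τ i j :=
      Finset.single_le_sum (f := fun j => ov σ τ i j) (fun _ _ => Nat.zero_le _)
        (Finset.mem_univ j)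
    omega
  let Φ : (Fin (K * N) → Fin K) → (Fin K → Fin K → Fin (N + 1)) := fun τ i j =>
    ⟨ov σ τ i j, hle τ i j⟩
  have h1 : ∑ τ ∈ Bal K N, ∏ v, ((ov σ τ (σ v) (τ v) : ℝ) / N) =
      ∑ a : Fin K → Fin K → Fin (N + 1), ∑ τ ∈ (Bal K N).filter (fun τ => Φ τ = a),
        ∏ v, ((ov σ τ (σ v) (τ v) : ℝ) / N) := by
    rw [Finset.sum_fiberwise]
  rw [h1]
  have h2 : ∀ a ∈ (univ : Finset (Fin K → Fin K → Fin (N + 1))),
      ∑ τ ∈ (Bal K N).filter (fun τ => Φ τ = a), ∏ v, ((ov σ τ (σ v) (τ v) : ℝ) / N) ≤ 1 := by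
    intro a _
    rcases ((Bal K N).filter fun τ => Φ τ = a).eq_empty_or_nonempty with h | ⟨τ0, hτ0⟩
    · rw [h]; simp
    · simp only [Finset.mem_filter] at hτ0
      have hrow : ∀ i, ∑ j, ((a i j : ℕ) : ℝ) / N = 1 := by
        intro i
        rw [← Finset.sum_div]
        have h3 : ∑ j, ((a i j : ℕ) : ℝ) = N := by
          have := ov_row hσ τ0 i
          rw [← hτ0.2]
          exact_mod_cast this
        rw [h3, div_self hNr.ne']
      have h4 : ∑ τ ∈ (Bal K N).filter (fun τ => Φ τ = a), ∏ v, ((ov σ τ (σ v) (τ v) : ℝ) / N) =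
          ∑ τ ∈ (Bal K N).filter (fun τ => Φ τ = a), ∏ v, (((a (σ v) (τ v) : ℕ) : ℝ) / N) := by
        refine Finset.sum_congr rfl fun τ hτ => Finset.prod_congr rfl fun v _ => ?_
        simp only [Finset.mem_filter] at hτ
        rw [← hτ.2]
      rw [h4]
      calc ∑ τ ∈ (Bal K N).filter (fun τ => Φ τ = a), ∏ v, (((a (σ v) (τ v) : ℕ) : ℝ) / N)
          ≤ ∑ τ : Fin (K * N) → Fin K, ∏ v, (((a (σ v) (τ v) : ℕ) : ℝ) / N) := by
            apply Finset.sum_le_sum_of_subset_of_nonneg (Finset.subset_univ _)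
            intro τ _ _
            exact Finset.prod_nonneg fun v _ => by positivity
        _ = ∏ v, ∑ j, (((a (σ v) j : ℕ) : ℝ) / N) := by
            rw [Finset.prod_univ_sum]
            rw [Fintype.piFinset_univ]
        _ = 1 := by
            simp only [hrow, Finset.prod_const_one]
        _ ≤ 1 := le_rfl
  refine (Finset.sum_le_card_nsmul _ _ _ h2).trans ?_
  rw [nsmul_eq_mul, mul_one, Finset.card_univ]
  simp only [Fintype.card_pi, Fintype.card_fin, Finset.prod_const, Finset.card_univ]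
  push_cast
  rw [← pow_mul, sq]

theorem sum_exp_QQ_le {K N : ℕ} (hK : 2 ≤ K) (hN : 0 < N) (β : ℝ) (hβ0 : 0 ≤ β)
    (hβ : β * ((K : ℝ) - 1) ^ 2 ≤ K * (Real.log K - 1))
    {σ : Fin (K * N) → Fin K} (hσ : σ ∈ Bal K N) :
    ∑ τ ∈ Bal K N, Real.exp (β * K * QQ σ τ / N) ≤
      ((K * N + 1 : ℕ) : ℝ) ^ (K ^ 2 + K) * (Bal K N).card := by
  have h1 : ∑ τ ∈ Bal K N, Real.exp (β * K * QQ σ τ / N) ≤
      (K : ℝ) ^ (K * N) * ((N : ℝ) + 1) ^ (K ^ 2) := by
    calc ∑ τ ∈ Bal K N, Real.exp (β * K * QQ σ τ / N)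
        ≤ ∑ τ ∈ Bal K N, (K : ℝ) ^ (K * N) * ∏ v, ((ov σ τ (σ v) (τ v) : ℝ) / N) :=
          Finset.sum_le_sum fun τ _ => exp_QQ_le hK hN β hβ0 hβ hσ τ
      _ = (K : ℝ) ^ (K * N) * ∑ τ ∈ Bal K N, ∏ v, ((ov σ τ (σ v) (τ v) : ℝ) / N) := by
          rw [Finset.mul_sum]
      _ ≤ _ := mul_le_mul_of_nonneg_left (sum_weight_le hN hσ) (by positivity)
  have h2 : (K : ℝ) ^ (K * N) ≤ ((K * N + 1 : ℕ) : ℝ) ^ K * (Bal K N).card := by
    exact_mod_cast Bal_lower (K := K) (N := N) (by omega) hN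
  have h3 : ((N : ℝ) + 1) ^ (K ^ 2) ≤ ((K * N + 1 : ℕ) : ℝ) ^ (K ^ 2) := by
    apply pow_le_pow_left₀ (by positivity)
    push_cast
    have : (1 : ℝ) ≤ K := by exact_mod_cast (by omega : 1 ≤ K)
    have hNr : (0 : ℝ) < N := by exact_mod_cast hN
    nlinarith
  calc ∑ τ ∈ Bal K N, Real.exp (β * K * QQ σ τ / N)
      ≤ (K : ℝ) ^ (K * N) * ((N : ℝ) + 1) ^ (K ^ 2) := h1
    _ ≤ (((K * N + 1 : ℕ) : ℝ) ^ K * (Bal K N).card) * ((K * N + 1 : ℕ) : ℝ) ^ (K ^ 2) :=
        mul_le_mul h2 h3 (by positivity) (by positivity)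
    _ = _ := by rw [pow_add]; ring

end overlap

section ratio

theorem choose_ratio (E u a1 M : ℕ) (D : ℝ) (hD : 0 ≤ D)
    (h : ∀ t < M, ((E - u - t : ℕ) : ℝ) * ((E - t : ℕ) : ℝ) ≤
      (1 + D) * ((E - a1 - t : ℕ) : ℝ) ^ 2) :
    ((E - u).choose M : ℝ) * (E.choose M : ℝ) ≤ (1 + D) ^ M * ((E - a1).choose M : ℝ) ^ 2 := by
  have hf : (0 : ℝ) < (M.factorial : ℝ) := by exact_mod_cast Nat.factorial_pos M
  have hd : ∀ n : ℕ, ((n.choose M : ℕ) : ℝ) * M.factorial = ∏ t ∈ range M, ((n - t : ℕ) : ℝ) := by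
    intro n
    have h1 := Nat.descFactorial_eq_factorial_mul_choose n M
    have h2 := Nat.descFactorial_eq_prod_range n M
    rw [mul_comm]
    have h3 : M.factorial * n.choose M = ∏ t ∈ range M, (n - t) := by rw [← h1, h2]
    exact_mod_cast h3
  have h4 : (∏ t ∈ range M, ((E - u - t : ℕ) : ℝ)) * (∏ t ∈ range M, ((E - t : ℕ) : ℝ)) ≤
      (1 + D) ^ M * (∏ t ∈ range M, ((E - a1 - t : ℕ) : ℝ)) ^ 2 := by
    rw [← Finset.prod_mul_distrib, ← Finset.prod_pow]
    have h5 : (1 + D) ^ M = ∏ _t ∈ range M, (1 + D) := by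
      rw [Finset.prod_const, Finset.card_range]
    rw [h5, ← Finset.prod_mul_distrib]
    apply Finset.prod_le_prod
    · intro t _; positivity
    · intro t ht
      exact h t (Finset.mem_range.mp ht)
  rw [← hd, ← hd, ← hd] at h4
  have h6 : ((E - u).choose M : ℝ) * (E.choose M : ℝ) * (M.factorial : ℝ) ^ 2 ≤
      (1 + D) ^ M * ((E - a1).choose M : ℝ) ^ 2 * (M.factorial : ℝ) ^ 2 := by
    calc _ = ((E - u).choose M : ℝ) * M.factorial * ((E.choose M : ℝ) * M.factorial) := by ring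
      _ ≤ (1 + D) ^ M * (((E - a1).choose M : ℝ) * M.factorial) ^ 2 := h4
      _ = _ := by ring
  exact le_of_mul_le_mul_right h6 (by positivity)

theorem ov_sq_sum {K N : ℕ} (hK : 2 ≤ K) {σ : Fin (K * N) → Fin K} (hσ : σ ∈ Bal K N)
    (τ : Fin (K * N) → Fin K) :
    ∑ i, ∑ j, (ov σ τ i j : ℝ) ^ 2 = QQ σ τ + (N : ℝ) ^ 2 := by
  have hKr : (0 : ℝ) < K := by exact_mod_cast (by omega : 0 < K)
  have hsum : ∑ i, ∑ j, (ov σ τ i j : ℝ) = K * N := by
    have : ∀ i, ∑ j, (ov σ τ i j : ℝ) = N := by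
      intro i
      exact_mod_cast ov_row hσ τ i
    simp [this]
  unfold QQ
  have h1 : ∀ i j, ((ov σ τ i j : ℝ) - (N : ℝ) / K) ^ 2 =
      (ov σ τ i j : ℝ) ^ 2 - 2 * ((N : ℝ) / K) * (ov σ τ i j : ℝ) + ((N : ℝ) / K) ^ 2 := by
    intro i j; ring
  simp only [h1, Finset.sum_add_distrib, Finset.sum_sub_distrib, ← Finset.mul_sum, hsum]
  simp only [Finset.sum_const, Finset.card_univ, Fintype.card_fin, nsmul_eq_mul]
  field_simp
  ring

theorem QQ_nonneg {K N : ℕ} (σ τ : Fin (K * N) → Fin K) : 0 ≤ QQ σ τ :=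
  Finset.sum_nonneg fun _ _ => Finset.sum_nonneg fun _ _ => sq_nonneg _

theorem QQ_le {K N : ℕ} (hK : 2 ≤ K) {σ : Fin (K * N) → Fin K} (hσ : σ ∈ Bal K N)
    (τ : Fin (K * N) → Fin K) : QQ σ τ ≤ K * (N : ℝ) ^ 2 := by
  have h1 := ov_sq_sum hK hσ τ
  have hle : ∀ i j, (ov σ τ i j : ℝ) ≤ N := by
    intro i j
    have h1 := ov_row hσ τ i
    have h2 : ov σ τ i j ≤ ∑ j, ov σ τ i j :=
      Finset.single_le_sum (f := fun j => ov σ τ i j) (fun _ _ => Nat.zero_le _)
        (Finset.mem_univ j)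
    exact_mod_cast h1 ▸ h2
  have h2 : ∑ i, ∑ j, (ov σ τ i j : ℝ) ^ 2 ≤ ∑ i, ∑ j, (N : ℝ) * (ov σ τ i j : ℝ) := by
    refine Finset.sum_le_sum fun i _ => Finset.sum_le_sum fun j _ => ?_
    rw [sq]
    exact mul_le_mul_of_nonneg_right (hle i j) (by positivity)
  have hsum : ∀ i, ∑ j, (ov σ τ i j : ℝ) = N := by
    intro i
    exact_mod_cast ov_row hσ τ i
  simp only [← Finset.mul_sum, hsum] at h2
  simp only [Finset.sum_const, Finset.card_univ, Fintype.card_fin, nsmul_eq_mul] at h2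
  nlinarith [sq_nonneg (N : ℝ)]

theorem card_mono_Bal {K N : ℕ} {σ : Fin (K * N) → Fin K} (hσ : σ ∈ Bal K N) :
    (mono σ).card = K * N.choose 2 := by
  rw [mono_eq_monoF, card_monoF]
  rw [Bal_eq] at hσ
  simp only [Finset.mem_filter, Finset.mem_univ, true_and] at hσ
  have : ∀ i ∈ (univ : Finset (Fin K)), (univ.filter fun v => σ v = i).card.choose 2 =
      N.choose 2 := by
    intro i _
    have := hσ i
    unfold prof at this
    exact congrArg (fun m => Nat.choose m 2) this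
  rw [Finset.sum_congr rfl this]
  simp

theorem card_union_real {K N : ℕ} (hK : 2 ≤ K) {σ τ : Fin (K * N) → Fin K} (hσ : σ ∈ Bal K N)
    (hτ : τ ∈ Bal K N) :
    ((mono σ ∪ mono τ).card : ℝ) =
      K * N * (N - 1) - (QQ σ τ + (N : ℝ) ^ 2 - K * N) / 2 := by
  have h1 : (mono σ ∪ mono τ).card + (mono σ ∩ mono τ).card = (mono σ).card + (mono τ).card :=
    Finset.card_union_add_card_inter _ _
  have h2 : ((mono σ ∩ mono τ).card : ℝ) = (QQ σ τ + (N : ℝ) ^ 2 - K * N) / 2 := by
    rw [mono_inter, card_monoF]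
    push_cast
    have h3 : ∀ p : Fin K × Fin K, (((univ.filter fun v => (σ v, τ v) = p).card.choose 2 : ℕ) : ℝ) =
        (((univ.filter fun v => (σ v, τ v) = p).card : ℝ) ^ 2 -
          ((univ.filter fun v => (σ v, τ v) = p).card : ℝ)) / 2 := by
      intro p
      rw [Nat.cast_choose_two]
      ring
    simp only [h3]
    rw [← Finset.sum_div, Fintype.sum_prod_type]
    have h4 : ∀ i j, ((univ.filter fun v => (σ v, τ v) = (i, j)).card : ℝ) = (ov σ τ i j : ℝ) :=
      fun i j => rfl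
    simp only [h4, Finset.sum_sub_distrib]
    rw [ov_sq_sum hK hσ τ]
    have hsum : ∑ i, ∑ j, (ov σ τ i j : ℝ) = K * N := by
      have : ∀ i, ∑ j, (ov σ τ i j : ℝ) = N := by
        intro i
        exact_mod_cast ov_row hσ τ i
      simp [this]
    rw [hsum]
  have h5 : ((mono σ ∪ mono τ).card : ℝ) + ((mono σ ∩ mono τ).card : ℝ) =
      ((mono σ).card : ℝ) + ((mono τ).card : ℝ) := by exact_mod_cast h1
  rw [card_mono_Bal hσ, card_mono_Bal hτ, h2] at h5
  push_cast at h5
  rw [Nat.cast_choose_two] at h5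
  linarith

theorem card_Pr_real (K N : ℕ) : (Fintype.card (Pr (K * N)) : ℝ) = K * N * (K * N - 1) / 2 := by
  rw [card_Pr, Nat.cast_choose_two]
  push_cast
  ring

/-- the ratio estimate for a pair of balanced colourings -/
theorem pair_ratio {K N : ℕ} (hK : 2 ≤ K) (hN : 0 < N) (c : ℝ) (hc0 : 0 ≤ c)
    (hNc : 8 * c ≤ ((K : ℝ) - 1) * N) (M : ℕ) (hM : (M : ℝ) ≤ c * (K * N))
    {σ τ : Fin (K * N) → Fin K} (hσ : σ ∈ Bal K N) (hτ : τ ∈ Bal K N) :
    ((Fintype.card (Pr (K * N)) - (mono σ ∪ mono τ).card).choose M : ℝ) *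
        ((Fintype.card (Pr (K * N))).choose M : ℝ) ≤
      Real.exp (c / ((K : ℝ) - 1) ^ 2 * K * QQ σ τ / N +
        8 * c * (c / ((K : ℝ) - 1) ^ 2) * (K : ℝ) ^ 2 / ((K : ℝ) - 1)) *
      ((Fintype.card (Pr (K * N)) - K * N.choose 2).choose M : ℝ) ^ 2 := by
  set E := Fintype.card (Pr (K * N)) with hE
  set u := (mono σ ∪ mono τ).card with hu
  set a1 := K * N.choose 2 with ha1
  set Q := QQ σ τ with hQ
  have hQ0 : 0 ≤ Q := QQ_nonneg σ τ
  have hQ1 : Q ≤ K * (N : ℝ) ^ 2 := QQ_le hK hσ τ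
  have hKr : (2 : ℝ) ≤ K := by exact_mod_cast hK
  have hNr : (0 : ℝ) < N := by exact_mod_cast hN
  have hN1 : (1 : ℝ) ≤ N := by exact_mod_cast hN
  have hEr : (E : ℝ) = K * N * (K * N - 1) / 2 := card_Pr_real K N
  have hur : (u : ℝ) = K * N * (N - 1) - (Q + (N : ℝ) ^ 2 - K * N) / 2 :=
    card_union_real hK hσ hτ
  have ha1r : (a1 : ℝ) = K * (N * (N - 1) / 2) := by
    rw [ha1]; push_cast; rw [Nat.cast_choose_two]
  set A : ℝ := K * (K - 1) * (N : ℝ) ^ 2 / 2 with hA
  set m : ℝ := c * (K * N) with hm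
  have hA0 : 0 < A := by
    have : (0 : ℝ) < K - 1 := by linarith
    rw [hA]; positivity
  have hm0 : 0 ≤ m := by rw [hm]; positivity
  have hmA : m ≤ A / 4 := by
    rw [hm, hA]
    have h1 : 8 * c * (K * N) ≤ ((K : ℝ) - 1) * N * (K * N) :=
      mul_le_mul_of_nonneg_right hNc (by positivity)
    nlinarith
  have hAE : (E : ℝ) - a1 = A := by
    rw [hEr, ha1r, hA]; ring
  have hAm : 0 < A - m := by linarith
  set D : ℝ := (K : ℝ) ^ 2 * (N : ℝ) ^ 2 * Q / (4 * (A - m) ^ 2) with hD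
  have hD0 : 0 ≤ D := by rw [hD]; positivity
  have ho : 0 ≤ (Q + (N : ℝ) ^ 2 - K * N) / 2 := by
    have h1 : (mono σ ∪ mono τ).card + (mono σ ∩ mono τ).card = (mono σ).card + (mono τ).card :=
      Finset.card_union_add_card_inter _ _
    have h2 : (u : ℝ) ≤ 2 * a1 := by
      rw [card_mono_Bal hσ, card_mono_Bal hτ] at h1
      have h3 : u ≤ a1 + a1 := by rw [hu, ha1]; omega
      have h4 : (u : ℝ) ≤ (a1 : ℝ) + a1 := by exact_mod_cast h3
      linarith
    rw [hur, ha1r] at h2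
    linarith
  have hstep : ∀ t < M, ((E - u - t : ℕ) : ℝ) * ((E - t : ℕ) : ℝ) ≤
      (1 + D) * ((E - a1 - t : ℕ) : ℝ) ^ 2 := by
    intro t ht
    by_cases hz : E - u - t = 0
    · rw [hz]
      simp only [Nat.cast_zero, zero_mul]
      positivity
    · have htr : (t : ℝ) ≤ m := by
        have : (t : ℝ) ≤ M := by exact_mod_cast ht.le
        linarith
      have hc1 : ((E - u - t : ℕ) : ℝ) = (E : ℝ) - u - t := by
        have h1 : u + t ≤ E := by omega
        rw [Nat.sub_sub, Nat.cast_sub h1]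
        push_cast
        ring
      have hEt : t ≤ E := by omega
      have hc2 : ((E - t : ℕ) : ℝ) = (E : ℝ) - t := by
        rw [Nat.cast_sub hEt]
      have hc3 : ((E - a1 - t : ℕ) : ℝ) = (E : ℝ) - a1 - t := by
        have h1 : a1 + t ≤ E := by
          have : (a1 : ℝ) + t ≤ E := by linarith
          exact_mod_cast this
        rw [Nat.sub_sub, Nat.cast_sub h1]
        push_cast
        ring
      rw [hc1, hc2, hc3]
      -- with x = E - t
      have h1 : ((E : ℝ) - u - t) * (E - t) = (E - a1 - t) ^ 2 +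
          ((Q + (N : ℝ) ^ 2 - K * N) / 2 * (E - t) - (a1 : ℝ) ^ 2) := by
        rw [hur, ha1r]; ring
      have h2 : (Q + (N : ℝ) ^ 2 - K * N) / 2 * (E - t) - (a1 : ℝ) ^ 2 ≤
          (K : ℝ) ^ 2 * (N : ℝ) ^ 2 * Q / 4 := by
        have h3 : (Q + (N : ℝ) ^ 2 - K * N) / 2 * (E - t) ≤
            (Q + (N : ℝ) ^ 2 - K * N) / 2 * E := by
          apply mul_le_mul_of_nonneg_left _ ho
          have : (0 : ℝ) ≤ t := by positivity
          linarith
        have h4 : (Q + (N : ℝ) ^ 2 - K * N) / 2 * E - (a1 : ℝ) ^ 2 =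
            K * N / 4 * (Q * (K * N - 1) - (N : ℝ) ^ 2 * (K - 1) ^ 2) := by
          rw [hEr, ha1r]; ring
        have h5 : (K : ℝ) * N / 4 * (Q * (K * N - 1) - (N : ℝ) ^ 2 * (K - 1) ^ 2) ≤
            K * N / 4 * (Q * (K * N)) := by
          apply mul_le_mul_of_nonneg_left _ (by positivity)
          nlinarith [sq_nonneg ((N : ℝ) * (K - 1))]
        have h5' : (K : ℝ) * N / 4 * (Q * (K * N)) = (K : ℝ) ^ 2 * (N : ℝ) ^ 2 * Q / 4 := by ring
        linarith
      have h6 : A - m ≤ (E : ℝ) - a1 - t := by linarith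
      have h7 : (A - m) ^ 2 ≤ ((E : ℝ) - a1 - t) ^ 2 := by
        apply pow_le_pow_left₀ hAm.le h6
      have h8 : (K : ℝ) ^ 2 * (N : ℝ) ^ 2 * Q / 4 ≤ D * ((E : ℝ) - a1 - t) ^ 2 := by
        have h9 : (K : ℝ) ^ 2 * (N : ℝ) ^ 2 * Q / 4 = D * (A - m) ^ 2 := by
          rw [hD]; field_simp
        rw [h9]
        exact mul_le_mul_of_nonneg_left h7 hD0
      have h9 : (1 + D) * ((E : ℝ) - a1 - t) ^ 2 =
          ((E : ℝ) - a1 - t) ^ 2 + D * ((E : ℝ) - a1 - t) ^ 2 := by ring
      rw [h1, h9]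
      linarith
  refine (choose_ratio E u a1 M D hD0 hstep).trans ?_
  apply mul_le_mul_of_nonneg_right _ (by positivity)
  have h10 : (1 + D) ^ M ≤ Real.exp (M * D) := by
    have : 1 + D ≤ Real.exp D := by
      have := Real.add_one_le_exp D
      linarith
    calc (1 + D) ^ M ≤ (Real.exp D) ^ M := pow_le_pow_left₀ (by positivity) this _
      _ = Real.exp (M * D) := by rw [← Real.exp_nat_mul]
  refine h10.trans (Real.exp_le_exp.mpr ?_)
  -- M * D ≤ m * D ≤ ...
  have h11 : (M : ℝ) * D ≤ m * D := mul_le_mul_of_nonneg_right hM hD0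
  refine h11.trans ?_
  set δ : ℝ := m / A with hδ
  have hδ0 : 0 ≤ δ := by rw [hδ]; positivity
  have hδ1 : δ ≤ 1 / 4 := by
    rw [hδ, div_le_iff₀ hA0]; linarith
  have hmδ : m = δ * A := by rw [hδ]; field_simp
  have hK1 : (0 : ℝ) < K - 1 := by linarith
  have h12 : m * D = (c / ((K : ℝ) - 1) ^ 2 * K * Q / N) / (1 - δ) ^ 2 := by
    have h13 : A - m = A * (1 - δ) := by rw [hmδ]; ring
    have h14 : (1 - δ) ≠ 0 := by linarith
    rw [hD, h13, hm, hA]
    field_simp
    ring
  rw [h12]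
  set y : ℝ := c / ((K : ℝ) - 1) ^ 2 * K * Q / N with hy
  have hy0 : 0 ≤ y := by rw [hy]; positivity
  have h15 : 1 / (1 - δ) ^ 2 ≤ 1 + 4 * δ := by
    rw [div_le_iff₀ (by nlinarith)]
    nlinarith [mul_nonneg hδ0 (by nlinarith : (0 : ℝ) ≤ 2 - 7 * δ + 4 * δ ^ 2)]
  have h16 : y / (1 - δ) ^ 2 ≤ y + 4 * δ * y := by
    calc y / (1 - δ) ^ 2 = y * (1 / (1 - δ) ^ 2) := by ring
      _ ≤ y * (1 + 4 * δ) := mul_le_mul_of_nonneg_left h15 hy0
      _ = _ := by ring
  refine h16.trans ?_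
  have h17 : 4 * δ * y ≤ 8 * c * (c / ((K : ℝ) - 1) ^ 2) * (K : ℝ) ^ 2 / ((K : ℝ) - 1) := by
    have h18 : δ = 2 * c / ((K - 1) * N) := by
      rw [hδ, hm, hA]; field_simp
    have h19 : y ≤ c / ((K : ℝ) - 1) ^ 2 * K * (K * (N : ℝ) ^ 2) / N := by
      rw [hy]
      apply div_le_div_of_nonneg_right _ hNr.le
      exact mul_le_mul_of_nonneg_left hQ1 (by positivity)
    calc 4 * δ * y ≤ 4 * δ * (c / ((K : ℝ) - 1) ^ 2 * K * (K * (N : ℝ) ^ 2) / N) :=
          mul_le_mul_of_nonneg_left h19 (by positivity)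
      _ = _ := by rw [h18]; field_simp; ring
  linarith

end ratio

/-- number of balanced proper colourings -/
noncomputable def X (K N : ℕ) (S : Finset (Pr (K * N))) : ℝ :=
  (((Bal K N).filter fun σ => Disjoint S (mono σ)).card : ℝ)

theorem sum_X (K N M : ℕ) :
    ∑ S ∈ powersetCard M (univ : Finset (Pr (K * N))), X K N S =
      (Bal K N).card * ((Fintype.card (Pr (K * N)) - K * N.choose 2).choose M : ℝ) := by
  unfold X
  have h1 : ∀ S : Finset (Pr (K * N)),
      (((Bal K N).filter fun σ => Disjoint S (mono σ)).card : ℝ) =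
        ∑ σ ∈ Bal K N, if Disjoint S (mono σ) then (1 : ℝ) else 0 := by
    intro S
    rw [Finset.sum_boole]
  simp only [h1]
  rw [Finset.sum_comm]
  have h2 : ∀ σ ∈ Bal K N, ∑ S ∈ powersetCard M (univ : Finset (Pr (K * N))),
      (if Disjoint S (mono σ) then (1 : ℝ) else 0) =
        ((Fintype.card (Pr (K * N)) - K * N.choose 2).choose M : ℝ) := by
    intro σ hσ
    rw [Finset.sum_boole, filter_disjoint_card, card_mono_Bal hσ]
  rw [Finset.sum_congr rfl h2, Finset.sum_const, nsmul_eq_mul]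

theorem sum_X_sq (K N M : ℕ) :
    ∑ S ∈ powersetCard M (univ : Finset (Pr (K * N))), X K N S ^ 2 =
      ∑ σ ∈ Bal K N, ∑ τ ∈ Bal K N,
        ((Fintype.card (Pr (K * N)) - (mono σ ∪ mono τ).card).choose M : ℝ) := by
  unfold X
  have h1 : ∀ S : Finset (Pr (K * N)),
      (((Bal K N).filter fun σ => Disjoint S (mono σ)).card : ℝ) ^ 2 =
        ∑ σ ∈ Bal K N, ∑ τ ∈ Bal K N, if Disjoint S (mono σ ∪ mono τ) then (1 : ℝ) else 0 := by
    intro S
    have h2 : (((Bal K N).filter fun σ => Disjoint S (mono σ)).card : ℝ) =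
        ∑ σ ∈ Bal K N, if Disjoint S (mono σ) then (1 : ℝ) else 0 := by
      rw [Finset.sum_boole]
    rw [h2, sq, Finset.sum_mul_sum]
    refine Finset.sum_congr rfl fun σ _ => Finset.sum_congr rfl fun τ _ => ?_
    simp only [Finset.disjoint_union_right]
    by_cases ha : Disjoint S (mono σ) <;> by_cases hb : Disjoint S (mono τ) <;> simp [ha, hb]
  simp only [h1]
  rw [Finset.sum_comm]
  refine Finset.sum_congr rfl fun σ _ => ?_
  rw [Finset.sum_comm]
  refine Finset.sum_congr rfl fun τ _ => ?_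
  rw [Finset.sum_boole, filter_disjoint_card]

theorem second_moment_aux (K : ℕ) (hK : 2 ≤ K) (c : ℝ) (hc0 : 0 ≤ c)
    (hc : c ≤ K * (Real.log K - 1)) (N : ℕ) (hN : 0 < N) (hNc : 8 * c ≤ ((K : ℝ) - 1) * N)
    (M : ℕ) (hM : (M : ℝ) ≤ c * (K * N)) :
      (∑ S ∈ powersetCard M (univ : Finset (Pr (K * N))), X K N S ^ 2) *
          ((Fintype.card (Pr (K * N))).choose M : ℝ) ≤
        Real.exp (8 * c * (c / ((K : ℝ) - 1) ^ 2) * (K : ℝ) ^ 2 / ((K : ℝ) - 1)) *
          ((K * N + 1 : ℕ) : ℝ) ^ (K ^ 2 + K) *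
          (∑ S ∈ powersetCard M (univ : Finset (Pr (K * N))), X K N S) ^ 2 := by
  have hKr : (2 : ℝ) ≤ K := by exact_mod_cast hK
  have hK1 : (0 : ℝ) < K - 1 := by linarith
  set β : ℝ := c / ((K : ℝ) - 1) ^ 2 with hβ
  have hβ0 : 0 ≤ β := by rw [hβ]; positivity
  have hβ1 : β * ((K : ℝ) - 1) ^ 2 ≤ K * (Real.log K - 1) := by
    rw [hβ, div_mul_cancel₀ _ (by positivity)]
    exact hc
  set C1 : ℝ := 8 * c * β * (K : ℝ) ^ 2 / ((K : ℝ) - 1) with hC1
  set F : ℝ := ((Fintype.card (Pr (K * N)) - K * N.choose 2).choose M : ℝ) with hF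
  rw [sum_X, sum_X_sq, Finset.sum_mul]
  calc ∑ σ ∈ Bal K N, (∑ τ ∈ Bal K N,
        ((Fintype.card (Pr (K * N)) - (mono σ ∪ mono τ).card).choose M : ℝ)) *
          ((Fintype.card (Pr (K * N))).choose M : ℝ)
      ≤ ∑ σ ∈ Bal K N, (Real.exp C1 * F ^ 2 *
          (((K * N + 1 : ℕ) : ℝ) ^ (K ^ 2 + K) * (Bal K N).card)) := by
        refine Finset.sum_le_sum fun σ hσ => ?_
        rw [Finset.sum_mul]
        calc ∑ τ ∈ Bal K N, ((Fintype.card (Pr (K * N)) - (mono σ ∪ mono τ).card).choose M : ℝ) *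
              ((Fintype.card (Pr (K * N))).choose M : ℝ)
            ≤ ∑ τ ∈ Bal K N, (Real.exp C1 * F ^ 2) * Real.exp (β * K * QQ σ τ / N) := by
              refine Finset.sum_le_sum fun τ hτ => ?_
              have h1 := pair_ratio hK hN c hc0 hNc M hM hσ hτ
              rw [Real.exp_add] at h1
              refine h1.trans (le_of_eq ?_)
              ring
          _ = (Real.exp C1 * F ^ 2) * ∑ τ ∈ Bal K N, Real.exp (β * K * QQ σ τ / N) := by
              rw [Finset.mul_sum]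
          _ ≤ _ := by
              apply mul_le_mul_of_nonneg_left (sum_exp_QQ_le hK hN β hβ0 hβ1 hσ)
              positivity
    _ = Real.exp C1 * ((K * N + 1 : ℕ) : ℝ) ^ (K ^ 2 + K) * (((Bal K N).card : ℝ) * F) ^ 2 := by
        rw [Finset.sum_const, nsmul_eq_mul]
        ring

theorem second_moment (K : ℕ) (hK : 8 ≤ K) (c : ℝ) (hc0 : 0 ≤ c)
    (hc : c ≤ K * (Real.log K - 1)) :
    ∃ C : ℝ, 0 < C ∧ ∃ N₀ : ℕ, ∀ N : ℕ, N₀ ≤ N → ∀ M : ℕ, (M : ℝ) ≤ c * (K * N) →
      (∑ S ∈ powersetCard M (univ : Finset (Pr (K * N))), X K N S ^ 2) *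
          ((Fintype.card (Pr (K * N))).choose M : ℝ) ≤
        C * ((K * N + 1 : ℕ) : ℝ) ^ (K ^ 2 + K) *
          (∑ S ∈ powersetCard M (univ : Finset (Pr (K * N))), X K N S) ^ 2 := by
  refine ⟨_, Real.exp_pos (8 * c * (c / ((K : ℝ) - 1) ^ 2) * (K : ℝ) ^ 2 / ((K : ℝ) - 1)),
    ⌈8 * c⌉₊ + 1, fun N hN M hM => ?_⟩
  apply second_moment_aux K (by omega) c hc0 hc N (by omega) _ M hM
  have h1 : 8 * c ≤ (⌈8 * c⌉₊ : ℝ) := Nat.le_ceil _
  have h2 : (⌈8 * c⌉₊ : ℝ) + 1 ≤ N := by exact_mod_cast hN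
  have hKr : (8 : ℝ) ≤ K := by exact_mod_cast hK
  have h3 : (0 : ℝ) ≤ N := by positivity
  nlinarith

theorem U_eq_filter {α : Type*} (M : ℕ) (E : Finset α) (p : Finset α → Prop)
    [DecidablePred p] :
    U M E {S | p S} = (((E.powersetCard M).filter p).card : ℝ) / (E.card.choose M : ℝ) := by
  unfold U
  apply congrArg (fun s : Finset (Finset α) => (s.card : ℝ) / (E.card.choose M : ℝ))
  ext S
  simp only [Finset.mem_filter, Set.mem_ofPred_eq]

theorem good_colouring (K : ℕ) (hK : 8 ≤ K) (c : ℝ) (hc0 : 0 ≤ c)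
    (hc : c ≤ K * (Real.log K - 1)) :
    ∃ C : ℝ, 0 < C ∧ ∃ N₀ : ℕ, ∀ N : ℕ, N₀ ≤ N → ∀ M : ℕ, (M : ℝ) ≤ c * (K * N) →
      ∀ Good : (Fin (K * N) → Fin K) → Finset (Pr (K * N)) → Prop,
      (∀ σ ∈ Bal K N, U M (univ \ mono σ) {S | ¬ Good σ S} ≤ 1 / 2) →
      1 / (C * ((K * N + 1 : ℕ) : ℝ) ^ (K ^ 2 + K)) ≤
        U M univ {S | ∃ σ ∈ Bal K N, Disjoint S (mono σ) ∧ Good σ S} := by
  set C0 : ℝ := Real.exp (8 * c * (c / ((K : ℝ) - 1) ^ 2) * (K : ℝ) ^ 2 / ((K : ℝ) - 1)) with hC0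
  refine ⟨4 * C0, by positivity, ⌈8 * c⌉₊ + 1, fun N hN M hM Good hGood => ?_⟩
  have hN0 : 0 < N := by omega
  have hKr : (8 : ℝ) ≤ K := by exact_mod_cast hK
  have hNc : 8 * c ≤ ((K : ℝ) - 1) * N := by
    have h1 : 8 * c ≤ (⌈8 * c⌉₊ : ℝ) := Nat.le_ceil _
    have h2 : (⌈8 * c⌉₊ : ℝ) + 1 ≤ N := by exact_mod_cast hN
    have h3 : (0 : ℝ) ≤ N := by positivity
    nlinarith
  have hsm := second_moment_aux K (by omega) c hc0 hc N hN0 hNc M hM
  rw [← hC0] at hsm
  set E := Fintype.card (Pr (K * N)) with hE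
  set Ω := powersetCard M (univ : Finset (Pr (K * N))) with hΩ
  -- positivity of the binomial coefficients
  have hNr : (0 : ℝ) < N := by exact_mod_cast hN0
  have hMA : M + K * N.choose 2 ≤ E := by
    have h1 : (M : ℝ) + ((K * N.choose 2 : ℕ) : ℝ) ≤ E := by
      rw [hE, card_Pr_real]
      push_cast
      rw [Nat.cast_choose_two]
      have h2 : c * (K * N) ≤ K * (K - 1) * (N : ℝ) ^ 2 / 8 := by
        have h1 : 8 * c * (K * N) ≤ ((K : ℝ) - 1) * N * (K * N) :=
          mul_le_mul_of_nonneg_right hNc (by positivity)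
        nlinarith
      have h3 : (0 : ℝ) ≤ K * (K - 1) * (N : ℝ) ^ 2 := by
        have : (0 : ℝ) ≤ K - 1 := by linarith
        positivity
      nlinarith
    exact_mod_cast h1
  have hF : 0 < (E - K * N.choose 2).choose M := Nat.choose_pos (by omega)
  have hEM : 0 < E.choose M := Nat.choose_pos (by omega)
  have hB : 0 < (Bal K N).card := Finset.card_pos.mpr (Bal_nonempty (by omega) hN0)
  set Xg : Finset (Pr (K * N)) → ℝ := fun S =>
    (((Bal K N).filter fun σ => Disjoint S (mono σ) ∧ Good σ S).card : ℝ) with hXg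
  have hXg0 : ∀ S, 0 ≤ Xg S := fun S => by rw [hXg]; positivity
  have hXgX : ∀ S, Xg S ≤ X K N S := by
    intro S
    simp only [hXg]
    unfold X
    have : ((Bal K N).filter fun σ => Disjoint S (mono σ) ∧ Good σ S) ⊆
        (Bal K N).filter fun σ => Disjoint S (mono σ) := by
      intro σ hσ
      simp only [Finset.mem_filter] at hσ ⊢
      exact ⟨hσ.1, hσ.2.1⟩
    exact_mod_cast Finset.card_le_card this
  -- first moment of Xg
  have hfirst : (1 / 2) * ∑ S ∈ Ω, X K N S ≤ ∑ S ∈ Ω, Xg S := by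
    rw [hΩ, sum_X]
    have h1 : ∀ S : Finset (Pr (K * N)), Xg S =
        ∑ σ ∈ Bal K N, if Disjoint S (mono σ) ∧ Good σ S then (1 : ℝ) else 0 := by
      intro S
      rw [hXg, Finset.sum_boole]
    simp only [h1]
    rw [Finset.sum_comm]
    have h2 : ∀ σ ∈ Bal K N, (1 / 2) * ((E - K * N.choose 2).choose M : ℝ) ≤
        ∑ S ∈ powersetCard M (univ : Finset (Pr (K * N))),
          (if Disjoint S (mono σ) ∧ Good σ S then (1 : ℝ) else 0) := by
      intro σ hσ
      have h3 := hGood σ hσ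
      rw [U_eq_filter] at h3
      have h4 : (univ \ mono σ : Finset (Pr (K * N))).card = E - K * N.choose 2 := by
        rw [Finset.card_sdiff_of_subset (Finset.subset_univ _), Finset.card_univ,
          card_mono_Bal hσ]
      rw [h4, div_le_iff₀ (by exact_mod_cast hF)] at h3
      rw [Finset.sum_boole]
      -- the good sets inside `univ \ mono σ`
      have h5 : ((powersetCard M (univ \ mono σ)).filter (fun S => ¬ Good σ S)).card +
          ((powersetCard M (univ : Finset (Pr (K * N)))).filter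
            fun S => Disjoint S (mono σ) ∧ Good σ S).card = (E - K * N.choose 2).choose M := by
        rw [← h4, ← Finset.card_powersetCard]
        rw [← Finset.card_filter_add_card_filter_not (s := powersetCard M (univ \ mono σ))
          (fun S => ¬ Good σ S)]
        congr 2
        ext S
        simp only [Finset.mem_filter, Finset.mem_powersetCard, Finset.subset_univ, true_and,
          not_not]
        have h6 : S ⊆ univ \ mono σ ↔ Disjoint S (mono σ) := by
          rw [Finset.disjoint_left]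
          constructor
          · intro h x hx hxT
            have := h hx
            simp only [Finset.mem_sdiff, Finset.mem_univ, true_and] at this
            exact this hxT
          · intro h x hx
            simp only [Finset.mem_sdiff, Finset.mem_univ, true_and]
            exact h hx
        rw [h6]
        tauto
      have h7 : (((powersetCard M (univ \ mono σ)).filter (fun S => ¬ Good σ S)).card : ℝ) +
          (((powersetCard M (univ : Finset (Pr (K * N)))).filter
            fun S => Disjoint S (mono σ) ∧ Good σ S).card : ℝ) =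
            ((E - K * N.choose 2).choose M : ℝ) := by exact_mod_cast h5
      linarith
    have h8 := Finset.sum_le_sum h2
    rw [Finset.sum_const, nsmul_eq_mul] at h8
    linarith
  -- Cauchy-Schwarz
  rw [U_eq_filter]
  let G : Finset (Pr (K * N)) → Prop := fun S => ∃ σ ∈ Bal K N, Disjoint S (mono σ) ∧ Good σ S
  have hcs : (∑ S ∈ Ω, Xg S) ^ 2 ≤
      ((Ω.filter (fun S => ∃ σ ∈ Bal K N, Disjoint S (mono σ) ∧ Good σ S)).card : ℝ) *
        ∑ S ∈ Ω, X K N S ^ 2 := by
    have h1 : ∑ S ∈ Ω, Xg S = ∑ S ∈ Ω, (if G S then (1 : ℝ) else 0) * Xg S := by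
      refine Finset.sum_congr rfl fun S _ => ?_
      by_cases hS : G S
      · rw [if_pos hS, one_mul]
      · rw [if_neg hS, zero_mul]
        simp only [hXg, Nat.cast_eq_zero, Finset.card_eq_zero]
        rw [Finset.filter_eq_empty_iff]
        intro σ hσ hcon
        exact hS ⟨σ, hσ, hcon⟩
    rw [h1]
    refine (Finset.sum_mul_sq_le_sq_mul_sq Ω _ _).trans ?_
    apply mul_le_mul
    · apply le_of_eq
      rw [← Finset.sum_boole]
      refine Finset.sum_congr rfl fun S _ => ?_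
      by_cases hS : G S
      · rw [if_pos hS, one_pow]
      · rw [if_neg hS]
        norm_num
    · exact Finset.sum_le_sum fun S _ => pow_le_pow_left₀ (hXg0 S) (hXgX S) 2
    · exact Finset.sum_nonneg fun S _ => sq_nonneg _
    · positivity
  rw [Finset.card_univ, ← hE, ← hΩ]
  have hX0 : 0 < ∑ S ∈ Ω, X K N S := by
    rw [hΩ, sum_X]
    have : (0 : ℝ) < (E - K * N.choose 2).choose M := by exact_mod_cast hF
    have : (0 : ℝ) < (Bal K N).card := by exact_mod_cast hB
    positivity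
  set S1 : ℝ := ∑ S ∈ Ω, X K N S with hS1
  set S2 : ℝ := ∑ S ∈ Ω, X K N S ^ 2 with hS2
  set Sg : ℝ := ∑ S ∈ Ω, Xg S with hSg
  set g : ℝ := ((Ω.filter (fun S => ∃ σ ∈ Bal K N, Disjoint S (mono σ) ∧ Good σ S)).card : ℝ)
    with hg
  set e : ℝ := (E.choose M : ℝ) with he
  set L : ℝ := ((K * N + 1 : ℕ) : ℝ) ^ (K ^ 2 + K) with hL
  have he0 : 0 < e := by rw [he]; exact_mod_cast hEM
  have hL0 : 0 < L := by rw [hL]; positivity
  have hC00 : 0 < C0 := Real.exp_pos _
  have hg0 : 0 ≤ g := by rw [hg]; positivity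
  have h20 : (S1 / 2) ^ 2 ≤ g * S2 := by
    refine le_trans ?_ hcs
    apply pow_le_pow_left₀ (by positivity)
    linarith
  -- S2 * e ≤ C0 * L * S1^2
  rw [div_le_div_iff₀ (by positivity) he0]
  have h21 : (S1 / 2) ^ 2 * e ≤ g * (C0 * L * S1 ^ 2) := by
    calc (S1 / 2) ^ 2 * e ≤ g * S2 * e := mul_le_mul_of_nonneg_right h20 he0.le
      _ = g * (S2 * e) := by ring
      _ ≤ _ := mul_le_mul_of_nonneg_left hsm hg0
  have h22 : 0 < S1 ^ 2 := by positivity
  have h23 : (e / 4) * S1 ^ 2 ≤ (g * C0 * L) * S1 ^ 2 := by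
    calc (e / 4) * S1 ^ 2 = (S1 / 2) ^ 2 * e := by ring
      _ ≤ g * (C0 * L * S1 ^ 2) := h21
      _ = _ := by ring
  have h24 := le_of_mul_le_mul_right h23 h22
  linarith


end Pool.Agent.H982R2.BL
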