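import Pool.Agent.H982R2.BLBase

set_option autoImplicit false

namespace Pool.Agent.H982R2.BL

open Finset Classical

namespace SmallSets

/-- union bound -/
lemma P_le_sum {α ι : Type*} (p : ℝ) (hp0 : 0 ≤ p) (hp1 : p ≤ 1) (E : Finset α)
    (A : Set (Finset α)) (I : Finset ι) (B : ι → Set (Finset α))
    (h : ∀ G ∈ E.powerset, G ∈ A → ∃ i ∈ I, G ∈ B i) :
    P p E A ≤ ∑ i ∈ I, P p E (B i) := by
  unfold P
  simp_rw [Finset.sum_filter]
  rw [Finset.sum_comm]
  refine Finset.sum_le_sum fun G hG => ?_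
  have hw : 0 ≤ p ^ G.card * (1 - p) ^ (E.card - G.card) := by
    have : 0 ≤ 1 - p := by linarith
    positivity
  have hn : ∀ j ∈ I, 0 ≤ (if G ∈ B j then p ^ G.card * (1 - p) ^ (E.card - G.card) else 0) := by
    intro j _
    split_ifs
    · exact hw
    · exact le_rfl
  by_cases hA : G ∈ A
  · rw [if_pos hA]
    obtain ⟨i, hi, hB⟩ := h G hG hA
    have := Finset.single_le_sum (f := fun j => if G ∈ B j then
      p ^ G.card * (1 - p) ^ (E.card - G.card) else 0) hn hi
    simp only [if_pos hB] at this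
    exact this
  · rw [if_neg hA]
    exact Finset.sum_nonneg hn

lemma P_superset {α : Type*} (p : ℝ) (E T : Finset α) (hT : T ⊆ E) :
    P p E {G | T ⊆ G} = p ^ T.card := by
  unfold P
  trans ∑ G ∈ (E \ T).powerset,
        p ^ T.card * (p ^ G.card * (1 - p) ^ ((E \ T).card - G.card))
  · refine Finset.sum_bij' (fun G _ => G \ T) (fun G _ => T ∪ G) ?_ ?_ ?_ ?_ ?_
    · intro G hG
      simp only [Finset.mem_filter, Finset.mem_powerset, Set.mem_ofPred_eq] at hG
      rw [Finset.mem_powerset]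
      exact Finset.sdiff_subset_sdiff hG.1 subset_rfl
    · intro G hG
      rw [Finset.mem_powerset] at hG
      simp only [Finset.mem_filter, Finset.mem_powerset, Set.mem_ofPred_eq]
      exact ⟨Finset.union_subset hT (hG.trans Finset.sdiff_subset), Finset.subset_union_left⟩
    · intro G hG
      simp only [Finset.mem_filter, Finset.mem_powerset, Set.mem_ofPred_eq] at hG
      exact Finset.union_sdiff_of_subset hG.2
    · intro G hG
      rw [Finset.mem_powerset] at hG
      have hd : Disjoint T G := Finset.disjoint_of_subset_right hG Finset.disjoint_sdiff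
      exact Finset.union_sdiff_cancel_left hd
    · intro G hG
      simp only [Finset.mem_filter, Finset.mem_powerset, Set.mem_ofPred_eq] at hG
      have h1 : (G \ T).card = G.card - T.card := Finset.card_sdiff_of_subset hG.2
      have h2 : (E \ T).card = E.card - T.card := Finset.card_sdiff_of_subset hT
      have h3 : T.card ≤ G.card := Finset.card_le_card hG.2
      have h4 : G.card ≤ E.card := Finset.card_le_card hG.1
      rw [h1, h2, ← mul_assoc, ← pow_add]
      congr 2
      · omega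
      · omega
  · rw [← Finset.mul_sum, Finset.sum_pow_mul_eq_add_pow]
    simp

lemma colour_of_no_core {V : Type*} (G : SimpleGraph V) (R : Finset V)
    (h : ∀ R' ⊆ R, R'.Nonempty → ∃ v ∈ R', (R'.filter (fun w => G.Adj v w)).card ≤ 2) :
    ∃ f : V → Fin 3, ∀ v ∈ R, ∀ w ∈ R, G.Adj v w → f v ≠ f w := by
  induction R using Finset.strongInduction with
  | H R ih =>
    by_cases hR : R.Nonempty
    · obtain ⟨v, hv, hd⟩ := h R subset_rfl hR
      obtain ⟨f, hf⟩ := ih (R.erase v) (Finset.erase_ssubset hv)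
        (fun R' hR' hne => h R' (hR'.trans (Finset.erase_subset _ _)) hne)
      have hcard : ((R.filter (fun w => G.Adj v w)).image f).card
          < (univ : Finset (Fin 3)).card := by
        refine (Finset.card_image_le).trans_lt ?_
        rw [Finset.card_univ, Fintype.card_fin]
        omega
      obtain ⟨c, -, hc⟩ := Finset.exists_mem_notMem_of_card_lt_card hcard
      refine ⟨Function.update f v c, ?_⟩
      intro a ha b hb hab
      by_cases hav : a = v
      · subst hav
        have hba : b ≠ a := hab.ne'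
        rw [Function.update_self, Function.update_of_ne hba]
        intro h
        apply hc
        rw [Finset.mem_image]
        exact ⟨b, by simp [hb, hab], h.symm⟩
      · by_cases hbv : b = v
        · subst hbv
          rw [Function.update_self, Function.update_of_ne hav]
          intro h
          apply hc
          rw [Finset.mem_image]
          exact ⟨a, by simp [ha, hab.symm], h⟩
        · rw [Function.update_of_ne hav, Function.update_of_ne hbv]
          exact hf a (by simp [ha, hav]) b (by simp [hb, hbv]) hab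
    · rw [Finset.not_nonempty_iff_eq_empty] at hR
      subst hR
      exact ⟨fun _ => 0, by simp⟩

lemma exists_core {V : Type*} (G : SimpleGraph V) (R : Finset V)
    (h : ¬ (G.induce (R : Set V)).Colorable 3) :
    ∃ R' ⊆ R, R'.Nonempty ∧ ∀ v ∈ R', 3 ≤ (R'.filter (fun w => G.Adj v w)).card := by
  by_contra hcon
  push Not at hcon
  apply h
  obtain ⟨f, hf⟩ := colour_of_no_core G R (by
    intro R' hR' hne
    obtain ⟨v, hv, hlt⟩ := hcon R' hR' hne
    exact ⟨v, hv, by omega⟩)
  refine ⟨SimpleGraph.Coloring.mk (fun v => f v.1) ?_⟩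
  intro a b hab
  exact hf a.1 a.2 b.1 b.2 hab

/-- pairs inside a vertex set -/
noncomputable def ins {n : ℕ} (R : Finset (Fin n)) : Finset (Pr n) :=
  univ.filter fun e => ∀ v ∈ e.1, v ∈ R

lemma card_ins_le {n : ℕ} (R : Finset (Fin n)) : (ins R).card ≤ R.card.choose 2 := by
  rw [← Sym2.card_image_offDiag, ← Finset.card_image_of_injective (ins R) Subtype.val_injective]
  refine Finset.card_le_card ?_
  intro e he
  rw [Finset.mem_image] at he
  obtain ⟨⟨e', he'⟩, hmem, rfl⟩ := he
  simp only [ins, Finset.mem_filter, Finset.mem_univ, true_and] at hmem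
  induction e' using Sym2.ind with
  | _ a b =>
    rw [Finset.mem_image]
    refine ⟨(a, b), ?_, rfl⟩
    rw [Finset.mem_offDiag]
    refine ⟨hmem a (by simp), hmem b (by simp), ?_⟩
    intro hab
    exact he' (by simpa using hab)

lemma core_edges {n : ℕ} (S : Finset (Pr n)) (R : Finset (Fin n))
    (h : ∀ v ∈ R, 3 ≤ (R.filter (fun w => (gr S).Adj v w)).card) :
    3 * R.card ≤ 2 * (S ∩ ins R).card := by
  have h1 : ∀ v ∈ R, 3 ≤ ((S ∩ ins R).filter (fun e => v ∈ e.1)).card := by
    intro v hv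
    refine (h v hv).trans ?_
    rw [← Finset.card_image_of_injective ((S ∩ ins R).filter (fun e => v ∈ e.1))
      Subtype.val_injective]
    refine Finset.card_le_card_of_injOn (fun w => s(v, w)) ?_ ?_
    · intro w hw
      simp only [Finset.coe_filter, Set.mem_ofPred_eq] at hw
      obtain ⟨hwR, hadj⟩ := hw
      rw [gr, SimpleGraph.fromEdgeSet_adj] at hadj
      obtain ⟨⟨hd, hS⟩, hne⟩ := hadj
      rw [Finset.mem_coe, Finset.mem_image]
      refine ⟨⟨s(v, w), hd⟩, ?_, rfl⟩
      rw [Finset.mem_filter, Finset.mem_inter]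
      refine ⟨⟨hS, ?_⟩, by simp⟩
      simp only [ins, Finset.mem_filter, Finset.mem_univ, true_and]
      intro x hx
      rw [Sym2.mem_iff] at hx
      rcases hx with rfl | rfl
      · exact hv
      · exact hwR
    · intro a _ b _ hab
      exact Sym2.congr_right.mp hab
  have h2 : ∑ v ∈ R, ((S ∩ ins R).filter (fun e => v ∈ e.1)).card
      = ∑ e ∈ (S ∩ ins R), (R.filter (fun v => v ∈ e.1)).card :=
    Finset.sum_card_bipartiteAbove_eq_sum_card_bipartiteBelow (fun v (e : Pr n) => v ∈ e.1)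
  have h3 : ∀ e ∈ (S ∩ ins R), (R.filter (fun v => v ∈ e.1)).card ≤ 2 := by
    intro e _
    rw [← Sym2.card_toFinset_of_not_isDiag e.1 e.2]
    refine Finset.card_le_card ?_
    intro v hv
    rw [Finset.mem_filter] at hv
    rw [Sym2.mem_toFinset]
    exact hv.2
  calc 3 * R.card = ∑ v ∈ R, 3 := by rw [Finset.sum_const, smul_eq_mul, mul_comm]
    _ ≤ ∑ v ∈ R, ((S ∩ ins R).filter (fun e => v ∈ e.1)).card := Finset.sum_le_sum h1
    _ = ∑ e ∈ (S ∩ ins R), (R.filter (fun v => v ∈ e.1)).card := h2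
    _ ≤ ∑ e ∈ (S ∩ ins R), 2 := Finset.sum_le_sum h3
    _ = 2 * (S ∩ ins R).card := by rw [Finset.sum_const, smul_eq_mul, mul_comm]

/-- `C(N, k) ≤ (e N / k)^k` -/
lemma choose_le_exp (N k : ℕ) (hk : 0 < k) :
    (N.choose k : ℝ) ≤ (Real.exp 1 * N / k) ^ k := by
  have h1 : (N.choose k : ℝ) ≤ (N : ℝ) ^ k / (k.factorial : ℝ) := Nat.choose_le_pow_div k N
  have h2 : (k : ℝ) ^ k / (k.factorial : ℝ) ≤ Real.exp k :=
    Real.pow_div_factorial_le_exp _ (Nat.cast_nonneg k) k
  have hk' : (0 : ℝ) < k := by exact_mod_cast hk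
  have hf : (0 : ℝ) < (k.factorial : ℝ) := by exact_mod_cast k.factorial_pos
  have h3 : 1 / (k.factorial : ℝ) ≤ Real.exp 1 ^ k / (k : ℝ) ^ k := by
    rw [div_le_div_iff₀ hf (by positivity), one_mul]
    rw [div_le_iff₀ hf] at h2
    rw [← Real.exp_nat_mul, mul_one]
    exact h2
  calc (N.choose k : ℝ) ≤ (N : ℝ) ^ k / (k.factorial : ℝ) := h1
    _ = (N : ℝ) ^ k * (1 / (k.factorial : ℝ)) := by ring
    _ ≤ (N : ℝ) ^ k * (Real.exp 1 ^ k / (k : ℝ) ^ k) := by gcongr
    _ = (Real.exp 1 * N / k) ^ k := by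
      rw [div_pow, mul_pow]; ring

lemma term_bound (c : ℝ) (hc : 0 < c) (n r t M : ℕ) (hr : 1 ≤ r) (ht : 3 * r ≤ 2 * t)
    (hM : M ≤ r.choose 2) (p : ℝ) (hp0 : 0 ≤ p) (hn : 0 < n) (hp : p ≤ c / n)
    (hy : Real.exp 1 * c * r / (3 * n) ≤ 1) (q : ℝ) (hq0 : 0 ≤ q)
    (hq : Real.exp 1 ^ 5 * c ^ 3 / 27 * (r / n) ≤ q ^ 2) :
    (n.choose r : ℝ) * ((M.choose t : ℝ) * p ^ t) ≤ q ^ r := by
  have hr' : (0 : ℝ) < r := by exact_mod_cast hr
  have hn' : (0 : ℝ) < n := by exact_mod_cast hn
  have ht0 : 0 < t := by omega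
  have ht' : (0 : ℝ) < t := by exact_mod_cast ht0
  have hr2 : (1 : ℝ) ≤ r := by exact_mod_cast hr
  have he : 0 < Real.exp 1 := Real.exp_pos 1
  set y : ℝ := Real.exp 1 * c * r / (3 * n) with hydef
  have hy0 : 0 ≤ y := by positivity
  have hMr : (M : ℝ) ≤ (r : ℝ) ^ 2 / 2 := by
    have h1 : (M : ℝ) ≤ (r.choose 2 : ℝ) := by exact_mod_cast hM
    have h2 : (r.choose 2 : ℝ) = r * (r - 1) / 2 := Nat.cast_choose_two ℝ r
    nlinarith
  have h1 : (n.choose r : ℝ) ≤ (Real.exp 1 * n / r) ^ r := choose_le_exp n r hr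
  have h2 : (M.choose t : ℝ) ≤ (Real.exp 1 * r / 3) ^ t := by
    refine (choose_le_exp M t ht0).trans ?_
    have : Real.exp 1 * M / t ≤ Real.exp 1 * r / 3 := by
      rw [div_le_div_iff₀ ht' (by norm_num)]
      have htr : (3 : ℝ) * r ≤ 2 * t := by exact_mod_cast ht
      have : (M : ℝ) * 3 ≤ r * t := by nlinarith
      calc Real.exp 1 * M * 3 = Real.exp 1 * (M * 3) := by ring
        _ ≤ Real.exp 1 * (r * t) := by gcongr
        _ = Real.exp 1 * r * t := by ring
    gcongr
  have h3 : (M.choose t : ℝ) * p ^ t ≤ y ^ t := by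
    calc (M.choose t : ℝ) * p ^ t ≤ (Real.exp 1 * r / 3) ^ t * (c / n) ^ t := by gcongr
      _ = y ^ t := by
        rw [← mul_pow, hydef]
        congr 1
        field_simp
  have h4 : (n.choose r : ℝ) * ((M.choose t : ℝ) * p ^ t) ≤ (Real.exp 1 * n / r) ^ r * y ^ t := by
    gcongr
  refine h4.trans ?_
  have hsq : ((Real.exp 1 * n / r) ^ r * y ^ t) ^ 2 ≤ (q ^ r) ^ 2 := by
    have hyt : y ^ (t * 2) ≤ y ^ (3 * r) := pow_le_pow_of_le_one hy0 hy (by omega)
    calc ((Real.exp 1 * n / r) ^ r * y ^ t) ^ 2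
        = (Real.exp 1 * n / r) ^ (r * 2) * y ^ (t * 2) := by
          rw [mul_pow, ← pow_mul, ← pow_mul]
      _ ≤ (Real.exp 1 * n / r) ^ (r * 2) * y ^ (3 * r) := by gcongr
      _ = ((Real.exp 1 * n / r) ^ 2 * y ^ 3) ^ r := by
          rw [mul_pow, ← pow_mul, ← pow_mul, mul_comm r 2]
      _ = (Real.exp 1 ^ 5 * c ^ 3 / 27 * (r / n)) ^ r := by
          congr 1
          rw [hydef]
          field_simp
          norm_num
      _ ≤ (q ^ 2) ^ r := by gcongr
      _ = (q ^ r) ^ 2 := by rw [← pow_mul, ← pow_mul, mul_comm]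
  exact (pow_le_pow_iff_left₀ (by positivity) (by positivity) (by norm_num)).mp hsq

end SmallSets

open SmallSets

theorem small_sets (c : ℝ) (hc : 0 < c) (δ : ℝ) (hδ : 0 < δ) :
    ∃ η : ℝ, 0 < η ∧ ∃ n₀ : ℕ, ∀ n : ℕ, n₀ ≤ n → ∀ p : ℝ, 0 ≤ p → p ≤ c / n →
      P p univ {S : Finset (Pr n) | ∃ R : Finset (Fin n), (R.card : ℝ) ≤ η * n ∧
        ¬ ((gr S).induce (R : Set (Fin n))).Colorable 3} ≤ δ := by
  set q : ℝ := min (1 / 2) (δ / 2) with hqdef
  have hq0 : 0 < q := lt_min (by norm_num) (by linarith)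
  have hq1 : q ≤ 1 / 2 := min_le_left _ _
  have hq2 : q ≤ δ / 2 := min_le_right _ _
  have he : 0 < Real.exp 1 := Real.exp_pos 1
  set C : ℝ := Real.exp 1 ^ 5 * c ^ 3 / 27 with hC
  have hC0 : 0 < C := by positivity
  refine ⟨min (q ^ 2 / C) (3 / (Real.exp 1 * c)), lt_min (by positivity) (by positivity),
    ⌈c⌉₊ + 1, ?_⟩
  intro n hn p hp0 hpc
  set η : ℝ := min (q ^ 2 / C) (3 / (Real.exp 1 * c)) with hη
  have hη1 : η ≤ q ^ 2 / C := min_le_left _ _
  have hη2 : η ≤ 3 / (Real.exp 1 * c) := min_le_right _ _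
  have hn0 : 0 < n := by omega
  have hn' : (0 : ℝ) < n := by exact_mod_cast hn0
  have hcn : c ≤ n := by
    have h1 : c ≤ ⌈c⌉₊ := Nat.le_ceil c
    have h2 : (⌈c⌉₊ : ℝ) ≤ n := by exact_mod_cast (by omega : ⌈c⌉₊ ≤ n)
    linarith
  have hp1 : p ≤ 1 := hpc.trans (by rw [div_le_one hn']; exact hcn)
  let tt : ℕ → ℕ := fun r => (3 * r + 1) / 2
  let J : Finset (Finset (Fin n)) :=
    univ.filter fun R => 1 ≤ R.card ∧ (R.card : ℝ) ≤ η * n
  let I : Finset (Σ _ : Finset (Fin n), Finset (Pr n)) :=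
    J.sigma fun R => powersetCard (tt R.card) (ins R)
  have hunion : P p univ {S : Finset (Pr n) | ∃ R : Finset (Fin n), (R.card : ℝ) ≤ η * n ∧
        ¬ ((gr S).induce (R : Set (Fin n))).Colorable 3}
      ≤ ∑ i ∈ I, P p univ {G | i.2 ⊆ G} := by
    refine P_le_sum p hp0 hp1 univ _ I (fun i => {G | i.2 ⊆ G}) ?_
    intro S _ hS
    obtain ⟨R, hRc, hR⟩ := hS
    obtain ⟨R', hR', hne, hcore⟩ := exists_core (gr S) R hR
    have hedges := core_edges S R' hcore
    obtain ⟨T, hTsub, hTcard⟩ := Finset.exists_subset_card_eq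
      (s := S ∩ ins R') (n := tt R'.card) (by simp only [tt]; omega)
    refine ⟨⟨R', T⟩, ?_, ?_⟩
    · rw [Finset.mem_sigma]
      constructor
      · simp only [J, Finset.mem_filter, Finset.mem_univ, true_and]
        refine ⟨hne.card_pos, le_trans ?_ hRc⟩
        exact_mod_cast Finset.card_le_card hR'
      · rw [Finset.mem_powersetCard]
        exact ⟨hTsub.trans Finset.inter_subset_right, hTcard⟩
    · exact hTsub.trans Finset.inter_subset_left
  refine hunion.trans ?_
  have hsum1 : ∑ i ∈ I, P p univ {G | i.2 ⊆ G}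
      = ∑ R ∈ J, (((ins R).card.choose (tt R.card) : ℝ) * p ^ (tt R.card)) := by
    rw [Finset.sum_sigma]
    refine Finset.sum_congr rfl fun R _ => ?_
    have : ∀ T ∈ powersetCard (tt R.card) (ins R), P p univ {G | T ⊆ G} = p ^ (tt R.card) := by
      intro T hT
      rw [P_superset p univ T (Finset.subset_univ _), (Finset.mem_powersetCard.mp hT).2]
    rw [Finset.sum_congr rfl this, Finset.sum_const, Finset.card_powersetCard, nsmul_eq_mul]
  rw [hsum1]
  let f : ℕ → ℝ := fun r => if 1 ≤ r then q ^ r / (n.choose r : ℝ) else 0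
  have hbound : ∑ R ∈ J, (((ins R).card.choose (tt R.card) : ℝ) * p ^ (tt R.card))
      ≤ ∑ R ∈ (univ : Finset (Fin n)).powerset, f R.card := by
    have hf0 : ∀ r, 0 ≤ f r := by
      intro r
      simp only [f]
      split_ifs
      · positivity
      · exact le_rfl
    refine le_trans (Finset.sum_le_sum (g := fun R => f R.card) ?_)
      (Finset.sum_le_sum_of_subset_of_nonneg ?_ (fun R _ _ => hf0 _))
    · intro R hR
      simp only [J, Finset.mem_filter, Finset.mem_univ, true_and] at hR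
      obtain ⟨hR1, hR2⟩ := hR
      have hch : (0 : ℝ) < (n.choose R.card : ℝ) := by
        have : R.card ≤ n := by simpa using Finset.card_le_univ R
        exact_mod_cast Nat.choose_pos this
      simp only [f, if_pos hR1]
      rw [le_div_iff₀ hch, mul_comm]
      refine term_bound c hc n R.card (tt R.card) _ hR1 (by simp only [tt]; omega)
        (card_ins_le R) p hp0 hn0 hpc ?_ q hq0.le ?_
      · rw [div_le_one (by positivity)]
        calc Real.exp 1 * c * R.card ≤ Real.exp 1 * c * (η * n) := by gcongr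
          _ ≤ Real.exp 1 * c * (3 / (Real.exp 1 * c) * n) := by gcongr
          _ = 3 * n := by field_simp
      · calc C * (R.card / n) ≤ C * η := by
              gcongr
              rw [div_le_iff₀ hn']
              exact hR2
          _ ≤ C * (q ^ 2 / C) := by gcongr
          _ = q ^ 2 := by field_simp
    · intro R _
      exact Finset.mem_powerset.mpr (Finset.subset_univ _)
  refine hbound.trans ?_
  rw [Finset.sum_powerset_apply_card f]
  have hlast : ∑ m ∈ range ((univ : Finset (Fin n)).card + 1),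
      ((univ : Finset (Fin n)).card.choose m) • f m ≤ ∑ m ∈ range (n + 1),
        (if 1 ≤ m then q ^ m else 0) := by
    rw [Finset.card_univ, Fintype.card_fin]
    refine Finset.sum_le_sum fun m hm => ?_
    simp only [f]
    split_ifs with h1
    · have hch : (0 : ℝ) < (n.choose m : ℝ) := by
        exact_mod_cast Nat.choose_pos (by simpa [Nat.lt_succ_iff] using hm)
      rw [nsmul_eq_mul]
      field_simp
      exact le_rfl
    · simp
  refine hlast.trans ?_
  rw [Finset.sum_range_succ']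
  rw [if_neg (by norm_num : ¬ 1 ≤ 0), add_zero]
  simp only [le_add_iff_nonneg_left, Nat.zero_le, if_true, pow_succ]
  rw [← Finset.sum_mul]
  have hgeo : ∑ i ∈ range n, q ^ i ≤ 2 := by
    have h1 : ∑ i ∈ range n, q ^ i ≤ ∑ i ∈ range n, (1 / 2 : ℝ) ^ i :=
      Finset.sum_le_sum fun i _ => by gcongr
    have h2 : ∑ i ∈ range n, (1 / 2 : ℝ) ^ i ≤ 2 := sum_geometric_two_le n
    linarith
  have : (∑ i ∈ range n, q ^ i) * q ≤ 2 * q := by gcongr
  linarith

end Pool.Agent.H982R2.BL
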