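import Mathlib
import Pool.Agent.H982R2.BLBase

/-!
# Transfer lemmas between `P`, `U` and random permutations
-/

set_option autoImplicit false

namespace Pool.Agent.H982R2.BL

open Finset Classical

/-- the binomial point masses -/
noncomputable def bpm (p : ℝ) (n m : ℕ) : ℝ := (n.choose m : ℝ) * p ^ m * (1 - p) ^ (n - m)

theorem bpm_nonneg {p : ℝ} (hp0 : 0 ≤ p) (hp1 : p ≤ 1) (n m : ℕ) : 0 ≤ bpm p n m := by
  unfold bpm
  have : 0 ≤ 1 - p := by linarith
  positivity

theorem bpm_sum (p : ℝ) (n : ℕ) : ∑ m ∈ range (n + 1), bpm p n m = 1 := by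
  have h := add_pow p (1 - p) n
  have h1 : p + (1 - p) = 1 := by ring
  rw [h1, one_pow] at h
  rw [h]
  apply sum_congr rfl
  intro m _
  unfold bpm
  ring

theorem bpm_var (p : ℝ) (n : ℕ) :
    ∑ m ∈ range (n + 1), bpm p n m * ((m : ℝ) - p * n) ^ 2 = n * p * (1 - p) := by
  have h := congrArg (Polynomial.eval p) (bernsteinPolynomial.variance ℝ n)
  simp only [Polynomial.eval_finsetSum, Polynomial.eval_mul, Polynomial.eval_pow,
    Polynomial.eval_sub, Polynomial.eval_X, bernsteinPolynomial, Polynomial.eval_natCast,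
    nsmul_eq_mul, Polynomial.eval_one] at h
  rw [← h]
  apply sum_congr rfl
  intro m _
  unfold bpm
  ring

theorem U_nonneg {α : Type*} (M : ℕ) (E : Finset α) (A : Set (Finset α)) : 0 ≤ U M E A := by
  unfold U
  positivity

theorem U_le_one {α : Type*} (M : ℕ) (E : Finset α) (A : Set (Finset α)) : U M E A ≤ 1 := by
  unfold U
  apply div_le_one_of_le₀
  · rw [← card_powersetCard]
    exact_mod_cast card_filter_le _ _
  · positivity

theorem P_eq_sum {α : Type*} (p : ℝ) (E : Finset α) (A : Set (Finset α)) :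
    P p E A = ∑ m ∈ range (E.card + 1), bpm p E.card m * U m E A := by
  unfold P
  rw [sum_filter, sum_powerset]
  apply sum_congr rfl
  intro m hm
  rw [mem_range] at hm
  rw [← sum_filter]
  have hc : (E.card.choose m : ℝ) ≠ 0 := by
    have := Nat.choose_pos (show m ≤ E.card by omega)
    positivity
  have h1 : ∀ G ∈ (powersetCard m E).filter (· ∈ A),
      p ^ G.card * (1 - p) ^ (E.card - G.card) = p ^ m * (1 - p) ^ (E.card - m) := by
    intro G hG
    rw [mem_filter, mem_powersetCard] at hG
    rw [hG.1.2]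
  rw [sum_congr rfl h1, sum_const, nsmul_eq_mul]
  unfold bpm U
  field_simp

theorem mode_up (n M m : ℕ) (hM : M ≤ n) (hm : m + 1 ≤ M) :
    n.choose m * M ^ m * (n - M) ^ (n - m) ≤
      n.choose (m + 1) * M ^ (m + 1) * (n - M) ^ (n - (m + 1)) := by
  have h1 : n - m = (n - (m + 1)) + 1 := by omega
  have h2 := Nat.choose_succ_right_eq n m
  refine le_of_mul_le_mul_right ?_ (Nat.succ_pos m)
  rw [h1, pow_succ (n - M), pow_succ M]
  calc n.choose m * M ^ m * ((n - M) ^ (n - (m + 1)) * (n - M)) * (m + 1)
      = (n.choose m * M ^ m * (n - M) ^ (n - (m + 1))) * ((n - M) * (m + 1)) := by ring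
    _ ≤ (n.choose m * M ^ m * (n - M) ^ (n - (m + 1))) * ((n - m) * M) := by
        apply Nat.mul_le_mul_left
        apply Nat.mul_le_mul
        · omega
        · omega
    _ = (n.choose m * (n - m)) * (M ^ m * M) * (n - M) ^ (n - (m + 1)) := by ring
    _ = n.choose (m + 1) * (m + 1) * (M ^ m * M) * (n - M) ^ (n - (m + 1)) := by rw [h2]
    _ = n.choose (m + 1) * (M ^ m * M) * (n - M) ^ (n - (m + 1)) * (m + 1) := by ring

theorem mode_down (n M m : ℕ) (hM : M ≤ m) (hm : m + 1 ≤ n) :
    n.choose (m + 1) * M ^ (m + 1) * (n - M) ^ (n - (m + 1)) ≤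
      n.choose m * M ^ m * (n - M) ^ (n - m) := by
  have h1 : n - m = (n - (m + 1)) + 1 := by omega
  have h2 := Nat.choose_succ_right_eq n m
  refine le_of_mul_le_mul_right ?_ (Nat.succ_pos m)
  rw [h1, pow_succ (n - M), pow_succ M]
  calc n.choose (m + 1) * (M ^ m * M) * (n - M) ^ (n - (m + 1)) * (m + 1)
      = n.choose (m + 1) * (m + 1) * (M ^ m * M) * (n - M) ^ (n - (m + 1)) := by ring
    _ = (n.choose m * (n - m)) * (M ^ m * M) * (n - M) ^ (n - (m + 1)) := by rw [h2]
    _ = (n.choose m * M ^ m * (n - M) ^ (n - (m + 1))) * ((n - m) * M) := by ring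
    _ ≤ (n.choose m * M ^ m * (n - M) ^ (n - (m + 1))) * ((n - M) * (m + 1)) := by
        apply Nat.mul_le_mul_left
        apply Nat.mul_le_mul
        · omega
        · omega
    _ = n.choose m * M ^ m * ((n - M) ^ (n - (m + 1)) * (n - M)) * (m + 1) := by ring

/-- the mode of the binomial distribution with `p = M / n` -/
theorem mode_aux (n M : ℕ) (hM : M ≤ n) (m : ℕ) (hm : m ≤ n) :
    n.choose m * M ^ m * (n - M) ^ (n - m) ≤ n.choose M * M ^ M * (n - M) ^ (n - M) := by
  rcases le_total m M with h | h
  · have key : ∀ d ≤ M, n.choose (M - d) * M ^ (M - d) * (n - M) ^ (n - (M - d)) ≤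
        n.choose M * M ^ M * (n - M) ^ (n - M) := by
      intro d
      induction d with
      | zero => intro _; simp
      | succ d ih =>
        intro hd
        have h1 := mode_up n M (M - (d + 1)) hM (by omega)
        have h2 : M - (d + 1) + 1 = M - d := by omega
        rw [h2] at h1
        exact h1.trans (ih (by omega))
    have := key (M - m) (by omega)
    rwa [show M - (M - m) = m by omega] at this
  · have key : ∀ d, M + d ≤ n → n.choose (M + d) * M ^ (M + d) * (n - M) ^ (n - (M + d)) ≤
        n.choose M * M ^ M * (n - M) ^ (n - M) := by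
      intro d
      induction d with
      | zero => intro _; simp
      | succ d ih =>
        intro hd
        exact (mode_down n M (M + d) (by omega) (by omega)).trans (ih (by omega))
    have := key (m - M) (by omega)
    rwa [show M + (m - M) = m by omega] at this

theorem bpm_mode (n M : ℕ) (hM : M ≤ n) (m : ℕ) (hm : m ≤ n) :
    bpm ((M : ℝ) / n) n m ≤ bpm ((M : ℝ) / n) n M := by
  rcases Nat.eq_zero_or_pos n with h0 | h0
  · subst h0
    obtain rfl : m = 0 := by omega
    obtain rfl : M = 0 := by omega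
    exact le_rfl
  have hn : (0 : ℝ) < n := by exact_mod_cast h0
  have key : ∀ k ≤ n, bpm ((M : ℝ) / n) n k =
      ((n.choose k * M ^ k * (n - M) ^ (n - k) : ℕ) : ℝ) / (n : ℝ) ^ n := by
    intro k hk
    have h1 : (1 : ℝ) - (M : ℝ) / n = ((n - M : ℕ) : ℝ) / n := by
      rw [Nat.cast_sub hM]
      field_simp
    unfold bpm
    rw [h1, div_pow, div_pow]
    have h2 : (n : ℝ) ^ n = (n : ℝ) ^ k * (n : ℝ) ^ (n - k) := by
      rw [← pow_add]
      congr 1
      omega
    rw [h2]
    push_cast
    rw [Nat.cast_sub hM]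
    field_simp
  rw [key m hm, key M hM]
  apply div_le_div_of_nonneg_right _ (by positivity)
  exact_mod_cast mode_aux n M hM m hm

theorem U_le_P {α : Type*} (E : Finset α) (M : ℕ) (hM : M ≤ E.card) (A : Set (Finset α)) :
    U M E A ≤ (E.card + 1) * P ((M : ℝ) / E.card) E A := by
  set p : ℝ := (M : ℝ) / E.card with hp
  have hp0 : 0 ≤ p := by positivity
  have hp1 : p ≤ 1 := by
    apply div_le_one_of_le₀ (by exact_mod_cast hM) (by positivity)
  have h1 : (1 : ℝ) ≤ (E.card + 1) * bpm p E.card M := by
    calc (1 : ℝ) = ∑ m ∈ range (E.card + 1), bpm p E.card m := (bpm_sum p _).symm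
      _ ≤ ∑ m ∈ range (E.card + 1), bpm p E.card M := by
          apply sum_le_sum
          intro m hm
          rw [mem_range] at hm
          exact bpm_mode E.card M hM m (by omega)
      _ = (E.card + 1) * bpm p E.card M := by
          rw [sum_const, card_range, nsmul_eq_mul]
          push_cast
          ring
  have h2 : bpm p E.card M * U M E A ≤ P p E A := by
    rw [P_eq_sum]
    exact single_le_sum (f := fun m => bpm p E.card m * U m E A)
      (fun m _ => mul_nonneg (bpm_nonneg hp0 hp1 _ _) (U_nonneg _ _ _))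
      (mem_range.2 (by omega))
  calc U M E A = 1 * U M E A := (one_mul _).symm
    _ ≤ ((E.card + 1) * bpm p E.card M) * U M E A :=
        mul_le_mul_of_nonneg_right h1 (U_nonneg _ _ _)
    _ = (E.card + 1) * (bpm p E.card M * U M E A) := by ring
    _ ≤ (E.card + 1) * P p E A := by
        apply mul_le_mul_of_nonneg_left h2
        positivity

/-- Chebyshev: a set of `m` all at distance at least `t` from the mean has small mass -/
theorem tail_le {p : ℝ} (hp0 : 0 ≤ p) (hp1 : p ≤ 1) (n : ℕ) (t : ℝ) (ht : 0 < t)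
    (S : Finset ℕ) (hS : S ⊆ range (n + 1)) (hd : ∀ m ∈ S, t ^ 2 ≤ ((m : ℝ) - p * n) ^ 2) :
    ∑ m ∈ S, bpm p n m ≤ p * n / t ^ 2 := by
  rw [le_div_iff₀ (by positivity), sum_mul]
  calc ∑ m ∈ S, bpm p n m * t ^ 2 ≤ ∑ m ∈ S, bpm p n m * ((m : ℝ) - p * n) ^ 2 := by
        apply sum_le_sum
        intro m hm
        exact mul_le_mul_of_nonneg_left (hd m hm) (bpm_nonneg hp0 hp1 _ _)
    _ ≤ ∑ m ∈ range (n + 1), bpm p n m * ((m : ℝ) - p * n) ^ 2 := by
        apply sum_le_sum_of_subset_of_nonneg hS
        intro m _ _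
        exact mul_nonneg (bpm_nonneg hp0 hp1 _ _) (sq_nonneg _)
    _ = n * p * (1 - p) := bpm_var p n
    _ ≤ p * n := by
        have : 0 ≤ (n : ℝ) * p := by positivity
        nlinarith

theorem exists_U_ge {α : Type*} (E : Finset α) (p : ℝ) (hp0 : 0 ≤ p) (hp1 : p ≤ 1)
    (M₁ : ℕ) (t : ℝ) (ht : 0 < t) (hM : p * E.card + t ≤ M₁) (A : Set (Finset α)) :
    ∃ m ≤ M₁, P p E A - p * E.card / t ^ 2 ≤ U m E A := by
  obtain ⟨m, hm, hmax⟩ := exists_max_image (range (M₁ + 1)) (fun m => U m E A)
    ⟨0, mem_range.2 (by omega)⟩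
  rw [mem_range] at hm
  refine ⟨m, by omega, ?_⟩
  rw [sub_le_iff_le_add, P_eq_sum]
  rw [← sum_filter_add_sum_filter_not (range (E.card + 1)) (fun k => k ≤ M₁)]
  apply add_le_add
  · calc ∑ k ∈ range (E.card + 1) with k ≤ M₁, bpm p E.card k * U k E A
        ≤ ∑ k ∈ range (E.card + 1) with k ≤ M₁, bpm p E.card k * U m E A := by
          apply sum_le_sum
          intro k hk
          rw [mem_filter] at hk
          exact mul_le_mul_of_nonneg_left (hmax k (mem_range.2 (by omega)))
            (bpm_nonneg hp0 hp1 _ _)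
      _ = (∑ k ∈ range (E.card + 1) with k ≤ M₁, bpm p E.card k) * U m E A := by
          rw [sum_mul]
      _ ≤ 1 * U m E A := by
          apply mul_le_mul_of_nonneg_right _ (U_nonneg _ _ _)
          rw [← bpm_sum p E.card]
          apply sum_le_sum_of_subset_of_nonneg (filter_subset _ _)
          intro k _ _
          exact bpm_nonneg hp0 hp1 _ _
      _ = U m E A := one_mul _
  · calc ∑ k ∈ range (E.card + 1) with ¬ k ≤ M₁, bpm p E.card k * U k E A
        ≤ ∑ k ∈ range (E.card + 1) with ¬ k ≤ M₁, bpm p E.card k := by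
          apply sum_le_sum
          intro k _
          exact mul_le_of_le_one_right (bpm_nonneg hp0 hp1 _ _) (U_le_one _ _ _)
      _ ≤ p * E.card / t ^ 2 := by
          apply tail_le hp0 hp1 _ t ht _ (filter_subset _ _)
          intro k hk
          rw [mem_filter, not_le] at hk
          have h1 : (M₁ : ℝ) ≤ k := by exact_mod_cast hk.2.le
          have h2 : t ≤ (k : ℝ) - p * E.card := by linarith
          exact pow_le_pow_left₀ ht.le h2 2

/-- for a lower set the uniform probability decreases with the size (one step) -/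
theorem U_step {α : Type*} (E : Finset α) (A : Set (Finset α))
    (hA : ∀ G H : Finset α, G ⊆ H → H ∈ A → G ∈ A) (m : ℕ) (hm : m + 1 ≤ E.card) :
    U (m + 1) E A ≤ U m E A := by
  have key : ((powersetCard (m + 1) E).filter (· ∈ A)).card * (m + 1) ≤
      ((powersetCard m E).filter (· ∈ A)).card * (E.card - m) := by
    apply card_mul_le_card_mul (fun (T S : Finset α) => S ⊆ T)
    · intro T hT
      rw [mem_filter, mem_powersetCard] at hT
      have h1 : (powersetCard m T).card = m + 1 := by
        rw [card_powersetCard, hT.1.2, Nat.choose_succ_self_right]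
      rw [← h1]
      apply card_le_card
      intro S hS
      rw [mem_powersetCard] at hS
      rw [mem_bipartiteAbove, mem_filter, mem_powersetCard]
      exact ⟨⟨⟨hS.1.trans hT.1.1, hS.2⟩, hA _ _ hS.1 hT.2⟩, hS.1⟩
    · intro S hS
      rw [mem_filter, mem_powersetCard] at hS
      have h1 : (E \ S).card = E.card - m := by
        rw [card_sdiff_of_subset hS.1.1, hS.1.2]
      rw [← h1]
      refine le_trans (card_le_card (t := (E \ S).image fun x => insert x S) ?_)
        card_image_le
      intro T hT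
      rw [mem_bipartiteBelow, mem_filter, mem_powersetCard] at hT
      obtain ⟨⟨⟨hTE, hTc⟩, _⟩, hST⟩ := hT
      have h2 : (T \ S).card = 1 := by
        rw [card_sdiff_of_subset hST, hTc, hS.1.2]
        omega
      obtain ⟨x, hx⟩ := card_eq_one.1 h2
      have hxT : x ∈ T \ S := by rw [hx]; exact mem_singleton_self x
      rw [mem_image]
      refine ⟨x, ?_, ?_⟩
      · rw [mem_sdiff] at hxT ⊢
        exact ⟨hTE hxT.1, hxT.2⟩
      · rw [← sdiff_union_of_subset hST, hx, ← insert_eq]
  have hc : E.card.choose (m + 1) * (m + 1) = E.card.choose m * (E.card - m) :=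
    Nat.choose_succ_right_eq _ _
  have hp1 : 0 < E.card.choose (m + 1) := Nat.choose_pos hm
  have hp2 : 0 < E.card.choose m := Nat.choose_pos (by omega)
  unfold U
  rw [div_le_div_iff₀ (by exact_mod_cast hp1) (by exact_mod_cast hp2)]
  have key2 : ((powersetCard (m + 1) E).filter (· ∈ A)).card * E.card.choose m * (m + 1) ≤
      ((powersetCard m E).filter (· ∈ A)).card * E.card.choose (m + 1) * (m + 1) := by
    calc ((powersetCard (m + 1) E).filter (· ∈ A)).card * E.card.choose m * (m + 1)
        = (((powersetCard (m + 1) E).filter (· ∈ A)).card * (m + 1)) * E.card.choose m := by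
          ring
      _ ≤ (((powersetCard m E).filter (· ∈ A)).card * (E.card - m)) * E.card.choose m :=
          Nat.mul_le_mul_right _ key
      _ = ((powersetCard m E).filter (· ∈ A)).card * (E.card.choose m * (E.card - m)) := by
          ring
      _ = ((powersetCard m E).filter (· ∈ A)).card * (E.card.choose (m + 1) * (m + 1)) := by
          rw [hc]
      _ = _ := by ring
  exact_mod_cast Nat.le_of_mul_le_mul_right key2 (Nat.succ_pos m)

theorem U_anti {α : Type*} (E : Finset α) (A : Set (Finset α))
    (hA : ∀ G H : Finset α, G ⊆ H → H ∈ A → G ∈ A) (m d : ℕ) (hm : m + d ≤ E.card) :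
    U (m + d) E A ≤ U m E A := by
  induction d with
  | zero => exact le_rfl
  | succ d ih =>
    exact (U_step E A hA (m + d) (by omega)).trans (ih (by omega))

theorem U_ge_of_lower {α : Type*} (E : Finset α) (p : ℝ) (hp0 : 0 ≤ p) (hp1 : p ≤ 1)
    (M₂ : ℕ) (t : ℝ) (ht : 0 < t) (hM : (M₂ : ℝ) + t ≤ p * E.card) (A : Set (Finset α))
    (hA : ∀ G H : Finset α, G ⊆ H → H ∈ A → G ∈ A) :
    P p E A - p * E.card / t ^ 2 ≤ U M₂ E A := by
  rw [sub_le_iff_le_add, P_eq_sum]
  rw [← sum_filter_add_sum_filter_not (range (E.card + 1)) (fun k => M₂ ≤ k)]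
  apply add_le_add
  · calc ∑ k ∈ range (E.card + 1) with M₂ ≤ k, bpm p E.card k * U k E A
        ≤ ∑ k ∈ range (E.card + 1) with M₂ ≤ k, bpm p E.card k * U M₂ E A := by
          apply sum_le_sum
          intro k hk
          rw [mem_filter, mem_range] at hk
          apply mul_le_mul_of_nonneg_left _ (bpm_nonneg hp0 hp1 _ _)
          have := U_anti E A hA M₂ (k - M₂) (by omega)
          rwa [show M₂ + (k - M₂) = k by omega] at this
      _ = (∑ k ∈ range (E.card + 1) with M₂ ≤ k, bpm p E.card k) * U M₂ E A := by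
          rw [sum_mul]
      _ ≤ 1 * U M₂ E A := by
          apply mul_le_mul_of_nonneg_right _ (U_nonneg _ _ _)
          rw [← bpm_sum p E.card]
          apply sum_le_sum_of_subset_of_nonneg (filter_subset _ _)
          intro k _ _
          exact bpm_nonneg hp0 hp1 _ _
      _ = U M₂ E A := one_mul _
  · calc ∑ k ∈ range (E.card + 1) with ¬ M₂ ≤ k, bpm p E.card k * U k E A
        ≤ ∑ k ∈ range (E.card + 1) with ¬ M₂ ≤ k, bpm p E.card k := by
          apply sum_le_sum
          intro k _
          exact mul_le_of_le_one_right (bpm_nonneg hp0 hp1 _ _) (U_le_one _ _ _)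
      _ ≤ p * E.card / t ^ 2 := by
          apply tail_le hp0 hp1 _ t ht _ (filter_subset _ _)
          intro k hk
          rw [mem_filter, not_le] at hk
          have h1 : (k : ℝ) ≤ M₂ := by exact_mod_cast hk.2.le
          have h2 : t ≤ p * E.card - k := by linarith
          calc t ^ 2 ≤ (p * E.card - k) ^ 2 := pow_le_pow_left₀ ht.le h2 2
            _ = _ := by ring

/-- the set of the `m` first elements of a random ordering -/
noncomputable def firsts {α : Type*} [Fintype α] (m : ℕ) (σ : α ≃ Fin (Fintype.card α)) :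
    Finset α :=
  univ.filter fun e => ((σ e : Fin _) : ℕ) < m

theorem card_firsts {α : Type*} [Fintype α] (m : ℕ) (hm : m ≤ Fintype.card α)
    (σ : α ≃ Fin (Fintype.card α)) : (firsts m σ).card = m := by
  have h1 : (firsts m σ).map σ.toEmbedding = univ.filter fun i : Fin _ => (i : ℕ) < m := by
    ext i
    simp only [firsts, mem_map, mem_filter, mem_univ, true_and, Equiv.coe_toEmbedding]
    constructor
    · rintro ⟨a, ha, rfl⟩
      exact ha
    · intro hi
      exact ⟨σ.symm i, by simpa using hi, by simp⟩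
  rw [← card_map σ.toEmbedding, h1]
  have h2 : (univ.filter fun i : Fin (Fintype.card α) => (i : ℕ) < m).map
      ⟨Fin.val, Fin.val_injective⟩ = range m := by
    ext j
    simp only [mem_map, mem_filter, mem_univ, true_and, Function.Embedding.coeFn_mk, mem_range]
    constructor
    · rintro ⟨i, hi, rfl⟩
      exact hi
    · intro hj
      exact ⟨⟨j, by omega⟩, hj, rfl⟩
  rw [← card_map ⟨Fin.val, Fin.val_injective⟩, h2, card_range]

theorem exists_perm_of_card {α : Type*} [Fintype α] (S T : Finset α) (h : S.card = T.card) :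
    ∃ π : Equiv.Perm α, ∀ x, x ∈ S ↔ π x ∈ T := by
  have e : {x // x ∈ S} ≃ {x // x ∈ T} := Fintype.equivOfCardEq (by simpa using h)
  refine ⟨e.extendSubtype, fun x => ⟨fun hx => ?_, fun hx => ?_⟩⟩
  · exact e.extendSubtype_mem x hx
  · by_contra hx'
    exact e.extendSubtype_not_mem x hx' hx

theorem fiber_card {α : Type*} [Fintype α] (m : ℕ) (S T : Finset α) (h : S.card = T.card) :
    (univ.filter fun σ : α ≃ Fin (Fintype.card α) => firsts m σ = S).card =
      (univ.filter fun σ : α ≃ Fin (Fintype.card α) => firsts m σ = T).card := by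
  obtain ⟨π, hπ⟩ := exists_perm_of_card S T h
  apply card_bij' (fun σ _ => π.symm.trans σ) (fun σ _ => π.trans σ)
  · intro σ hσ
    rw [mem_filter] at hσ ⊢
    refine ⟨mem_univ _, ?_⟩
    ext x
    have h1 := hπ (π.symm x)
    rw [Equiv.apply_symm_apply, ← hσ.2] at h1
    rw [← h1]
    unfold firsts
    rw [mem_filter, mem_filter]
    simp only [mem_univ, true_and, Equiv.trans_apply]
  · intro σ hσ
    rw [mem_filter] at hσ ⊢
    refine ⟨mem_univ _, ?_⟩
    ext x
    rw [hπ x, ← hσ.2]
    unfold firsts
    rw [mem_filter, mem_filter]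
    simp only [mem_univ, true_and, Equiv.trans_apply]
  · intro σ _
    ext x
    simp
  · intro σ _
    ext x
    simp

theorem perm_eq_U_gen {α : Type*} [Fintype α] (m : ℕ) (hm : m ≤ Fintype.card α)
    (A : Set (Finset α)) :
    ((({σ : α ≃ Fin (Fintype.card α) | firsts m σ ∈ A} : Set _).ncard : ℝ)) /
      ((Fintype.card α).factorial : ℝ) = U m univ A := by
  obtain ⟨S₀, hS₀⟩ : (powersetCard m (univ : Finset α)).Nonempty := by
    apply powersetCard_nonempty.2
    rwa [card_univ]
  rw [mem_powersetCard] at hS₀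
  set c := (univ.filter fun σ : α ≃ Fin (Fintype.card α) => firsts m σ = S₀).card with hc
  have hcard : ∀ B : Set (Finset α), (univ.filter fun σ : α ≃ Fin (Fintype.card α) =>
      firsts m σ ∈ B).card = ((powersetCard m univ).filter (· ∈ B)).card * c := by
    intro B
    rw [card_eq_sum_card_fiberwise (f := firsts m) (t := (powersetCard m univ).filter (· ∈ B))]
    · rw [← smul_eq_mul, ← sum_const]
      apply sum_congr rfl
      intro S hS
      rw [mem_filter, mem_powersetCard] at hS
      rw [hc, ← fiber_card m S S₀ (by rw [hS.1.2, hS₀.2])]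
      congr 1
      ext σ
      simp only [mem_filter, mem_univ, true_and]
      constructor
      · exact fun h => h.2
      · intro h
        exact ⟨by rw [h]; exact hS.2, h⟩
    · intro σ hσ
      rw [mem_coe, mem_filter] at hσ
      rw [mem_coe, mem_filter, mem_powersetCard]
      exact ⟨⟨subset_univ _, card_firsts m hm σ⟩, hσ.2⟩
  have h1 : (Set.ncard ({σ : α ≃ Fin (Fintype.card α) | firsts m σ ∈ A} : Set _)) =
      ((powersetCard m univ).filter (· ∈ A)).card * c := by
    rw [← hcard A, ← Set.ncard_coe_finset]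
    congr 1
    ext σ
    simp
  have h2 : (Fintype.card α).factorial = (Fintype.card α).choose m * c := by
    have h3 := hcard Set.univ
    simp only [Set.mem_univ, filter_true, card_univ, card_powersetCard] at h3
    rw [← h3]
    exact (Fintype.card_equiv (Fintype.equivFin α)).symm
  have h4 : 0 < (Fintype.card α).choose m * c := by
    rw [← h2]
    exact Nat.factorial_pos _
  have h5 : (c : ℝ) ≠ 0 := by
    intro h
    have : c = 0 := by exact_mod_cast h
    rw [this] at h4
    simp at h4
  rw [h1, h2]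
  unfold U
  rw [card_univ]
  push_cast
  rw [mul_div_mul_right _ _ h5]

theorem perm_eq_U {n : ℕ} (m : ℕ) (hm : m ≤ Fintype.card (Pr n)) (A : Set (Finset (Pr n))) :
    (({σ : Pr n ≃ Fin (Fintype.card (Pr n)) |
        (univ.filter fun e => ((σ e : Fin _) : ℕ) < m) ∈ A}.ncard : ℝ)) /
      ((Fintype.card (Pr n)).factorial : ℝ) = U m univ A :=
  perm_eq_U_gen m hm A

end Pool.Agent.H982R2.BL
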