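import Pool.Agent.H982R2.BLBlowup
import Pool.Agent.H982R2.BLTransfer
import Pool.Agent.H982R2.BLSecond
import Pool.Agent.H982R2.BLSmall

set_option autoImplicit false

namespace Pool.Agent.H982R2.BL

open Finset Classical Filter

namespace ColourA

lemma P_univ {α : Type*} (p : ℝ) (E : Finset α) : P p E Set.univ = 1 := by
  unfold P
  simp only [Set.mem_univ, Finset.filter_true]
  rw [Finset.sum_pow_mul_eq_add_pow]
  simp

lemma U_mono {α : Type*} (M : ℕ) (E : Finset α) {A B : Set (Finset α)} (h : A ⊆ B) :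
    U M E A ≤ U M E B := by
  unfold U
  refine div_le_div_of_nonneg_right (Nat.cast_le.mpr (Finset.card_le_card ?_)) (by positivity)
  intro S hS
  rw [Finset.mem_filter] at hS ⊢
  exact ⟨hS.1, h hS.2⟩

/-- three-set cover -/
lemma P_cover {α : Type*} (p : ℝ) (hp0 : 0 ≤ p) (hp1 : p ≤ 1) (E : Finset α)
    (A B C : Set (Finset α)) (h : ∀ G, G ∉ A → G ∉ B → G ∈ C) :
    1 - P p E A - P p E B ≤ P p E C := by
  have h1 := SmallSets.P_le_sum p hp0 hp1 E Set.univ (univ : Finset (Fin 3)) ![A, B, C] (by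
    intro G _ _
    by_cases hA : G ∈ A
    · exact ⟨0, Finset.mem_univ _, hA⟩
    · by_cases hB : G ∈ B
      · exact ⟨1, Finset.mem_univ _, hB⟩
      · exact ⟨2, Finset.mem_univ _, h G hA hB⟩)
  rw [P_univ, Fin.sum_univ_three] at h1
  have h2 : P p E (![A, B, C] 0) = P p E A := rfl
  have h3 : P p E (![A, B, C] 1) = P p E B := rfl
  have h4 : P p E (![A, B, C] 2) = P p E C := rfl
  rw [h2, h3, h4] at h1
  linarith

lemma gr_mono {n : ℕ} {S T : Finset (Pr n)} (h : S ⊆ T) : gr S ≤ gr T := by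
  intro a b hab
  rw [gr, SimpleGraph.fromEdgeSet_adj] at hab ⊢
  obtain ⟨⟨h1, h2⟩, h3⟩ := hab
  exact ⟨⟨h1, h h2⟩, h3⟩

/-- combination of colourings -/
lemma combine {K n : ℕ} (G H : Finset (Pr n)) (R : Finset (Fin n)) (σ : Fin n → Fin K)
    (hσ : Disjoint H (mono σ)) (hGH : ∀ e : Pr n, (∀ v ∈ R, v ∉ e.1) → (e ∈ G ↔ e ∈ H))
    (hR : ((gr G).induce (R : Set (Fin n))).Colorable 3) : (gr G).Colorable (K + 3) := by
  obtain ⟨g⟩ := hR
  let f : Fin n → Fin (K + 3) := fun v =>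
    if hv : v ∈ R then Fin.natAdd K (g ⟨v, hv⟩) else Fin.castAdd 3 (σ v)
  refine ⟨SimpleGraph.Coloring.mk f ?_⟩
  intro v w hvw
  by_cases hv : v ∈ R
  · by_cases hw : w ∈ R
    · simp only [f, dif_pos hv, dif_pos hw]
      intro h
      have h1 : g ⟨v, hv⟩ = g ⟨w, hw⟩ := Fin.natAdd_injective 3 K h
      have h2 : ((gr G).induce (R : Set (Fin n))).Adj ⟨v, hv⟩ ⟨w, hw⟩ := hvw
      exact g.valid h2 h1
    · simp only [f, dif_pos hv, dif_neg hw]
      intro h
      have := congrArg Fin.val h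
      simp only [Fin.val_natAdd, Fin.val_castAdd] at this
      have := (σ w).2
      omega
  · by_cases hw : w ∈ R
    · simp only [f, dif_neg hv, dif_pos hw]
      intro h
      have := congrArg Fin.val h
      simp only [Fin.val_natAdd, Fin.val_castAdd] at this
      have := (σ v).2
      omega
    · simp only [f, dif_neg hv, dif_neg hw]
      intro h
      have h1 : σ v = σ w := Fin.castAdd_injective K 3 h
      rw [gr, SimpleGraph.fromEdgeSet_adj] at hvw
      obtain ⟨⟨hd, hG⟩, hne⟩ := hvw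
      have h2 : (⟨s(v, w), hd⟩ : Pr n) ∈ H := by
        rw [← hGH]
        · exact hG
        · intro x hx hmem
          rcases Sym2.mem_iff.mp hmem with rfl | rfl
          · exact hv hx
          · exact hw hx
      have h3 : (⟨s(v, w), hd⟩ : Pr n) ∈ mono σ := by
        rw [mono, Finset.mem_filter]
        refine ⟨Finset.mem_univ _, σ v, ?_⟩
        intro x hx
        rcases Sym2.mem_iff.mp hx with rfl | rfl
        · rfl
        · exact h1.symm
      exact (Finset.disjoint_left.mp hσ h2 h3)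

lemma poly_exp (C b ε : ℝ) (hb : 0 < b) (hε : 0 < ε) (m : ℕ) :
    ∀ᶠ n : ℕ in atTop, C * ((n : ℝ) + 1) ^ m * Real.exp (-(b * n)) ≤ ε := by
  have h1 : Tendsto (fun x : ℝ => x ^ m / Real.exp (b * x)) atTop (nhds 0) :=
    (isLittleO_pow_exp_pos_mul_atTop m hb).tendsto_div_nhds_zero
  have h2 : Tendsto (fun n : ℕ => ((n : ℝ) + 1)) atTop atTop :=
    tendsto_atTop_add_const_right _ _ tendsto_natCast_atTop_atTop
  have h3 := (h1.comp h2).const_mul (C * Real.exp b)
  rw [mul_zero] at h3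
  filter_upwards [h3.eventually (gt_mem_nhds hε)] with n hn
  refine le_trans (le_of_eq ?_) hn.le
  simp only [Function.comp]
  rw [div_eq_mul_inv, ← Real.exp_neg]
  have : Real.exp (-(b * n)) = Real.exp b * Real.exp (-(b * (n + 1))) := by
    rw [← Real.exp_add]
    congr 1
    ring
  rw [this]
  ring

end ColourA

open ColourA in
theorem colourable_whp (K : ℕ) (hK : 8 ≤ K) (c : ℝ) (hc0 : 0 < c) (hc : c < K * (Real.log K - 1))
    (δ : ℝ) (hδ : 0 < δ) :
    ∃ N₀ : ℕ, ∀ N : ℕ, N₀ ≤ N → ∀ n : ℕ, n = K * N → ∀ M : ℕ, (M : ℝ) ≤ c * n →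
      1 - δ ≤ U M (univ : Finset (Pr n)) {S | (gr S).Colorable (K + 3)} := by
  set c' : ℝ := (c + K * (Real.log K - 1)) / 2 with hc'
  have hcc : c < c' := by rw [hc']; linarith
  have hc'0 : 0 < c' := hc0.trans hcc
  have hc'1 : c' ≤ K * (Real.log K - 1) := by rw [hc']; linarith
  obtain ⟨C, hC0, N₁, hgood⟩ := good_colouring K hK c' hc'0.le hc'1
  obtain ⟨η, hη0, n₀, hsmall⟩ := small_sets (4 * c') (by positivity) (δ / 4) (by positivity)
  -- eventual inequalities
  have ev1 := poly_exp C (η ^ 2) (δ / 4) (by positivity) (by positivity) (K ^ 2 + K + 2)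
  have ev2 : ∀ᶠ n : ℕ in atTop, 2 / (c' - c) ≤ (n : ℝ) :=
    tendsto_natCast_atTop_atTop.eventually_ge_atTop _
  have ev3 : ∀ᶠ n : ℕ in atTop, 2 * c' + 2 ≤ (n : ℝ) :=
    tendsto_natCast_atTop_atTop.eventually_ge_atTop _
  have ev4 : ∀ᶠ n : ℕ in atTop, 4 * c' / ((c' - c) ^ 2) / (δ / 4) ≤ (n : ℝ) :=
    tendsto_natCast_atTop_atTop.eventually_ge_atTop _
  have ev5 : ∀ᶠ n : ℕ in atTop, n₀ ≤ n := eventually_ge_atTop n₀
  obtain ⟨N₂, hN₂⟩ := eventually_atTop.mp (ev1.and (ev2.and (ev3.and (ev4.and ev5))))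
  refine ⟨max N₁ N₂, ?_⟩
  intro N hN n hn M hM
  have hNN : N ≤ n := by rw [hn]; nlinarith
  obtain ⟨e1, e2, e3, e4, e5⟩ := hN₂ n ((le_max_right _ _).trans (hN.trans hNN))
  have hnr : (n : ℝ) = K * N := by rw [hn]; push_cast; ring
  have hn2 : (2 : ℝ) ≤ n := by linarith
  have hn0 : (0 : ℝ) < n := by linarith
  -- number of pairs
  have hEcard : ((univ : Finset (Pr n)).card : ℝ) = n * (n - 1) / 2 := by
    rw [Finset.card_univ, card_Pr, Nat.cast_choose_two]
  set E : ℝ := ((univ : Finset (Pr n)).card : ℝ) with hE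
  have hE0 : 0 < E := by rw [hEcard]; nlinarith
  set m3 : ℕ := ⌊c' * n⌋₊ with hm3
  have hm3le : (m3 : ℝ) ≤ c' * n := Nat.floor_le (by positivity)
  have hm3ge : c' * n - 1 ≤ (m3 : ℝ) := by
    have := Nat.lt_floor_add_one (c' * n)
    rw [← hm3] at this
    linarith
  have hm3E : (m3 : ℝ) ≤ E := by
    refine hm3le.trans ?_
    rw [hEcard]
    nlinarith
  have hm3E' : m3 ≤ (univ : Finset (Pr n)).card := by
    rw [hE] at hm3E
    exact_mod_cast hm3E
  set p : ℝ := (m3 : ℝ) / E with hp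
  have hp0 : 0 ≤ p := by positivity
  have hp1 : p ≤ 1 := by
    rw [hp, div_le_one hE0]
    exact hm3E
  have hpE : p * E = m3 := by
    rw [hp]
    field_simp
  have hpc : p ≤ 4 * c' / n := by
    rw [hp, div_le_div_iff₀ hE0 hn0, hEcard]
    nlinarith [mul_le_mul_of_nonneg_right hm3le hn0.le, mul_pos hc'0 hn0, mul_pos (mul_pos hc'0 hn0) hn0]
  -- the good event
  let A : Set (Finset (Pr n)) := {S | ∃ σ : Fin n → Fin K, Disjoint S (mono σ)}
  have hA : 1 / (C * ((n : ℝ) + 1) ^ (K ^ 2 + K)) ≤ U m3 univ A := by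
    subst hn
    have h1 := hgood N ((le_max_left _ _).trans hN) m3 (by rw [← hnr]; exact hm3le)
      (fun _ _ => True) (by
        intro σ _
        have h0 : {S : Finset (Pr (K * N)) | ¬ True} = (∅ : Set (Finset (Pr (K * N)))) := by
          ext S; simp
        rw [h0]
        unfold U
        simp)
    have h2 : U m3 univ {S : Finset (Pr (K * N)) | ∃ σ ∈ Bal K N, Disjoint S (mono σ) ∧ True}
        ≤ U m3 univ A := by
      refine U_mono m3 univ ?_
      rintro S ⟨σ, _, h4, _⟩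
      exact ⟨σ, h4⟩
    have h3 : ((K * N + 1 : ℕ) : ℝ) = ((K * N : ℕ) : ℝ) + 1 := by push_cast; ring
    rw [h3] at h1
    exact h1.trans h2
  have hA2 := hA.trans (U_le_P univ m3 hm3E' A)
  rw [← hE, ← hp] at hA2
  have hE1 : E + 1 ≤ ((n : ℝ) + 1) ^ 2 := by rw [hEcard]; nlinarith
  have hPA0 : 0 ≤ P p univ A := by
    unfold P
    refine Finset.sum_nonneg fun G _ => ?_
    have : 0 ≤ 1 - p := by linarith
    positivity
  have hA3 : 1 / (C * ((n : ℝ) + 1) ^ (K ^ 2 + K + 2)) ≤ P p univ A := by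
    have h1 : 1 / (C * ((n : ℝ) + 1) ^ (K ^ 2 + K)) ≤ ((n : ℝ) + 1) ^ 2 * P p univ A :=
      hA2.trans (by gcongr)
    rw [div_le_iff₀ (by positivity)] at h1 ⊢
    calc (1 : ℝ) ≤ ((n : ℝ) + 1) ^ 2 * P p univ A * (C * ((n : ℝ) + 1) ^ (K ^ 2 + K)) := h1
      _ = P p univ A * (C * ((n : ℝ) + 1) ^ (K ^ 2 + K + 2)) := by rw [pow_add _ (K ^ 2 + K) 2]; ring
  -- blow-up
  let B : Set (Finset (Pr n)) := {G | ∀ R : Finset (Fin n), (R.card : ℝ) ≤ η * n → ∀ H ∈ A,
        ∃ e : Pr n, (∀ v ∈ R, v ∉ e.1) ∧ ¬ (e ∈ G ↔ e ∈ H)}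
  have hB : P p univ B ≤ δ / 4 := by
    have h1 := blowup p hp0 hp1 A (η * n) (by positivity)
    have h2 : -((η * n) ^ 2) / (n : ℝ) = -(η ^ 2 * n) := by field_simp
    rw [h2] at h1
    have hPB0 : 0 ≤ P p univ B := by
      unfold P
      refine Finset.sum_nonneg fun G _ => ?_
      have : 0 ≤ 1 - p := by linarith
      positivity
    have h3 : 1 / (C * ((n : ℝ) + 1) ^ (K ^ 2 + K + 2)) * P p univ B ≤ Real.exp (-(η ^ 2 * n)) :=
      (mul_le_mul_of_nonneg_right hA3 hPB0).trans h1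
    have h4 : P p univ B ≤ C * ((n : ℝ) + 1) ^ (K ^ 2 + K + 2) * Real.exp (-(η ^ 2 * n)) := by
      rw [div_mul_eq_mul_div, one_mul, div_le_iff₀ (by positivity)] at h3
      linarith
    exact h4.trans e1
  have hS := hsmall n e5 p hp0 hpc
  have hcol : 1 - δ / 4 - δ / 4 ≤ P p univ {S : Finset (Pr n) | (gr S).Colorable (K + 3)} := by
    have h1 := P_cover p hp0 hp1 univ B {S : Finset (Pr n) | ∃ R : Finset (Fin n),
      (R.card : ℝ) ≤ η * n ∧ ¬ ((gr S).induce (R : Set (Fin n))).Colorable 3}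
      {S : Finset (Pr n) | (gr S).Colorable (K + 3)} (by
        intro G hGB hGS
        have hGB' : ∃ R : Finset (Fin n), (R.card : ℝ) ≤ η * n ∧ ∃ H ∈ A,
            ∀ e : Pr n, (∀ v ∈ R, v ∉ e.1) → (e ∈ G ↔ e ∈ H) := by
          by_contra hcon
          apply hGB
          intro R hR H hH
          by_contra hcon2
          apply hcon
          refine ⟨R, hR, H, hH, fun e he => ?_⟩
          by_contra h3
          exact hcon2 ⟨e, he, h3⟩
        obtain ⟨R, hR, H, ⟨σ, hσ⟩, hGH⟩ := hGB'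
        have h3 : ((gr G).induce (R : Set (Fin n))).Colorable 3 := by
          by_contra h3
          exact hGS ⟨R, hR, h3⟩
        exact combine G H R σ hσ hGH h3)
    linarith
  -- back to the uniform model
  have ht0 : 0 < (c' - c) / 2 * n := by
    have : 0 < c' - c := by linarith
    positivity
  have hMt : (M : ℝ) + (c' - c) / 2 * n ≤ p * E := by
    rw [hpE]
    have h1 : 1 ≤ (c' - c) / 2 * n := by
      have h2 : 0 < c' - c := by linarith
      rw [div_le_iff₀ h2] at e2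
      linarith
    nlinarith
  have hfin := U_ge_of_lower univ p hp0 hp1 M ((c' - c) / 2 * n) ht0 hMt
    {S : Finset (Pr n) | (gr S).Colorable (K + 3)} (by
      intro G H hGH hH
      exact SimpleGraph.Colorable.mono_left (gr_mono hGH) hH)
  rw [← hE, hpE] at hfin
  have hvar : (m3 : ℝ) / ((c' - c) / 2 * n) ^ 2 ≤ δ / 4 := by
    have h2 : 0 < c' - c := by linarith
    rw [div_le_iff₀ (by positivity)] at e4 ⊢
    rw [div_le_iff₀ (by positivity)] at e4
    have h3 : (m3 : ℝ) ≤ c' * n := hm3le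
    nlinarith [mul_le_mul_of_nonneg_right e4 hn0.le]
  linarith

end Pool.Agent.H982R2.BL
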