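import Mathlib

/-! Numerical estimates for the planted model. Here `t = k ^ (1/100)`. -/

set_option autoImplicit false

namespace Pool.Agent.H982R2.BL

open Real

lemma choose_le' (N y : ℕ) {z : ℝ} (hz : 0 < z) :
    (N.choose y : ℝ) ≤ (z ^ y)⁻¹ * exp (z * N) := by
  have h1 : (N.choose y : ℝ) * z ^ y ≤ (z + 1) ^ N := by
    rw [add_pow]
    by_cases hy : y ≤ N
    · have := Finset.single_le_sum (f := fun m => z ^ m * 1 ^ (N - m) * (N.choose m : ℝ))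
        (s := Finset.range (N + 1)) (fun i _ => by positivity)
        (Finset.mem_range.2 (Nat.lt_succ_of_le hy))
      simp only [one_pow, mul_one] at this ⊢
      linarith
    · rw [Nat.choose_eq_zero_of_lt (by omega)]
      simp only [Nat.cast_zero, zero_mul]
      positivity
  have h2 : (z + 1) ^ N ≤ exp (z * N) := by
    calc (z + 1) ^ N ≤ (exp z) ^ N := pow_le_pow_left₀ (by linarith) (add_one_le_exp z) _
      _ = exp (z * N) := by rw [← exp_nat_mul]; ring_nf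
  rw [inv_mul_eq_div, le_div_iff₀ (by positivity)]
  linarith

lemma one_add_pow_le {z : ℝ} (hz : 0 ≤ z) (N : ℕ) : (1 + z) ^ N ≤ exp (z * N) := by
  calc (1 + z) ^ N ≤ (exp z) ^ N :=
        pow_le_pow_left₀ (by linarith) (by linarith [add_one_le_exp z]) _
    _ = exp (z * N) := by rw [← exp_nat_mul]; ring_nf

lemma log_bounds {t : ℝ} (ht : (10 : ℝ) ^ 30 ≤ t) :
    69 ≤ log t ∧ 380 * log t ≤ t := by
  have ht0 : 0 < t := lt_of_lt_of_le (by positivity) ht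
  constructor
  · have h1 : log ((10 : ℝ) ^ 30) ≤ log t := log_le_log (by positivity) ht
    rw [log_pow] at h1
    have h2 : (2.3 : ℝ) ≤ log 10 := by
      rw [le_log_iff_exp_le (by norm_num)]
      have h3 : exp 1 < 2.7182818286 := exp_one_lt_d9
      have h4 : exp (2.3 : ℝ) = exp 1 ^ 2 * exp (0.3 : ℝ) := by
        rw [← exp_nat_mul, ← exp_add]; norm_num
      have h5 : exp (0.3 : ℝ) ≤ 1.35 := by
        have := Real.exp_bound' (x := (0.3:ℝ)) (by norm_num) (by norm_num) (n := 4) (by norm_num)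
        refine this.trans ?_
        norm_num [Finset.sum_range_succ, Nat.factorial]
      rw [h4]
      have h6 : exp 1 ^ 2 ≤ 2.7182818286 ^ 2 := pow_le_pow_left₀ (exp_nonneg _) h3.le _
      calc exp 1 ^ 2 * exp 0.3 ≤ 2.7182818286 ^ 2 * 1.35 :=
            mul_le_mul h6 h5 (exp_nonneg _) (by positivity)
        _ ≤ 10 := by norm_num
    push_cast at h1
    linarith
  · have hs : 0 < sqrt t := sqrt_pos.2 ht0
    have h1 : log t = 2 * log (sqrt t) := by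
      rw [log_sqrt ht0.le]; ring
    have h2 : log (sqrt t) ≤ sqrt t := by
      have := log_le_sub_one_of_pos hs
      linarith
    have h3 : (760 : ℝ) ≤ sqrt t := by
      rw [le_sqrt (by norm_num) ht0.le]
      refine le_trans ?_ ht
      norm_num
    have h4 : sqrt t * sqrt t = t := mul_self_sqrt ht0.le
    nlinarith

/-- bound for F1 -/
lemma num_F1 {t p : ℝ} (ht : (10 : ℝ) ^ 30 ≤ t) (N y₁ y₂ : ℕ)
    (hp0 : 0 ≤ p) (hpN : 170 * log t ≤ p * N) (hy1 : (t ^ 50)⁻¹ * N ≤ y₁)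
    (hy2 : (y₂ : ℝ) ≤ N / 100) :
    (N.choose y₁ : ℝ) * (t ^ 100 * ((((1:ℝ) / 100) ^ (2 * 100))⁻¹ *
      exp (-(p * (1 - 1 / 100) * ((N : ℝ) - y₂))))) ^ y₁ ≤ exp (-(y₁ : ℝ)) := by
  have ht0 : 0 < t := lt_of_lt_of_le (by positivity) ht
  obtain ⟨hl, _⟩ := log_bounds ht
  have h1 : (N.choose y₁ : ℝ) ≤ (t ^ 50) ^ y₁ * exp 1 ^ y₁ := by
    refine (choose_le' N y₁ (z := (t ^ 50)⁻¹) (by positivity)).trans ?_
    rw [inv_pow, inv_inv, ← exp_nat_mul, mul_one]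
    exact mul_le_mul_of_nonneg_left (exp_le_exp.2 hy1) (by positivity)
  have h2 : exp (-(p * (1 - 1 / 100) * ((N : ℝ) - y₂))) ≤ (t ^ 166)⁻¹ := by
    have e1 : (t ^ 166)⁻¹ = exp (-(166 * log t)) := by
      rw [exp_neg, show (166 : ℝ) * log t = ((166 : ℕ) : ℝ) * log t by norm_num, exp_nat_mul,
        exp_log ht0]
    rw [e1]
    refine exp_le_exp.2 (neg_le_neg ?_)
    have : (99 / 100 : ℝ) * N ≤ (N : ℝ) - y₂ := by linarith
    have h3 : p * (1 - 1/100) * ((99 / 100 : ℝ) * N) ≤ p * (1 - 1 / 100) * ((N : ℝ) - y₂) :=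
      mul_le_mul_of_nonneg_left this (by nlinarith)
    nlinarith
  have hbase : (t ^ 50) * exp 1 * (t ^ 100 * ((((1:ℝ) / 100) ^ (2 * 100))⁻¹ * (t ^ 166)⁻¹)) ≤
      exp (-1) := by
    have e1 : (t ^ 50) * exp 1 * (t ^ 100 * ((((1:ℝ) / 100) ^ (2 * 100))⁻¹ * (t ^ 166)⁻¹)) =
        exp 1 * 100 ^ 200 * (t ^ 16)⁻¹ := by
      field_simp
      ring
    rw [e1, exp_neg]
    have h3 : exp 1 ≤ 3 := by have := exp_one_lt_d9; linarith
    have h4 : ((10:ℝ) ^ 30) ^ 16 ≤ t ^ 16 := pow_le_pow_left₀ (by positivity) ht _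
    have h5 : 0 < exp 1 := exp_pos _
    rw [mul_inv_le_iff₀ (by positivity), inv_mul_eq_div, le_div_iff₀ h5]
    calc exp 1 * 100 ^ 200 * exp 1 ≤ 3 * 100 ^ 200 * 3 := by gcongr
      _ ≤ ((10:ℝ) ^ 30) ^ 16 := by norm_num
      _ ≤ t ^ 16 := h4
  calc (N.choose y₁ : ℝ) * (t ^ 100 * ((((1:ℝ) / 100) ^ (2 * 100))⁻¹ *
      exp (-(p * (1 - 1 / 100) * ((N : ℝ) - y₂))))) ^ y₁
      ≤ ((t ^ 50) ^ y₁ * exp 1 ^ y₁) *
        (t ^ 100 * ((((1:ℝ) / 100) ^ (2 * 100))⁻¹ * (t ^ 166)⁻¹)) ^ y₁ := by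
        refine mul_le_mul h1 ?_ (by positivity) (by positivity)
        refine pow_le_pow_left₀ (by positivity) ?_ _
        gcongr
    _ = ((t ^ 50) * exp 1 * (t ^ 100 * ((((1:ℝ) / 100) ^ (2 * 100))⁻¹ * (t ^ 166)⁻¹))) ^ y₁ := by
        rw [← mul_pow, ← mul_pow]
    _ ≤ (exp (-1)) ^ y₁ := pow_le_pow_left₀ (by positivity) hbase _
    _ = exp (-(y₁ : ℝ)) := by rw [← exp_nat_mul]; ring_nf

lemma t_pow_le {t : ℝ} (ht : (10 : ℝ) ^ 30 ≤ t) (a : ℕ) : (t ^ (a + 1))⁻¹ ≤ (t ^ a)⁻¹ / 10 ^ 30 := by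
  have ht0 : 0 < t := lt_of_lt_of_le (by positivity) ht
  rw [pow_succ, mul_inv, div_eq_mul_inv]
  refine mul_le_mul_of_nonneg_left ?_ (by positivity)
  exact inv_anti₀ (by positivity) ht

/-- bound for the first part of F2 -/
lemma num_F2a {t : ℝ} (ht : (10 : ℝ) ^ 30 ≤ t) (N y₁ y₂ : ℕ)
    (hy1 : (t ^ 50)⁻¹ * N ≤ y₁) (hy2 : (t ^ 300)⁻¹ * N ≤ y₂) (hy2' : (y₂ : ℝ) ≤ 2 * ((t ^ 300)⁻¹ * N)) :
    (N.choose y₂ : ℝ) * exp (-(y₁ : ℝ)) ≤ exp (-((t ^ 300)⁻¹ * N)) := by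
  have ht0 : 0 < t := lt_of_lt_of_le (by positivity) ht
  obtain ⟨hl, hl2⟩ := log_bounds ht
  have h1 : (N.choose y₂ : ℝ) ≤ exp (y₂ * (1 + 300 * log t)) := by
    refine (choose_le' N y₂ (z := (t ^ 300)⁻¹) (by positivity)).trans ?_
    rw [inv_pow, inv_inv, mul_add, mul_one, exp_add, mul_comm]
    refine mul_le_mul (exp_le_exp.2 hy2) (le_of_eq ?_) (by positivity) (by positivity)
    rw [exp_nat_mul]
    congr 1
    rw [show (300 : ℝ) * log t = ((300 : ℕ) : ℝ) * log t by norm_num, exp_nat_mul, exp_log ht0]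
  calc (N.choose y₂ : ℝ) * exp (-(y₁ : ℝ)) ≤ exp (y₂ * (1 + 300 * log t)) * exp (-(y₁ : ℝ)) :=
        mul_le_mul_of_nonneg_right h1 (exp_nonneg _)
    _ = exp (y₂ * (1 + 300 * log t) - y₁) := by rw [← exp_add]; ring_nf
    _ ≤ exp (-((t ^ 300)⁻¹ * N)) := by
        refine exp_le_exp.2 ?_
        have hN : (0:ℝ) ≤ N := Nat.cast_nonneg _
        have e1 : (y₂ : ℝ) * (1 + 300 * log t) ≤ 2 * ((t ^ 300)⁻¹ * N) * (1 + 300 * log t) :=
          mul_le_mul_of_nonneg_right hy2' (by linarith)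
        have e2 : (1 : ℝ) + 300 * log t ≤ t := by linarith
        have e3 : 2 * ((t ^ 300)⁻¹ * N) * (1 + 300 * log t) ≤ 2 * ((t ^ 300)⁻¹ * N) * t :=
          mul_le_mul_of_nonneg_left e2 (by positivity)
        have e4 : 2 * ((t ^ 300)⁻¹ * N) * t = 2 * (t ^ 299)⁻¹ * N := by
          rw [show t ^ 300 = t ^ 299 * t by ring]
          field_simp
        have e5 : (t ^ 299)⁻¹ ≤ (t ^ 51)⁻¹ := by
          refine inv_anti₀ (by positivity) (pow_le_pow_right₀ ?_ (by norm_num))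
          linarith [show (1:ℝ) ≤ 10 ^ 30 by norm_num]
        have e6 : (t ^ 51)⁻¹ ≤ (t ^ 50)⁻¹ / 10 ^ 30 := t_pow_le ht 50
        have e7 : (t ^ 300)⁻¹ ≤ (t ^ 51)⁻¹ := by
          refine inv_anti₀ (by positivity) (pow_le_pow_right₀ ?_ (by norm_num))
          linarith [show (1:ℝ) ≤ 10 ^ 30 by norm_num]
        have e8 : 2 * (t ^ 299)⁻¹ + (t ^ 300)⁻¹ ≤ (t ^ 50)⁻¹ := by
          have : 0 < (t ^ 50)⁻¹ := by positivity
          have h10 : (t ^ 50)⁻¹ / 10 ^ 30 ≤ (t ^ 50)⁻¹ / 3 := by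
            apply div_le_div_of_nonneg_left this.le (by norm_num) (by norm_num)
          linarith
        have e9 : (2 * (t ^ 299)⁻¹ + (t ^ 300)⁻¹) * N ≤ (t ^ 50)⁻¹ * N :=
          mul_le_mul_of_nonneg_right e8 hN
        linarith

/-- bound for the second part of F2 -/
lemma num_F2b {t p : ℝ} (ht : (10 : ℝ) ^ 30 ≤ t) (N y₁ y₂ : ℕ)
    (hp0 : 0 ≤ p) (hpN : p * N ≤ 190 * log t)
    (hy1 : (y₁ : ℝ) ≤ 2 * ((t ^ 50)⁻¹ * N)) (hy2 : (t ^ 300)⁻¹ * N ≤ y₂) :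
    (N.choose y₂ : ℝ) * (t ^ 100 * (((t ^ 25) ^ 50)⁻¹ * exp (p * t ^ 25 * y₁))) ^ y₂ ≤
      exp (-((t ^ 300)⁻¹ * N)) := by
  have ht0 : 0 < t := lt_of_lt_of_le (by positivity) ht
  have ht1 : 1 ≤ t := by linarith [show (1:ℝ) ≤ 10 ^ 30 by norm_num]
  obtain ⟨hl, hl2⟩ := log_bounds ht
  have h1 : (N.choose y₂ : ℝ) ≤ (t ^ 300) ^ y₂ * exp 1 ^ y₂ := by
    refine (choose_le' N y₂ (z := (t ^ 300)⁻¹) (by positivity)).trans ?_
    rw [inv_pow, inv_inv, ← exp_nat_mul, mul_one]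
    exact mul_le_mul_of_nonneg_left (exp_le_exp.2 hy2) (by positivity)
  have h2 : exp (p * t ^ 25 * y₁) ≤ exp 1 := by
    refine exp_le_exp.2 ?_
    calc p * t ^ 25 * y₁ ≤ p * t ^ 25 * (2 * ((t ^ 50)⁻¹ * N)) :=
          mul_le_mul_of_nonneg_left hy1 (by positivity)
      _ = 2 * (p * N) * (t ^ 25)⁻¹ := by field_simp
      _ ≤ 2 * (190 * log t) * (t ^ 25)⁻¹ := by gcongr
      _ ≤ t * (t ^ 25)⁻¹ := by gcongr; linarith
      _ ≤ 1 := by
        rw [mul_inv_le_iff₀ (by positivity), one_mul]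
        exact le_self_pow₀ ht1 (by norm_num)
  have hbase : (t ^ 300) * exp 1 * (t ^ 100 * (((t ^ 25) ^ 50)⁻¹ * exp 1)) ≤ exp (-1) := by
    have e1 : (t ^ 300) * exp 1 * (t ^ 100 * (((t ^ 25) ^ 50)⁻¹ * exp 1)) =
        exp 1 * exp 1 * (t ^ 850)⁻¹ := by
      field_simp
    rw [e1, exp_neg]
    have h3 : exp 1 ≤ 3 := by have := exp_one_lt_d9; linarith
    have h5 : 0 < exp 1 := exp_pos _
    rw [mul_inv_le_iff₀ (by positivity), inv_mul_eq_div, le_div_iff₀ h5]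
    calc exp 1 * exp 1 * exp 1 ≤ 3 * 3 * 3 := by gcongr
      _ ≤ (10:ℝ) ^ 30 := by norm_num
      _ ≤ t := ht
      _ ≤ t ^ 850 := le_self_pow₀ ht1 (by norm_num)
  calc (N.choose y₂ : ℝ) * (t ^ 100 * (((t ^ 25) ^ 50)⁻¹ * exp (p * t ^ 25 * y₁))) ^ y₂
      ≤ ((t ^ 300) ^ y₂ * exp 1 ^ y₂) * (t ^ 100 * (((t ^ 25) ^ 50)⁻¹ * exp 1)) ^ y₂ := by
        refine mul_le_mul h1 ?_ (by positivity) (by positivity)
        refine pow_le_pow_left₀ (by positivity) ?_ _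
        gcongr
    _ = ((t ^ 300) * exp 1 * (t ^ 100 * (((t ^ 25) ^ 50)⁻¹ * exp 1))) ^ y₂ := by
        rw [← mul_pow, ← mul_pow]
    _ ≤ (exp (-1)) ^ y₂ := pow_le_pow_left₀ (by positivity) hbase _
    _ = exp (-(y₂ : ℝ)) := by rw [← exp_nat_mul]; ring_nf
    _ ≤ _ := exp_le_exp.2 (neg_le_neg hy2)

set_option maxRecDepth 4000 in
/-- bound for F3 -/
lemma num_F3 {t p : ℝ} (ht : (10 : ℝ) ^ 30 ≤ t) (N k q₀ g : ℕ) (hk : (k : ℝ) = t ^ 100)
    (hp0 : 0 ≤ p) (hpN : p * N ≤ 190 * log t)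
    (hg : (g : ℝ) ≤ (t ^ 10)⁻¹ * N) (hg' : (t ^ 10)⁻¹ * N / 2 ≤ g)
    (hq : (q₀ : ℝ) ≤ 4 * ((t ^ 200)⁻¹ * N)) :
    ((((t ^ 300)⁻¹) ^ q₀)⁻¹ * (1 + (t ^ 300)⁻¹) ^ (k * N)) * (((t ^ 100) ^ (g - q₀))⁻¹ *
        (1 + t ^ 100 * (k * (((t ^ 9) ^ 50)⁻¹ * exp (p * t ^ 9 * (2 * g : ℕ))))) ^ (k * N)) ≤
      exp (-((t ^ 300)⁻¹ * N)) := by
  have ht0 : 0 < t := lt_of_lt_of_le (by positivity) ht
  have ht1 : 1 ≤ t := by linarith [show (1:ℝ) ≤ 10 ^ 30 by norm_num]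
  obtain ⟨hl, hl2⟩ := log_bounds ht
  have hN : (0:ℝ) ≤ N := Nat.cast_nonneg _
  have hpow : ∀ a b : ℕ, (t ^ a) ^ b = exp (a * b * log t) := by
    intro a b
    rw [← pow_mul, show ((a:ℝ) * b * log t) = ((a * b : ℕ) : ℝ) * log t by push_cast; ring,
      exp_nat_mul, exp_log ht0]
  have f1 : (((t ^ 300)⁻¹) ^ q₀)⁻¹ = exp (300 * q₀ * log t) := by
    rw [inv_pow, inv_inv, hpow]; norm_num
  have f2 : (1 + (t ^ 300)⁻¹) ^ (k * N) ≤ exp ((t ^ 200)⁻¹ * N) := by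
    refine (one_add_pow_le (by positivity) _).trans (exp_le_exp.2 (le_of_eq ?_))
    push_cast
    rw [hk]
    field_simp
  have hqg : q₀ ≤ g := by
    have : (q₀ : ℝ) ≤ g := by
      refine hq.trans (le_trans ?_ hg')
      have e1 : (t ^ 200)⁻¹ ≤ (t ^ 10)⁻¹ / 10 ^ 30 := by
        refine le_trans ?_ (t_pow_le ht 10)
        exact inv_anti₀ (by positivity) (pow_le_pow_right₀ ht1 (by norm_num))
      have e2 : 0 < (t ^ 10)⁻¹ := by positivity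
      have e3 : 4 * (t ^ 200)⁻¹ ≤ (t ^ 10)⁻¹ / 2 := by
        have : (t ^ 10)⁻¹ / 10 ^ 30 ≤ (t ^ 10)⁻¹ / 8 := by
          apply div_le_div_of_nonneg_left e2.le (by norm_num) (by norm_num)
        linarith
      nlinarith
    exact_mod_cast this
  have f3 : ((t ^ 100) ^ (g - q₀))⁻¹ = exp (-(100 * ((g:ℝ) - q₀) * log t)) := by
    rw [hpow, ← exp_neg]
    rw [Nat.cast_sub hqg]; norm_num
  have f4 : exp (p * t ^ 9 * (2 * g : ℕ)) ≤ exp 1 := by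
    refine exp_le_exp.2 ?_
    push_cast
    calc p * t ^ 9 * (2 * g) ≤ p * t ^ 9 * (2 * ((t ^ 10)⁻¹ * N)) := by gcongr
      _ = 2 * (p * N) * t⁻¹ := by field_simp
      _ ≤ 2 * (190 * log t) * t⁻¹ := by gcongr
      _ ≤ t * t⁻¹ := by gcongr; linarith
      _ = 1 := mul_inv_cancel₀ ht0.ne'
  have f5 : (1 + t ^ 100 * (k * (((t ^ 9) ^ 50)⁻¹ * exp (p * t ^ 9 * (2 * g : ℕ))))) ^ (k * N) ≤
      exp (3 * (t ^ 150)⁻¹ * N) := by
    refine (one_add_pow_le (by positivity) _).trans (exp_le_exp.2 ?_)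
    have h3 : exp 1 ≤ 3 := by have := exp_one_lt_d9; linarith
    have h3' := f4.trans h3
    have hkN : (0:ℝ) ≤ ((k * N : ℕ) : ℝ) := Nat.cast_nonneg _
    calc t ^ 100 * (k * (((t ^ 9) ^ 50)⁻¹ * exp (p * t ^ 9 * (2 * g : ℕ)))) * ((k * N : ℕ) : ℝ)
        ≤ t ^ 100 * (k * (((t ^ 9) ^ 50)⁻¹ * 3)) * ((k * N : ℕ) : ℝ) := by
          refine mul_le_mul_of_nonneg_right ?_ hkN
          refine mul_le_mul_of_nonneg_left ?_ (by positivity)
          refine mul_le_mul_of_nonneg_left ?_ (by positivity)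
          exact mul_le_mul_of_nonneg_left h3' (by positivity)
      _ = 3 * (t ^ 150)⁻¹ * N := by
          push_cast
          rw [hk]
          field_simp
  calc ((((t ^ 300)⁻¹) ^ q₀)⁻¹ * (1 + (t ^ 300)⁻¹) ^ (k * N)) * (((t ^ 100) ^ (g - q₀))⁻¹ *
        (1 + t ^ 100 * (k * (((t ^ 9) ^ 50)⁻¹ * exp (p * t ^ 9 * (2 * g : ℕ))))) ^ (k * N))
      ≤ (exp (300 * q₀ * log t) * exp ((t ^ 200)⁻¹ * N)) *
        (exp (-(100 * ((g:ℝ) - q₀) * log t)) * exp (3 * (t ^ 150)⁻¹ * N)) := by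
        rw [f1, f3]
        exact mul_le_mul (mul_le_mul_of_nonneg_left f2 (exp_nonneg _))
          (mul_le_mul_of_nonneg_left f5 (exp_nonneg _)) (by positivity) (by positivity)
    _ = exp (400 * q₀ * log t + (t ^ 200)⁻¹ * N + 3 * (t ^ 150)⁻¹ * N - 100 * g * log t) := by
        rw [← exp_add, ← exp_add, ← exp_add]
        congr 1
        ring
    _ ≤ exp (-((t ^ 300)⁻¹ * N)) := by
        refine exp_le_exp.2 ?_
        have g1 : 400 * q₀ * log t ≤ 5 * (t ^ 199)⁻¹ * N := by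
          calc 400 * q₀ * log t ≤ 400 * (4 * ((t ^ 200)⁻¹ * N)) * log t := by gcongr
            _ = (1600 * log t) * (t ^ 200)⁻¹ * N := by ring
            _ ≤ (5 * t) * (t ^ 200)⁻¹ * N := by
              have : 1600 * log t ≤ 5 * t := by linarith
              exact mul_le_mul_of_nonneg_right (mul_le_mul_of_nonneg_right this (by positivity)) hN
            _ = 5 * (t ^ 199)⁻¹ * N := by
              rw [show t ^ 200 = t ^ 199 * t by ring]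
              field_simp
        have g2 : (t ^ 10)⁻¹ * N ≤ 100 * g * log t := by
          have : (t ^ 10)⁻¹ * N / 2 * 2 ≤ g * (100 * log t) :=
            mul_le_mul hg' (by linarith) (by norm_num) (Nat.cast_nonneg _)
          linarith
        have g3 : ∀ a : ℕ, 11 ≤ a → (t ^ a)⁻¹ ≤ (t ^ 10)⁻¹ / 10 := by
          intro a ha
          have e1 : (t ^ a)⁻¹ ≤ (t ^ 11)⁻¹ :=
            inv_anti₀ (by positivity) (pow_le_pow_right₀ ht1 ha)
          have e2 := t_pow_le ht 10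
          have e3 : (t ^ 10)⁻¹ / 10 ^ 30 ≤ (t ^ 10)⁻¹ / 10 := by
            apply div_le_div_of_nonneg_left (by positivity) (by norm_num) (by norm_num)
          exact e1.trans (e2.trans e3)
        have g4 := mul_le_mul_of_nonneg_right (g3 199 (by norm_num)) hN
        have g5 := mul_le_mul_of_nonneg_right (g3 200 (by norm_num)) hN
        have g6 := mul_le_mul_of_nonneg_right (g3 150 (by norm_num)) hN
        have g7 := mul_le_mul_of_nonneg_right (g3 300 (by norm_num)) hN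
        nlinarith

/-- bound for F4 -/
lemma num_F4 {t p : ℝ} (ht : (10 : ℝ) ^ 30 ≤ t) (N g : ℕ)
    (hp0 : 0 ≤ p) (hpN : 170 * log t ≤ p * N)
    (hg : (g : ℝ) ≤ (t ^ 10)⁻¹ * N) (hg' : (t ^ 10)⁻¹ * N / 2 ≤ g) :
    ((((t ^ 10)⁻¹) ^ (4 * g))⁻¹ * (1 + (t ^ 10)⁻¹) ^ (2 * N)) * (((t ^ 60) ^ g)⁻¹ *
        (1 + t ^ 60 * exp (-(p * (99 / 100) * ((N : ℝ) / 2 - 4 * g)))) ^ (2 * N)) ≤
      exp (-((t ^ 300)⁻¹ * N)) := by
  have ht0 : 0 < t := lt_of_lt_of_le (by positivity) ht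
  have ht1 : 1 ≤ t := by linarith [show (1:ℝ) ≤ 10 ^ 30 by norm_num]
  obtain ⟨hl, hl2⟩ := log_bounds ht
  have hN : (0:ℝ) ≤ N := Nat.cast_nonneg _
  have hpow : ∀ a b : ℕ, (t ^ a) ^ b = exp (a * b * log t) := by
    intro a b
    rw [← pow_mul, show ((a:ℝ) * b * log t) = ((a * b : ℕ) : ℝ) * log t by push_cast; ring,
      exp_nat_mul, exp_log ht0]
  have f1 : (((t ^ 10)⁻¹) ^ (4 * g))⁻¹ = exp (40 * g * log t) := by
    rw [inv_pow, inv_inv, hpow]; push_cast; ring_nf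
  have f2 : (1 + (t ^ 10)⁻¹) ^ (2 * N) ≤ exp (2 * (t ^ 10)⁻¹ * N) := by
    refine (one_add_pow_le (by positivity) _).trans (exp_le_exp.2 (le_of_eq ?_))
    push_cast
    ring
  have f3 : ((t ^ 60) ^ g)⁻¹ = exp (-(60 * g * log t)) := by
    rw [hpow, ← exp_neg]; norm_num
  have hg4 : 4 * (g : ℝ) ≤ N / 100 := by
    have e1 : (t ^ 10)⁻¹ ≤ 1 / 400 := by
      rw [one_div]
      refine inv_anti₀ (by norm_num) ?_
      calc (400:ℝ) ≤ 10 ^ 30 := by norm_num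
        _ ≤ t := ht
        _ ≤ t ^ 10 := le_self_pow₀ ht1 (by norm_num)
    nlinarith [mul_le_mul_of_nonneg_right e1 hN]
  have f4 : exp (-(p * (99 / 100) * ((N : ℝ) / 2 - 4 * g))) ≤ (t ^ 80)⁻¹ := by
    have e1 : (t ^ 80)⁻¹ = exp (-(80 * log t)) := by
      rw [exp_neg, show (80 : ℝ) * log t = ((80 : ℕ) : ℝ) * log t by norm_num, exp_nat_mul,
        exp_log ht0]
    rw [e1]
    refine exp_le_exp.2 (neg_le_neg ?_)
    have h3 : p * (99/100) * ((49 / 100 : ℝ) * N) ≤ p * (99 / 100) * ((N : ℝ) / 2 - 4 * g) :=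
      mul_le_mul_of_nonneg_left (by linarith) (by positivity)
    nlinarith
  have f5 : (1 + t ^ 60 * exp (-(p * (99 / 100) * ((N : ℝ) / 2 - 4 * g)))) ^ (2 * N) ≤
      exp (2 * (t ^ 20)⁻¹ * N) := by
    refine (one_add_pow_le (by positivity) _).trans (exp_le_exp.2 ?_)
    calc t ^ 60 * exp (-(p * (99 / 100) * ((N : ℝ) / 2 - 4 * g))) * ((2 * N : ℕ) : ℝ)
        ≤ t ^ 60 * (t ^ 80)⁻¹ * ((2 * N : ℕ) : ℝ) := by gcongr
      _ = 2 * (t ^ 20)⁻¹ * N := by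
          push_cast
          rw [show t ^ 80 = t ^ 60 * t ^ 20 by ring]
          field_simp
  calc ((((t ^ 10)⁻¹) ^ (4 * g))⁻¹ * (1 + (t ^ 10)⁻¹) ^ (2 * N)) * (((t ^ 60) ^ g)⁻¹ *
        (1 + t ^ 60 * exp (-(p * (99 / 100) * ((N : ℝ) / 2 - 4 * g)))) ^ (2 * N))
      ≤ (exp (40 * g * log t) * exp (2 * (t ^ 10)⁻¹ * N)) *
        (exp (-(60 * g * log t)) * exp (2 * (t ^ 20)⁻¹ * N)) := by
        rw [f1, f3]
        exact mul_le_mul (mul_le_mul_of_nonneg_left f2 (exp_nonneg _))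
          (mul_le_mul_of_nonneg_left f5 (exp_nonneg _)) (by positivity) (by positivity)
    _ = exp (2 * (t ^ 10)⁻¹ * N + 2 * (t ^ 20)⁻¹ * N - 20 * g * log t) := by
        rw [← exp_add, ← exp_add, ← exp_add]
        congr 1
        ring
    _ ≤ exp (-((t ^ 300)⁻¹ * N)) := by
        refine exp_le_exp.2 ?_
        have g2 : 5 * ((t ^ 10)⁻¹ * N) ≤ 20 * g * log t := by
          have : (t ^ 10)⁻¹ * N / 2 * 10 ≤ g * (20 * log t) :=
            mul_le_mul hg' (by linarith) (by norm_num) (Nat.cast_nonneg _)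
          linarith
        have g3 : ∀ a : ℕ, 11 ≤ a → (t ^ a)⁻¹ ≤ (t ^ 10)⁻¹ := by
          intro a ha
          exact inv_anti₀ (by positivity) (pow_le_pow_right₀ ht1 (by omega))
        have g5 := mul_le_mul_of_nonneg_right (g3 20 (by norm_num)) hN
        have g7 := mul_le_mul_of_nonneg_right (g3 300 (by norm_num)) hN
        nlinarith

end Pool.Agent.H982R2.BL
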