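import Pool.Agent.H982R2.BLPl
import Pool.Agent.H982R2.BLNum

/-! The planted model is robustly bilinked. -/

set_option autoImplicit false

namespace Pool.Agent.H982R2.BL

open Finset Classical

noncomputable section

/-- deterministic conclusion: if none of the four bad events happens then `Rob` holds -/
lemma rob_of_good {k N : ℕ} (σ : Fin (k * N) → Fin k) (hN : ∀ i, (cl σ i).card = N)
    (η : ℝ) (G : Finset (Pr (k * N))) (D₀ y₁ y₂ g q₀ : ℕ)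
    (hy1 : y₁ ≤ g) (hη : η * N ≤ y₂) (hq : y₂ + k * y₂ ≤ q₀) (hqg : q₀ ≤ g) (h4g : 4 * g < N)
    (F1 : ∀ j, ¬ (y₁ ≤ (Zb σ (2 * D₀) G ∅ ∩ cl σ j).card))
    (F2 : ∀ i, ∀ S ∈ powersetCard y₂ (cl σ i),
      ¬ (∀ v ∈ S, ∃ j, j ≠ σ v ∧ 2 * D₀ ≤ dg G v (Zb σ (2 * D₀) G S ∩ cl σ j)))
    (F3 : ¬ ∃ Q T : Finset (Fin (k * N)), Q.card ≤ q₀ ∧
      (∀ v ∈ T \ Q, ∃ j, j ≠ σ v ∧ 2 * D₀ ≤ dg G v (T ∩ cl σ j)) ∧
      (∀ j, (T ∩ cl σ j).card ≤ 2 * g) ∧ (∃ j, g < (T ∩ cl σ j).card))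
    (F4 : ∀ i j, i ≠ j → ¬ ∃ W C : Finset (Fin (k * N)), W ⊆ cl σ i ∪ cl σ j ∧
      ((cl σ i ∪ cl σ j) \ W).card ≤ 4 * g ∧ C ⊆ W ∧ g ≤ C.card ∧ 2 * C.card ≤ W.card ∧
      (∀ u ∈ C, ∀ w ∈ W \ C, ¬ (gr G).Adj u w)) : Rob η σ G := by
  intro R hR
  have hbad : bad1 σ (2 * D₀) G = Zb σ (2 * D₀) G ∅ := by
    simp [bad1, Zb]
  have hdef : ∀ i, (def1 σ (2 * D₀) G ∩ cl σ i).card ≤ y₂ := by
    intro i
    by_contra hcon
    push Not at hcon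
    obtain ⟨S, hS, hSc⟩ := Finset.exists_subset_card_eq hcon.le
    have hSi : S ⊆ cl σ i := hS.trans Finset.inter_subset_right
    refine F2 i S (Finset.mem_powersetCard.2 ⟨hSi, hSc⟩) ?_
    intro v hv
    exact def1_spec σ (2 * D₀) G S (Finset.mem_inter.1 (hS hv)).1
  refine det σ G N g q₀ (2 * D₀) R hN ?_ ?_ hqg h4g ?_ ?_
  · intro j
    rw [hbad]
    have := F1 j
    omega
  · have h1 : R.card ≤ y₂ := by
      have : (R.card : ℝ) ≤ y₂ := hR.trans hη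
      exact_mod_cast this
    have h2 : (def1 σ (2 * D₀) G).card ≤ k * y₂ := by
      have h3 : (def1 σ (2 * D₀) G) ⊆
          (univ : Finset (Fin k)).biUnion fun i => def1 σ (2 * D₀) G ∩ cl σ i := by
        intro v hv
        rw [Finset.mem_biUnion]
        exact ⟨σ v, Finset.mem_univ _, Finset.mem_inter.2 ⟨hv, mem_cl.2 rfl⟩⟩
      refine (Finset.card_le_card h3).trans ?_
      refine (Finset.card_biUnion_le_card_mul _ _ y₂ fun i _ => hdef i).trans ?_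
      simp
    have := Finset.card_union_le R (def1 σ (2 * D₀) G)
    omega
  · intro Q T h1 h2 h3 h4
    exact F3 ⟨Q, T, h1, h2, h3, h4⟩
  · intro i j hij W C h1 h2 h3 h4 h5 h6
    exact F4 i j hij ⟨W, C, h1, h2, h3, h4, h5, h6⟩

/-- union bound over all bad events -/
lemma P_not_rob {k N : ℕ} (hk : 0 < k) {p : ℝ} (hp0 : 0 ≤ p) (hp1 : p ≤ 1)
    (σ : Fin (k * N) → Fin k) (hN : ∀ i, (cl σ i).card = N)
    (η : ℝ) (D₀ y₁ y₂ g q₀ : ℕ)
    (hy1 : y₁ ≤ g) (hη : η * N ≤ y₂) (hq : y₂ + k * y₂ ≤ q₀) (hqg : q₀ ≤ g) (h4g : 4 * g < N)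
    {x₁ x₂ x₃ y₃ z₃ y₄ z₄ : ℝ} (hx10 : 0 < x₁) (hx1 : x₁ ≤ 1) (hx2 : 1 ≤ x₂) (hx3 : 1 ≤ x₃)
    (hy3 : 1 ≤ y₃) (hz30 : 0 < z₃) (hz3 : z₃ ≤ 1) (hy4 : 1 ≤ y₄) (hz40 : 0 < z₄) (hz4 : z₄ ≤ 1)
    (a₁ a₂ a₃ a₄ : ℝ)
    (h1 : (N.choose y₁ : ℝ) * (k * ((x₁ ^ (2 * (2 * D₀)))⁻¹ *
      Real.exp (-(p * (1 - x₁) * ((N : ℝ) - y₂))))) ^ y₁ ≤ a₁)
    (h2 : (N.choose y₂ : ℝ) * (k * ((x₂ ^ D₀)⁻¹ * Real.exp (p * x₂ * y₁))) ^ y₂ ≤ a₂)
    (h3 : ((z₃ ^ q₀)⁻¹ * (1 + z₃) ^ (k * N)) * ((y₃ ^ (g - q₀))⁻¹ *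
        (1 + y₃ * (k * ((x₃ ^ D₀)⁻¹ * Real.exp (p * x₃ * (2 * g : ℕ))))) ^ (k * N)) ≤ a₃)
    (h4 : ((z₄ ^ (4 * g))⁻¹ * (1 + z₄) ^ (2 * N)) * ((y₄ ^ g)⁻¹ *
        (1 + y₄ * Real.exp (-(p * (99 / 100) * ((N : ℝ) / 2 - 4 * g)))) ^ (2 * N)) ≤ a₄) :
    P p (univ \ mono σ) {S | ¬ Rob η σ S} ≤
      k * a₁ + k * ((N.choose y₂ : ℝ) * (k * a₁) + a₂) + a₃ + k * k * a₄ := by
  set E : Finset (Pr (k * N)) := univ \ mono σ with hE
  have ha1 : 0 ≤ a₁ := le_trans (by positivity) h1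
  have ha4 : 0 ≤ a₄ := le_trans (by positivity) h4
  let A1 : Set (Finset (Pr (k * N))) := {G | ∃ j ∈ (univ : Finset (Fin k)),
    G ∈ {G : Finset (Pr (k * N)) | y₁ ≤ (Zb σ (2 * D₀) G ∅ ∩ cl σ j).card}}
  let I2 : Finset (Fin k × Finset (Fin (k * N))) :=
    (univ : Finset (Fin k)).biUnion fun i => (powersetCard y₂ (cl σ i)).image fun S => (i, S)
  let A2 : Set (Finset (Pr (k * N))) := {G | ∃ i ∈ (univ : Finset (Fin k)),
    G ∈ {G : Finset (Pr (k * N)) | ∃ S ∈ powersetCard y₂ (cl σ i),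
      G ∈ {G : Finset (Pr (k * N)) | ∀ v ∈ S, ∃ j, j ≠ σ v ∧
        2 * D₀ ≤ dg G v (Zb σ (2 * D₀) G S ∩ cl σ j)}}}
  let A3 : Set (Finset (Pr (k * N))) := {G | ∃ Q T : Finset (Fin (k * N)), Q.card ≤ q₀ ∧
      (∀ v ∈ T \ Q, ∃ j, j ≠ σ v ∧ 2 * D₀ ≤ dg G v (T ∩ cl σ j)) ∧
      (∀ j, (T ∩ cl σ j).card ≤ 2 * g) ∧ (∃ j, g < (T ∩ cl σ j).card)}
  let A4 : Set (Finset (Pr (k * N))) := {G | ∃ ij ∈ (univ : Finset (Fin k × Fin k)).filter
      (fun ij => ij.1 ≠ ij.2),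
    G ∈ {G : Finset (Pr (k * N)) | ∃ W C : Finset (Fin (k * N)), W ⊆ cl σ ij.1 ∪ cl σ ij.2 ∧
      ((cl σ ij.1 ∪ cl σ ij.2) \ W).card ≤ 4 * g ∧ C ⊆ W ∧ g ≤ C.card ∧ 2 * C.card ≤ W.card ∧
      (∀ u ∈ C, ∀ w ∈ W \ C, ¬ (gr G).Adj u w)}}
  have hZb : ∀ (G : Finset (Pr (k * N))) (S' : Finset (Fin (k * N))) (j : Fin k),
      Zb σ (2 * D₀) G S' ∩ cl σ j = (cl σ j).filter fun w =>
        ∃ l, l ≠ σ w ∧ dg G w (cl σ l \ S') < 2 * (2 * D₀) := by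
    intro G S' j
    ext w
    simp only [Zb, Finset.mem_inter, Finset.mem_filter, Finset.mem_univ, true_and]
    tauto
  have low : ∀ (S' : Finset (Fin (k * N))) (j : Fin k), S'.card ≤ y₂ →
      P p E {G | y₁ ≤ (Zb σ (2 * D₀) G S' ∩ cl σ j).card} ≤ a₁ := by
    intro S' j hS'
    have := P_lowdeg hp0 hp1 hk σ N hN S' j y₁ y₂ (2 * D₀) hS' hx10 hx1
    simp only [hZb]
    exact this.trans h1
  have B1 : P p E A1 ≤ k * a₁ := by
    refine (P_union hp0 hp1 E _ _).trans ?_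
    refine (Finset.sum_le_sum fun j _ => low ∅ j (by simp)).trans ?_
    simp
  have B2 : P p E A2 ≤ k * ((N.choose y₂ : ℝ) * (k * a₁) + a₂) := by
    refine (P_union hp0 hp1 E _ _).trans ?_
    have : ∀ i ∈ (univ : Finset (Fin k)), P p E {G : Finset (Pr (k * N)) |
        ∃ S ∈ powersetCard y₂ (cl σ i), G ∈ {G : Finset (Pr (k * N)) | ∀ v ∈ S, ∃ j, j ≠ σ v ∧
        2 * D₀ ≤ dg G v (Zb σ (2 * D₀) G S ∩ cl σ j)}} ≤
        (N.choose y₂ : ℝ) * (k * a₁) + a₂ := by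
      intro i _
      refine (P_union hp0 hp1 E _ _).trans ?_
      have h5 : ∀ S ∈ powersetCard y₂ (cl σ i), P p E {G : Finset (Pr (k * N)) |
          ∀ v ∈ S, ∃ j, j ≠ σ v ∧ 2 * D₀ ≤ dg G v (Zb σ (2 * D₀) G S ∩ cl σ j)} ≤
          k * a₁ + (k * ((x₂ ^ D₀)⁻¹ * Real.exp (p * x₂ * y₁))) ^ y₂ := by
        intro S hS
        obtain ⟨hS1, hS2⟩ := Finset.mem_powersetCard.1 hS
        have := P_F2 hp0 hp1 hk σ i S hS1 y₁ D₀ (2 * D₀) hx2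
        rw [hS2] at this
        refine this.trans (add_le_add ?_ le_rfl)
        refine (Finset.sum_le_sum fun j _ => low S j hS2.le).trans ?_
        simp
      refine (Finset.sum_le_sum h5).trans ?_
      rw [Finset.sum_const, Finset.card_powersetCard, hN, nsmul_eq_mul, mul_add]
      exact add_le_add le_rfl h2
    refine (Finset.sum_le_sum this).trans ?_
    rw [Finset.sum_const, Finset.card_univ, Fintype.card_fin, nsmul_eq_mul]
  have B3 : P p E A3 ≤ a₃ := (P_F3 hp0 hp1 hk σ q₀ g D₀ hx3 hy3 hz30 hz3).trans h3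
  have B4 : P p E A4 ≤ k * k * a₄ := by
    refine (P_union hp0 hp1 E _ _).trans ?_
    have : ∀ ij ∈ (univ : Finset (Fin k × Fin k)).filter (fun ij => ij.1 ≠ ij.2), _ ≤ a₄ :=
      fun ij hij => (P_F4 hp0 hp1 σ N hN ij.1 ij.2 (Finset.mem_filter.1 hij).2 g hy4 hz40 hz4).trans
        h4
    refine (Finset.sum_le_sum this).trans ?_
    rw [Finset.sum_const, nsmul_eq_mul]
    refine mul_le_mul_of_nonneg_right ?_ ha4
    have : ((univ : Finset (Fin k × Fin k)).filter (fun ij => ij.1 ≠ ij.2)).card ≤ k * k := by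
      refine (Finset.card_filter_le _ _).trans ?_
      simp
    exact_mod_cast this
  have hmain : P p E {S | ¬ Rob η σ S} ≤ P p E {G | G ∈ {G | G ∈ {G | G ∈ A1 ∨ G ∈ A2} ∨ G ∈ A3}
      ∨ G ∈ A4} := by
    refine P_mono hp0 hp1 E ?_
    intro G _ hG
    by_contra hcon
    simp only [Set.mem_ofPred_eq, not_or] at hcon
    obtain ⟨⟨⟨c1, c2⟩, c3⟩, c4⟩ := hcon
    rw [Set.mem_ofPred] at hG
    apply hG
    refine rob_of_good σ hN η G D₀ y₁ y₂ g q₀ hy1 hη hq hqg h4g ?_ ?_ ?_ ?_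
    · intro j hj
      exact c1 (by rw [Set.mem_ofPred]; exact ⟨j, Finset.mem_univ _, by rw [Set.mem_ofPred]; exact hj⟩)
    · intro i S hS hv
      apply c2
      rw [Set.mem_ofPred]
      refine ⟨i, Finset.mem_univ _, ?_⟩
      rw [Set.mem_ofPred]
      refine ⟨S, hS, ?_⟩
      rw [Set.mem_ofPred]
      exact hv
    · intro h
      exact c3 (by rw [Set.mem_ofPred]; exact h)
    · intro i j hij h
      apply c4
      rw [Set.mem_ofPred]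
      refine ⟨(i, j), ?_, ?_⟩
      · simp [hij]
      · rw [Set.mem_ofPred]
        exact h
  have u1 := P_union2 hp0 hp1 E {G | G ∈ {G | G ∈ A1 ∨ G ∈ A2} ∨ G ∈ A3} A4
  have u2 := P_union2 hp0 hp1 E {G | G ∈ A1 ∨ G ∈ A2} A3
  have u3 := P_union2 hp0 hp1 E A1 A2
  linarith

set_option maxHeartbeats 4000000 in
theorem planted : ∃ k₀ : ℕ, ∀ k : ℕ, k₀ ≤ k → ∃ η : ℝ, 0 < η ∧ ∃ ε : ℝ, 0 < ε ∧ ∃ N₀ : ℕ,
    ∀ N : ℕ, N₀ ≤ N → ∀ p : ℝ, 17 / 10 * Real.log k ≤ p * N → p * N ≤ 19 / 10 * Real.log k →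
      ∀ σ ∈ Bal k N, P p (univ \ mono σ) {S | ¬ Rob η σ S} ≤ Real.exp (-ε * N) := by
  refine ⟨10 ^ 3000, fun k hk => ?_⟩
  have hkR : ((10:ℝ) ^ 30) ^ 100 ≤ k := by
    have : ((10 ^ 3000 : ℕ) : ℝ) ≤ k := by exact_mod_cast hk
    rw [← pow_mul]
    push_cast at this
    exact this
  have hk0R : (0:ℝ) < k := lt_of_lt_of_le (by positivity) hkR
  have hk0 : 0 < k := by exact_mod_cast hk0R
  obtain ⟨t, ht0, htk⟩ : ∃ t : ℝ, 0 ≤ t ∧ t ^ 100 = k := by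
    refine ⟨(k : ℝ) ^ ((1:ℝ) / 100), by positivity, ?_⟩
    rw [← Real.rpow_natCast, ← Real.rpow_mul hk0R.le]
    norm_num
  have ht : (10:ℝ) ^ 30 ≤ t := by
    rw [← htk] at hkR
    exact le_of_pow_le_pow_left₀ (by norm_num) ht0 hkR
  have htpos : 0 < t := lt_of_lt_of_le (by positivity) ht
  have ht1 : 1 ≤ t := by linarith [show (1:ℝ) ≤ 10 ^ 30 by norm_num]
  obtain ⟨hl, hl2⟩ := log_bounds ht
  have hlogk : Real.log k = 100 * Real.log t := by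
    rw [← htk, Real.log_pow]; norm_num
  set δ : ℝ := (t ^ 300)⁻¹ with hδ
  have hδ0 : 0 < δ := by positivity
  refine ⟨δ, hδ0, δ / 2, by positivity, ?_⟩
  -- choose N₀
  obtain ⟨N₀, hN₀⟩ := exists_nat_ge (max (t ^ 300) ((2 / δ) * Real.log (5 * k * k * k)))
  refine ⟨N₀, fun N hN p hp1 hp2 σ hσ => ?_⟩
  have hNR : (N₀ : ℝ) ≤ N := by exact_mod_cast hN
  have hNt : t ^ 300 ≤ N := (le_max_left _ _).trans (hN₀.trans hNR)
  have hNlog : (2 / δ) * Real.log (5 * k * k * k) ≤ N := (le_max_right _ _).trans (hN₀.trans hNR)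
  have hNpos : (0:ℝ) < N := lt_of_lt_of_le (by positivity) hNt
  rw [hlogk] at hp1 hp2
  have hp1' : 170 * Real.log t ≤ p * N := by linarith
  have hp2' : p * N ≤ 190 * Real.log t := by linarith
  have hp0 : 0 ≤ p := by
    by_contra h
    push Not at h
    have : p * N < 0 := mul_neg_of_neg_of_pos h hNpos
    linarith
  have hpone : p ≤ 1 := by
    have h1 : p * N ≤ 1 * N := by
      refine hp2'.trans ?_
      rw [one_mul]
      refine le_trans ?_ hNt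
      refine le_trans ?_ (le_self_pow₀ ht1 (by norm_num))
      linarith
    exact le_of_mul_le_mul_right h1 hNpos
  have hcl : ∀ i, (cl σ i).card = N := by
    intro i
    have := (Finset.mem_filter.1 hσ).2 i
    exact this
  -- parameters
  set y₁ : ℕ := ⌈(t ^ 50)⁻¹ * N⌉₊ with hy₁
  set y₂ : ℕ := ⌈δ * N⌉₊ with hy₂
  set g : ℕ := ⌊(t ^ 10)⁻¹ * N⌋₊ with hg
  set q₀ : ℕ := y₂ + k * y₂ with hq₀
  have inv_ge_one : ∀ a : ℕ, a ≤ 300 → 1 ≤ (t ^ a)⁻¹ * N := by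
    intro a ha
    rw [inv_mul_eq_div, le_div_iff₀ (by positivity), one_mul]
    exact (pow_le_pow_right₀ ht1 ha).trans hNt
  have y1lo : (t ^ 50)⁻¹ * N ≤ y₁ := Nat.le_ceil _
  have y1hi : (y₁ : ℝ) ≤ 2 * ((t ^ 50)⁻¹ * N) := by
    have := Nat.ceil_lt_add_one (show 0 ≤ (t ^ 50)⁻¹ * (N:ℝ) by positivity)
    have h1 := inv_ge_one 50 (by norm_num)
    linarith
  have y2lo : δ * N ≤ y₂ := Nat.le_ceil _
  have y2hi : (y₂ : ℝ) ≤ 2 * (δ * N) := by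
    have := Nat.ceil_lt_add_one (show 0 ≤ δ * (N:ℝ) by positivity)
    have h1 := inv_ge_one 300 (by norm_num)
    linarith
  have ghi : (g : ℝ) ≤ (t ^ 10)⁻¹ * N := Nat.floor_le (by positivity)
  have inv_small : ∀ a b : ℕ, a < b → (t ^ b)⁻¹ ≤ (t ^ a)⁻¹ / 10 ^ 30 := by
    intro a b hab
    refine le_trans ?_ (t_pow_le ht a)
    exact inv_anti₀ (by positivity) (pow_le_pow_right₀ ht1 hab)
  have glo : (t ^ 10)⁻¹ * N / 2 ≤ g := by
    have h1 := Nat.sub_one_lt_floor ((t ^ 10)⁻¹ * (N:ℝ))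
    have h2 : (2:ℝ) ≤ (t ^ 10)⁻¹ * N := by
      have h3 := inv_ge_one 11 (by norm_num)
      have h4 := inv_small 10 11 (by norm_num)
      have h5 : (t ^ 11)⁻¹ * (N:ℝ) ≤ (t ^ 10)⁻¹ / 10 ^ 30 * N :=
        mul_le_mul_of_nonneg_right h4 hNpos.le
      have h6 : (t ^ 10)⁻¹ / 10 ^ 30 * (N:ℝ) = ((t ^ 10)⁻¹ * N) / 10 ^ 30 := by ring
      rw [h6] at h5
      have h7 : (10:ℝ) ^ 30 ≤ (t ^ 10)⁻¹ * N := by
        have := h3.trans h5
        rwa [le_div_iff₀ (by positivity), one_mul] at this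
      linarith [show (2:ℝ) ≤ 10 ^ 30 by norm_num]
    linarith
  have hq₀R : (q₀ : ℝ) ≤ 4 * ((t ^ 200)⁻¹ * N) := by
    rw [hq₀]
    push_cast
    have h1 : (k : ℝ) * (δ * N) = (t ^ 200)⁻¹ * N := by
      rw [← htk, hδ]
      field_simp
    have h2 : δ * (N:ℝ) ≤ (t ^ 200)⁻¹ * N := by
      refine mul_le_mul_of_nonneg_right ?_ hNpos.le
      exact inv_anti₀ (by positivity) (pow_le_pow_right₀ ht1 (by norm_num))
    have h3 := mul_le_mul_of_nonneg_left y2hi hk0R.le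
    have h4 : (k:ℝ) * (2 * (δ * N)) = 2 * (k * (δ * N)) := by ring
    linarith
  have hqg : q₀ ≤ g := by
    have : (q₀ : ℝ) ≤ g := by
      refine hq₀R.trans (le_trans ?_ glo)
      have e1 := inv_small 10 200 (by norm_num)
      have e2 : 0 < (t ^ 10)⁻¹ := by positivity
      have e3 : 4 * (t ^ 200)⁻¹ ≤ (t ^ 10)⁻¹ / 2 := by
        have : (t ^ 10)⁻¹ / 10 ^ 30 ≤ (t ^ 10)⁻¹ / 8 := by
          apply div_le_div_of_nonneg_left e2.le (by norm_num) (by norm_num)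
        linarith
      have e4 := mul_le_mul_of_nonneg_right e3 hNpos.le
      linarith
    exact_mod_cast this
  have hy1g : y₁ ≤ g := by
    have : (y₁ : ℝ) ≤ g := by
      refine y1hi.trans (le_trans ?_ glo)
      have e1 := inv_small 10 50 (by norm_num)
      have e2 : 0 < (t ^ 10)⁻¹ := by positivity
      have e3 : 2 * (t ^ 50)⁻¹ ≤ (t ^ 10)⁻¹ / 2 := by
        have : (t ^ 10)⁻¹ / 10 ^ 30 ≤ (t ^ 10)⁻¹ / 8 := by
          apply div_le_div_of_nonneg_left e2.le (by norm_num) (by norm_num)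
        linarith
      have e4 := mul_le_mul_of_nonneg_right e3 hNpos.le
      linarith
    exact_mod_cast this
  have inv_le : ∀ a : ℕ, 1 ≤ a → (t ^ a)⁻¹ ≤ 1 / 1000 := by
    intro a ha
    rw [one_div]
    refine inv_anti₀ (by norm_num) ?_
    calc (1000:ℝ) ≤ 10 ^ 30 := by norm_num
      _ ≤ t := ht
      _ ≤ t ^ a := le_self_pow₀ ht1 (by omega)
  have h4g : 4 * g < N := by
    have : (4 * g : ℝ) < N := by
      have := mul_le_mul_of_nonneg_right (inv_le 10 (by norm_num)) hNpos.le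
      linarith
    exact_mod_cast this
  have hy2N : (y₂ : ℝ) ≤ N / 100 := by
    have := mul_le_mul_of_nonneg_right (inv_le 300 (by norm_num)) hNpos.le
    linarith
  -- numeric bounds
  have n1 := num_F1 ht N y₁ y₂ hp0 hp1' y1lo hy2N
  have n2a := num_F2a ht N y₁ y₂ y1lo y2lo y2hi
  have n2b := num_F2b ht N y₁ y₂ hp0 hp2' y1hi y2lo
  have n3 := num_F3 ht N k q₀ g htk.symm hp0 hp2' ghi glo hq₀R
  have n4 := num_F4 ht N g hp0 hp1' ghi glo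
  rw [htk] at n1 n2b
  have hx2 : (1:ℝ) ≤ t ^ 25 := one_le_pow₀ ht1
  have hx3 : (1:ℝ) ≤ t ^ 9 := one_le_pow₀ ht1
  have hy3 : (1:ℝ) ≤ t ^ 100 := one_le_pow₀ ht1
  have hy4 : (1:ℝ) ≤ t ^ 60 := one_le_pow₀ ht1
  have hz3 : (t ^ 300)⁻¹ ≤ 1 := (inv_le 300 (by norm_num)).trans (by norm_num)
  have hz4 : (t ^ 10)⁻¹ ≤ 1 := (inv_le 10 (by norm_num)).trans (by norm_num)
  have main := P_not_rob hk0 hp0 hpone σ hcl δ 50 y₁ y₂ g q₀ hy1g y2lo le_rfl hqg h4g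
    (x₁ := 1 / 100) (x₂ := t ^ 25) (x₃ := t ^ 9) (y₃ := t ^ 100) (z₃ := (t ^ 300)⁻¹)
    (y₄ := t ^ 60) (z₄ := (t ^ 10)⁻¹)
    (by norm_num) (by norm_num) hx2 hx3 hy3 (by positivity) hz3 hy4 (by positivity) hz4
    (Real.exp (-(y₁ : ℝ))) (Real.exp (-((t ^ 300)⁻¹ * N))) (Real.exp (-((t ^ 300)⁻¹ * N)))
    (Real.exp (-((t ^ 300)⁻¹ * N))) n1 n2b n3 n4
  refine main.trans ?_
  set a : ℝ := Real.exp (-((t ^ 300)⁻¹ * N)) with ha
  have ha0 : 0 < a := Real.exp_pos _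
  have hb : Real.exp (-(y₁ : ℝ)) ≤ a := by
    refine Real.exp_le_exp.2 (neg_le_neg (le_trans ?_ y1lo))
    refine mul_le_mul_of_nonneg_right ?_ hNpos.le
    exact inv_anti₀ (by positivity) (pow_le_pow_right₀ ht1 (by norm_num))
  have hk1 : (1:ℝ) ≤ k := by exact_mod_cast hk0
  have hstep : (k:ℝ) * Real.exp (-(y₁ : ℝ)) + k * ((N.choose y₂ : ℝ) * (k * Real.exp (-(y₁ : ℝ))) + a)
      + a + k * k * a ≤ (5 * k * k * k) * a := by
    have e1 : (k:ℝ) * Real.exp (-(y₁ : ℝ)) ≤ k * a := mul_le_mul_of_nonneg_left hb hk0R.le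
    have e2 : (N.choose y₂ : ℝ) * (k * Real.exp (-(y₁ : ℝ))) ≤ k * a := by
      calc (N.choose y₂ : ℝ) * (k * Real.exp (-(y₁ : ℝ))) =
          k * ((N.choose y₂ : ℝ) * Real.exp (-(y₁ : ℝ))) := by ring
        _ ≤ k * a := mul_le_mul_of_nonneg_left n2a hk0R.le
    have e3 : (k:ℝ) * ((N.choose y₂ : ℝ) * (k * Real.exp (-(y₁ : ℝ))) + a) ≤ k * (k * a + a) :=
      mul_le_mul_of_nonneg_left (by linarith) hk0R.le
    have k2 : (1:ℝ) ≤ k * k := one_le_mul_of_one_le_of_one_le hk1 hk1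
    have k3 : (k:ℝ) * k ≤ k * k * k := le_mul_of_one_le_right (by positivity) hk1
    have k4 : (k:ℝ) ≤ k * k := le_mul_of_one_le_right hk0R.le hk1
    have f1 : (k:ℝ) * a ≤ (k * k * k) * a := mul_le_mul_of_nonneg_right (by linarith) ha0.le
    have f2 : (k:ℝ) * k * a ≤ (k * k * k) * a := mul_le_mul_of_nonneg_right k3 ha0.le
    have f3 : a ≤ (k * k * k) * a := by
      have : 1 * a ≤ (k * k * k) * a := mul_le_mul_of_nonneg_right (by linarith) ha0.le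
      linarith
    linarith
  refine hstep.trans ?_
  have hc0 : (0:ℝ) < 5 * k * k * k := by positivity
  have hlog : Real.log (5 * k * k * k) ≤ δ / 2 * N := by
    have := mul_le_mul_of_nonneg_left hNlog (show 0 ≤ δ / 2 by positivity)
    calc Real.log (5 * k * k * k) = δ / 2 * (2 / δ * Real.log (5 * k * k * k)) := by
          field_simp
      _ ≤ _ := this
  calc (5 * k * k * k) * a = Real.exp (Real.log (5 * k * k * k)) * Real.exp (-(δ * N)) := by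
        rw [Real.exp_log hc0]
    _ = Real.exp (Real.log (5 * k * k * k) - δ * N) := by rw [← Real.exp_add]; ring_nf
    _ ≤ Real.exp (-(δ / 2) * N) := Real.exp_le_exp.2 (by linarith)

end

end Pool.Agent.H982R2.BL
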