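import Pool.Agent.H982R2.BLBlowup
import Pool.Agent.H982R2.BLTransfer
import Pool.Agent.H982R2.BLSecond
import Pool.Agent.H982R2.BLColour
import Pool.Agent.H982R2.BLPlanted

/-!
# Assembly A2 (helper461): bilinked collections appear with high probability
-/

set_option autoImplicit false

namespace Pool.Agent.H982R2.BL

open Finset Classical Filter

/-- bilinked k-collection -/
def Bil {n : ℕ} (k : ℕ) (H : SimpleGraph (Fin n)) : Prop :=
  ∃ V : Fin k → Finset (Fin n), (∀ i, (V i).Nonempty) ∧ (∀ i j, i ≠ j → Disjoint (V i) (V j)) ∧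
    (∀ i, H.IsIndepSet ((V i : Finset (Fin n)) : Set (Fin n))) ∧
    (∀ i j, i ≠ j → (H.induce ((V i ∪ V j : Finset (Fin n)) : Set (Fin n))).Connected)

namespace BilA

/-- the robust property with an arbitrary bound `s` on the number of deleted vertices -/
def RobG {n k : ℕ} (s : ℝ) (σ : Fin n → Fin k) (S : Finset (Pr n)) : Prop :=
  ∀ R : Finset (Fin n), (R.card : ℝ) ≤ s →
    ∃ W : Fin k → Finset (Fin n),
      (∀ i, (W i).Nonempty) ∧ (∀ i, ∀ v ∈ W i, σ v = i ∧ v ∉ R) ∧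
      ∀ i j, i ≠ j →
        ((gr S).induce ((W i ∪ W j : Finset (Fin n)) : Set (Fin n))).Connected

lemma combine {k n : ℕ} (G H : Finset (Pr n)) (R : Finset (Fin n)) (σ : Fin n → Fin k) (s : ℝ)
    (hR : (R.card : ℝ) ≤ s) (hσ : Disjoint H (mono σ)) (hrob : RobG s σ H)
    (hGH : ∀ e : Pr n, (∀ v ∈ R, v ∉ e.1) → (e ∈ G ↔ e ∈ H)) : Bil k (gr G) := by
  obtain ⟨W, h1, h2, h3⟩ := hrob R hR
  have hadj : ∀ v w : Fin n, v ∉ R → w ∉ R → ((gr G).Adj v w ↔ (gr H).Adj v w) := by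
    intro v w hv hw
    rw [gr, gr, SimpleGraph.fromEdgeSet_adj, SimpleGraph.fromEdgeSet_adj]
    have key : ∀ hd : ¬ (s(v, w) : Sym2 (Fin n)).IsDiag,
        ((⟨s(v, w), hd⟩ : Pr n) ∈ G ↔ (⟨s(v, w), hd⟩ : Pr n) ∈ H) := by
      intro hd
      apply hGH
      intro x hx hmem
      rcases Sym2.mem_iff.mp hmem with rfl | rfl
      · exact hv hx
      · exact hw hx
    constructor
    · rintro ⟨⟨hd, h⟩, hne⟩
      exact ⟨⟨hd, (key hd).mp h⟩, hne⟩
    · rintro ⟨⟨hd, h⟩, hne⟩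
      exact ⟨⟨hd, (key hd).mpr h⟩, hne⟩
  refine ⟨W, h1, ?_, ?_, ?_⟩
  · intro i j hij
    rw [Finset.disjoint_left]
    intro v hv hv'
    exact hij ((h2 i v hv).1.symm.trans (h2 j v hv').1)
  · intro i v hv w hw hne hvw
    have hv' := h2 i v hv
    have hw' := h2 i w hw
    rw [hadj v w hv'.2 hw'.2, gr, SimpleGraph.fromEdgeSet_adj] at hvw
    obtain ⟨⟨hd, hH⟩, _⟩ := hvw
    have h4 : (⟨s(v, w), hd⟩ : Pr n) ∈ mono σ := by
      rw [mono, Finset.mem_filter]
      refine ⟨Finset.mem_univ _, i, ?_⟩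
      intro x hx
      rcases Sym2.mem_iff.mp hx with rfl | rfl
      · exact hv'.1
      · exact hw'.1
    exact Finset.disjoint_left.mp hσ hH h4
  · intro i j hij
    have h5 : (gr G).induce ((W i ∪ W j : Finset (Fin n)) : Set (Fin n)) =
        (gr H).induce ((W i ∪ W j : Finset (Fin n)) : Set (Fin n)) := by
      ext v w
      rw [SimpleGraph.comap_adj, SimpleGraph.comap_adj]
      apply hadj
      · have := v.2
        rw [Finset.mem_coe, Finset.mem_union] at this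
        rcases this with h | h
        · exact (h2 i _ h).2
        · exact (h2 j _ h).2
      · have := w.2
        rw [Finset.mem_coe, Finset.mem_union] at this
        rcases this with h | h
        · exact (h2 i _ h).2
        · exact (h2 j _ h).2
    rw [h5]
    exact h3 i j hij

lemma q1 (k L : ℝ) (hk : 0 < k) (hL : 10 ≤ L) : 9 / 10 * (k * L) ≤ k * (L - 1) := by nlinarith
lemma q3 (n : ℝ) (hn : 2 ≤ n) : 0 < n * (n - 1) / 2 := by nlinarith
lemma q4 (k L N : ℝ) (h1 : 0 ≤ L * k * N) :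
    18 / 10 * L * (k * (k - 1) / 2 * N) ≤ 9 / 10 * (k * L) * (k * N) := by nlinarith
lemma q5 (c n : ℝ) (hn : 0 < n) (h : 2 * c + 2 ≤ n) : c * n ≤ n * (n - 1) / 2 := by nlinarith
lemma q6 (k N : ℝ) (hk : 8 ≤ k) (hN : 1 ≤ N) : 1 ≤ k * (k - 1) / 2 * N := by
  have h1 : 1 ≤ k * (k - 1) / 2 := by nlinarith
  nlinarith
lemma q7 (L x : ℝ) (hL : 10 ≤ L) (hx : 1 ≤ x) : 1 ≤ 1 / 10 * L * x := by nlinarith
lemma q8 (k N : ℝ) (hk : 0 < k) (hN : 0 < N) : k * (k - 1) / 2 * N ^ 2 + 1 ≤ (k * N + 1) ^ 2 := by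
  nlinarith [mul_pos hk hN, sq_nonneg (k * N), mul_nonneg hk.le (sq_nonneg N)]
lemma q9 (n : ℝ) (hn : 2 ≤ n) : n * (n - 1) / 2 + 1 ≤ (n + 1) ^ 2 := by nlinarith
lemma q10 (k L : ℝ) (hk : 8 ≤ k) (hL : 10 ≤ L) : 80 ≤ k * L := by nlinarith
lemma q11 (x n : ℝ) (hx : 80 ≤ x) (hn : 2 ≤ n) : 1 ≤ 1 / 100 * x * n := by nlinarith
lemma q12 (d n x : ℝ) (hx : 80 ≤ x) (h : 18000 ≤ n * d) : 9 / 10 ≤ d * n / 20000 * x := by
  nlinarith [mul_le_mul h hx (by norm_num) (by linarith : 0 ≤ n * d)]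

end BilA

open ColourA BilA in
theorem bilinked_of_planted
    (hpl : ∃ k₀ : ℕ, ∀ k : ℕ, k₀ ≤ k → ∃ η : ℝ, 0 < η ∧ ∃ ε : ℝ, 0 < ε ∧ ∃ N₀ : ℕ,
      ∀ N : ℕ, N₀ ≤ N → ∀ p : ℝ, 17 / 10 * Real.log k ≤ p * N → p * N ≤ 19 / 10 * Real.log k →
        ∀ σ ∈ Bal k N, P p (univ \ mono σ) {S | ¬ Rob η σ S} ≤ Real.exp (-ε * N)) :
    ∃ k₀ : ℕ, ∀ k : ℕ, k₀ ≤ k → ∀ δ : ℝ, 0 < δ → ∃ N₀ : ℕ, ∀ N : ℕ, N₀ ≤ N →
    ∀ n : ℕ, n = k * N → ∃ m : ℕ, (m : ℝ) ≤ 92 / 100 * (k * Real.log k) * n ∧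
      1 - δ ≤ U m (univ : Finset (Pr n)) {S | Bil k (gr S)} := by
  obtain ⟨k0, hk0⟩ := hpl
  refine ⟨max k0 (max 8 ⌈Real.exp 10⌉₊), ?_⟩
  intro k hk δ hδ
  have hk1 : k0 ≤ k := (le_max_left _ _).trans hk
  have hk8 : 8 ≤ k := ((le_max_left _ _).trans (le_max_right _ _)).trans hk
  have hkr : (8 : ℝ) ≤ k := by exact_mod_cast hk8
  have hkpos : (0 : ℝ) < k := by linarith
  have hlog : 10 ≤ Real.log k := by
    have h1 : Real.exp 10 ≤ k := by
      have h2 : ⌈Real.exp 10⌉₊ ≤ k := ((le_max_right _ _).trans (le_max_right _ _)).trans hk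
      exact (Nat.le_ceil _).trans (by exact_mod_cast h2)
    rw [Real.le_log_iff_exp_le hkpos]
    exact h1
  obtain ⟨η, hη0, ε, hε0, N₁, hplk⟩ := hk0 k hk1
  set c : ℝ := 9 / 10 * (k * Real.log k) with hc
  have hc0 : 0 < c := by positivity
  have hc1 : c ≤ k * (Real.log k - 1) := by rw [hc]; exact q1 _ _ hkpos hlog
  obtain ⟨C, hC0, N₂, hgood⟩ := good_colouring k hk8 c hc0.le hc1
  -- eventual inequalities (in terms of `n`)
  have ev1 := poly_exp C (η ^ 2 / k ^ 2) (δ / 2) (by positivity) (by positivity) (k ^ 2 + k + 2)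
  have ev2 := poly_exp 1 (ε / k) (1 / 2) (by positivity) (by positivity) 2
  have ev3 : ∀ᶠ n : ℕ in atTop, 2 * c + 2 ≤ (n : ℝ) :=
    tendsto_natCast_atTop_atTop.eventually_ge_atTop _
  have ev4 : ∀ᶠ n : ℕ in atTop, 18000 / δ ≤ (n : ℝ) :=
    tendsto_natCast_atTop_atTop.eventually_ge_atTop _
  obtain ⟨N₃, hN₃⟩ := eventually_atTop.mp (ev1.and (ev2.and (ev3.and ev4)))
  refine ⟨max (max N₁ N₂) (max N₃ 1), ?_⟩
  intro N hN n hn
  have hN1 : N₁ ≤ N := ((le_max_left _ _).trans (le_max_left _ _)).trans hN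
  have hN2 : N₂ ≤ N := ((le_max_right _ _).trans (le_max_left _ _)).trans hN
  have hN3 : N₃ ≤ N := ((le_max_left _ _).trans (le_max_right _ _)).trans hN
  have hNone : 1 ≤ N := ((le_max_right _ _).trans (le_max_right _ _)).trans hN
  have hNN : N ≤ n := by rw [hn]; exact Nat.le_mul_of_pos_left N (by omega)
  obtain ⟨e1, e2, e3, e4⟩ := hN₃ n (hN3.trans hNN)
  have hnr : (n : ℝ) = k * N := by rw [hn]; push_cast; ring
  have hn2 : (2 : ℝ) ≤ n := by linarith
  have hn0 : (0 : ℝ) < n := by linarith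
  have hNr : (1 : ℝ) ≤ N := by exact_mod_cast hNone
  have hN0 : (0 : ℝ) < N := by linarith
  -- number of pairs
  have hEcard : ((univ : Finset (Pr n)).card : ℝ) = n * (n - 1) / 2 := by
    rw [Finset.card_univ, card_Pr, Nat.cast_choose_two]
  set E : ℝ := ((univ : Finset (Pr n)).card : ℝ) with hE
  have hE0 : 0 < E := by rw [hEcard]; exact q3 _ hn2
  -- the number of edges
  set M : ℕ := ⌊18 / 10 * Real.log k * (k * (k - 1) / 2 * N)⌋₊ with hMdef
  have hkk : (0 : ℝ) < k * (k - 1) / 2 := by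
    have : (0 : ℝ) < k - 1 := by linarith
    positivity
  have hMle : (M : ℝ) ≤ 18 / 10 * Real.log k * (k * (k - 1) / 2 * N) :=
    Nat.floor_le (by positivity)
  have hMge : 18 / 10 * Real.log k * (k * (k - 1) / 2 * N) - 1 ≤ (M : ℝ) := by
    have := Nat.lt_floor_add_one (18 / 10 * Real.log k * (k * (k - 1) / 2 * N))
    rw [← hMdef] at this
    linarith
  have hMc : (M : ℝ) ≤ c * n := by
    refine hMle.trans ?_
    rw [hc, hnr]
    have h1 : (0 : ℝ) ≤ Real.log k * k * N := by positivity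
    exact q4 _ _ _ h1
  have hME : (M : ℝ) ≤ E := by
    refine hMc.trans ?_
    rw [hEcard]
    exact q5 _ _ hn0 e3
  have hME' : M ≤ (univ : Finset (Pr n)).card := by
    rw [hE] at hME
    exact_mod_cast hME
  set p : ℝ := (M : ℝ) / E with hp
  have hp0 : 0 ≤ p := by positivity
  have hp1 : p ≤ 1 := by
    rw [hp, div_le_one hE0]
    exact hME
  have hpE : p * E = M := by
    rw [hp]
    field_simp
  -- the good event
  let A : Set (Finset (Pr n)) :=
    {S | ∃ σ : Fin n → Fin k, Disjoint S (mono σ) ∧ RobG (η * N) σ S}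
  have hA : 1 / (C * ((n : ℝ) + 1) ^ (k ^ 2 + k)) ≤ U M univ A := by
    subst hn
    have hpl1 : ∀ σ ∈ Bal k N, U M (univ \ mono σ) {S | ¬ Rob η σ S} ≤ 1 / 2 := by
      intro σ hσ
      -- number of bichromatic pairs
      have hcard : (((univ \ mono σ : Finset (Pr (k * N))).card : ℕ) : ℝ) =
          k * (k - 1) / 2 * (N : ℝ) ^ 2 := by
        rw [Finset.card_sdiff_of_subset (Finset.subset_univ _), Nat.cast_sub
          (Finset.card_le_card (Finset.subset_univ _)), Finset.card_univ, card_Pr_real,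
          card_mono_Bal hσ]
        push_cast
        rw [Nat.cast_choose_two]
        ring
      set E' : ℝ := (((univ \ mono σ : Finset (Pr (k * N))).card : ℕ) : ℝ) with hE'
      have hE'0 : 0 < E' := by rw [hcard]; positivity
      have hMN : (M : ℝ) / E' * N = M / (k * (k - 1) / 2 * N) := by
        rw [hcard]
        field_simp
      have hkN : 0 < (k : ℝ) * (k - 1) / 2 * N := by positivity
      have hup : (M : ℝ) / E' * N ≤ 19 / 10 * Real.log k := by
        rw [hMN, div_le_iff₀ hkN]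
        refine hMle.trans ?_
        apply mul_le_mul_of_nonneg_right _ hkN.le
        linarith
      have hlow : 17 / 10 * Real.log k ≤ (M : ℝ) / E' * N := by
        rw [hMN, le_div_iff₀ hkN]
        have h1 : 1 ≤ (k : ℝ) * (k - 1) / 2 * N := q6 _ _ hkr hNr
        have h2 : (1 : ℝ) ≤ 1 / 10 * Real.log k * (k * (k - 1) / 2 * N) := q7 _ _ hlog h1
        linarith
      have hME'' : M ≤ (univ \ mono σ : Finset (Pr (k * N))).card := by
        have h1 : (M : ℝ) ≤ E' := by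
          -- p' N ≤ 1.9 log k ≤ N would need N large: use c n ≤ ...
          have h2 : (M : ℝ) ≤ c * ((k * N : ℕ) : ℝ) := hMc
          have h3 : 2 * c + 2 ≤ ((k * N : ℕ) : ℝ) := e3
          rw [hcard]
          push_cast at h2 h3
          have h4 : (N : ℝ) ^ 2 * (k * (k - 1) / 2) = (k * N) * (k * N) / 2 * (1 - 1 / k) := by
            field_simp
          have h5 : (1 : ℝ) / 2 ≤ 1 - 1 / k := by
            have : (1 : ℝ) / k ≤ 1 / 2 := by
              rw [div_le_div_iff₀ hkpos (by norm_num)]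
              linarith
            linarith
          have hMle2 : (M : ℝ) ≤ 18 / 10 * Real.log k * (k * (k - 1) / 2 * N) := hMle
          have h6 : 18 / 10 * Real.log k ≤ N := by
            -- c = 0.9 k log k, 2 c + 2 ≤ k N
            have h7 : 2 * (9 / 10 * (k * Real.log k)) + 2 ≤ (k : ℝ) * N := by
              rw [hc] at h3; exact h3
            by_contra hcon
            push Not at hcon
            have h8 : (k : ℝ) * N ≤ k * (18 / 10 * Real.log k) :=
              mul_le_mul_of_nonneg_left hcon.le hkpos.le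
            linarith
          calc (M : ℝ) ≤ 18 / 10 * Real.log k * (k * (k - 1) / 2 * N) := hMle2
            _ ≤ N * (k * (k - 1) / 2 * N) := mul_le_mul_of_nonneg_right h6 hkN.le
            _ = k * (k - 1) / 2 * (N : ℝ) ^ 2 := by ring
        rw [hE'] at h1
        exact_mod_cast h1
      have h1 := U_le_P (univ \ mono σ) M hME'' {S | ¬ Rob η σ S}
      rw [← hE'] at h1
      have h2 := hplk N hN1 ((M : ℝ) / E') hlow hup σ hσ
      refine h1.trans ((mul_le_mul_of_nonneg_left h2 (by linarith)).trans ?_)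
      refine le_trans ?_ e2
      have h3 : -ε * (N : ℝ) = -(ε / k * ((k * N : ℕ) : ℝ)) := by
        push_cast
        field_simp
      rw [h3, one_mul]
      apply mul_le_mul_of_nonneg_right _ (Real.exp_pos _).le
      rw [hcard]
      push_cast
      exact q8 _ _ hkpos hN0
    have h1 := hgood N hN2 M (by
      have h2 : (M : ℝ) ≤ c * ((k * N : ℕ) : ℝ) := hMc
      push_cast at h2
      exact h2) (fun σ S => Rob η σ S) hpl1
    have h2 : U M univ {S : Finset (Pr (k * N)) | ∃ σ ∈ Bal k N, Disjoint S (mono σ) ∧ Rob η σ S}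
        ≤ U M univ A := by
      refine U_mono M univ ?_
      rintro S ⟨σ, _, h4, h5⟩
      exact ⟨σ, h4, h5⟩
    have h3 : ((k * N + 1 : ℕ) : ℝ) = ((k * N : ℕ) : ℝ) + 1 := by push_cast; ring
    rw [h3] at h1
    exact h1.trans h2
  have hA2 := hA.trans (U_le_P univ M hME' A)
  rw [← hE, ← hp] at hA2
  have hE1 : E + 1 ≤ ((n : ℝ) + 1) ^ 2 := by rw [hEcard]; exact q9 _ hn2
  have hPA0 : 0 ≤ P p univ A := by
    unfold P
    refine Finset.sum_nonneg fun G _ => ?_
    have : 0 ≤ 1 - p := by linarith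
    positivity
  have hA3 : 1 / (C * ((n : ℝ) + 1) ^ (k ^ 2 + k + 2)) ≤ P p univ A := by
    have h1 : 1 / (C * ((n : ℝ) + 1) ^ (k ^ 2 + k)) ≤ ((n : ℝ) + 1) ^ 2 * P p univ A :=
      hA2.trans (by gcongr)
    rw [div_le_iff₀ (by positivity)] at h1 ⊢
    calc (1 : ℝ) ≤ ((n : ℝ) + 1) ^ 2 * P p univ A * (C * ((n : ℝ) + 1) ^ (k ^ 2 + k)) := h1
      _ = P p univ A * (C * ((n : ℝ) + 1) ^ (k ^ 2 + k + 2)) := by rw [pow_add _ (k ^ 2 + k) 2]; ring
  -- blow-up
  let B : Set (Finset (Pr n)) := {G | ∀ R : Finset (Fin n), (R.card : ℝ) ≤ η * N → ∀ H ∈ A,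
        ∃ e : Pr n, (∀ v ∈ R, v ∉ e.1) ∧ ¬ (e ∈ G ↔ e ∈ H)}
  have hB : P p univ B ≤ δ / 2 := by
    have h1 := blowup p hp0 hp1 A (η * N) (by positivity)
    have h2 : -((η * N) ^ 2) / (n : ℝ) = -(η ^ 2 / k ^ 2 * n) := by
      rw [hnr]
      field_simp
    rw [h2] at h1
    have hPB0 : 0 ≤ P p univ B := by
      unfold P
      refine Finset.sum_nonneg fun G _ => ?_
      have : 0 ≤ 1 - p := by linarith
      positivity
    have h3 : 1 / (C * ((n : ℝ) + 1) ^ (k ^ 2 + k + 2)) * P p univ B ≤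
        Real.exp (-(η ^ 2 / k ^ 2 * n)) :=
      (mul_le_mul_of_nonneg_right hA3 hPB0).trans h1
    have h4 : P p univ B ≤ C * ((n : ℝ) + 1) ^ (k ^ 2 + k + 2) *
        Real.exp (-(η ^ 2 / k ^ 2 * n)) := by
      rw [div_mul_eq_mul_div, one_mul, div_le_iff₀ (by positivity)] at h3
      linarith
    exact h4.trans e1
  have hbil : 1 - δ / 2 ≤ P p univ {S : Finset (Pr n) | Bil k (gr S)} := by
    have h1 := P_cover p hp0 hp1 univ B (∅ : Set (Finset (Pr n)))
      {S : Finset (Pr n) | Bil k (gr S)} (by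
        intro G hGB _
        have hGB' : ∃ R : Finset (Fin n), (R.card : ℝ) ≤ η * N ∧ ∃ H ∈ A,
            ∀ e : Pr n, (∀ v ∈ R, v ∉ e.1) → (e ∈ G ↔ e ∈ H) := by
          by_contra hcon
          apply hGB
          intro R hR H hH
          by_contra hcon2
          apply hcon
          refine ⟨R, hR, H, hH, fun e he => ?_⟩
          by_contra h3
          exact hcon2 ⟨e, he, h3⟩
        obtain ⟨R, hR, H, ⟨σ, hσ, hrob⟩, hGH⟩ := hGB'
        exact combine G H R σ (η * N) hR hσ hrob hGH)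
    have h0 : P p univ (∅ : Set (Finset (Pr n))) = 0 := by
      unfold P
      simp
    rw [h0] at h1
    linarith
  -- back to the uniform model
  set t : ℝ := 1 / 100 * (k * Real.log k) * n with ht
  have hkl : 80 ≤ (k : ℝ) * Real.log k := q10 _ _ hkr hlog
  have ht0 : 0 < t := by rw [ht]; positivity
  obtain ⟨m, hm, hUm⟩ := exists_U_ge univ p hp0 hp1 ⌈(M : ℝ) + t⌉₊ t ht0 (by
    rw [← hE, hpE]
    exact Nat.le_ceil _) {S : Finset (Pr n) | Bil k (gr S)}
  refine ⟨m, ?_, ?_⟩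
  · have h1 : (m : ℝ) ≤ (⌈(M : ℝ) + t⌉₊ : ℝ) := by exact_mod_cast hm
    have h2 : (⌈(M : ℝ) + t⌉₊ : ℝ) < (M : ℝ) + t + 1 := Nat.ceil_lt_add_one (by positivity)
    have h3 : (1 : ℝ) ≤ 1 / 100 * (k * Real.log k) * n := q11 _ _ hkl hn2
    rw [hc] at hMc
    rw [ht] at h1 h2
    linarith
  · rw [← hE, hpE] at hUm
    have hvar : (M : ℝ) / t ^ 2 ≤ δ / 2 := by
      rw [div_le_iff₀ (by positivity)]
      rw [div_le_iff₀ hδ] at e4
      refine hMc.trans ?_
      rw [hc, ht]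
      have h1 : (0 : ℝ) < k * Real.log k * n := by positivity
      have h2 : δ / 2 * (1 / 100 * (k * Real.log k) * n) ^ 2 =
          (δ * n / 20000) * (k * Real.log k) * (k * Real.log k * n) := by ring
      have h3 : 9 / 10 * (k * Real.log k) * n = 9 / 10 * (k * Real.log k * n) := by ring
      rw [h2, h3]
      apply mul_le_mul_of_nonneg_right _ h1.le
      have h5 := q12 δ n (k * Real.log k) hkl e4
      linarith
    linarith

theorem bilinked_whp : ∃ k₀ : ℕ, ∀ k : ℕ, k₀ ≤ k → ∀ δ : ℝ, 0 < δ → ∃ N₀ : ℕ, ∀ N : ℕ, N₀ ≤ N →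
    ∀ n : ℕ, n = k * N → ∃ m : ℕ, (m : ℝ) ≤ 92 / 100 * (k * Real.log k) * n ∧
      1 - δ ≤ U m (univ : Finset (Pr n)) {S | Bil k (gr S)} :=
  bilinked_of_planted planted

end Pool.Agent.H982R2.BL
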