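import Pool.Agent.H982R2.BLBase
/-!
# Module 1: Talagrand's Hamming-distance blow-up inequality over vertex blocks
-/
set_option autoImplicit false

namespace Pool.Agent.H982R2.BL

open Finset Classical

namespace Blow

variable {α ι : Type*}

/-- Bernoulli weight of `G` inside `E`. -/
noncomputable def wt (p : ℝ) (E G : Finset α) : ℝ := p ^ G.card * (1 - p) ^ (E.card - G.card)

lemma wt_nonneg {p : ℝ} (hp0 : 0 ≤ p) (hp1 : p ≤ 1) (E G : Finset α) : 0 ≤ wt p E G :=
  mul_nonneg (pow_nonneg hp0 _) (pow_nonneg (sub_nonneg.2 hp1) _)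

lemma sum_wt (p : ℝ) (E : Finset α) : ∑ G ∈ E.powerset, wt p E G = 1 := by
  have h := Finset.sum_pow_mul_eq_add_pow p (1 - p) E
  simp only [wt]
  rw [h]
  simp

lemma P_eq (p : ℝ) (E : Finset α) (A : Set (Finset α)) :
    P p E A = ∑ G ∈ E.powerset, wt p E G * (if G ∈ A then 1 else 0) := by
  unfold P wt
  rw [Finset.sum_filter]
  refine Finset.sum_congr rfl fun G _ => ?_
  split_ifs <;> simp

lemma P_nonneg {p : ℝ} (hp0 : 0 ≤ p) (hp1 : p ≤ 1) (E : Finset α) (A : Set (Finset α)) :
    0 ≤ P p E A := by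
  rw [P_eq]
  refine Finset.sum_nonneg fun G _ => mul_nonneg (wt_nonneg hp0 hp1 _ _) ?_
  split_ifs <;> norm_num

lemma P_mono {p : ℝ} (hp0 : 0 ≤ p) (hp1 : p ≤ 1) (E : Finset α) {A B : Set (Finset α)}
    (h : A ⊆ B) : P p E A ≤ P p E B := by
  rw [P_eq, P_eq]
  refine Finset.sum_le_sum fun G _ => mul_le_mul_of_nonneg_left ?_ (wt_nonneg hp0 hp1 _ _)
  by_cases hG : G ∈ A
  · simp [hG, h hG]
  · simp only [hG, if_false]
    split_ifs <;> norm_num

lemma P_le_one {p : ℝ} (hp0 : 0 ≤ p) (hp1 : p ≤ 1) (E : Finset α) (A : Set (Finset α)) :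
    P p E A ≤ 1 := by
  rw [P_eq]
  refine (Finset.sum_le_sum (g := fun G => wt p E G) fun G _ => ?_).trans_eq (sum_wt p E)
  have := wt_nonneg hp0 hp1 E G
  split_ifs <;> simp [this]

lemma sum_split (E' B : Finset α) (hd : Disjoint E' B) (g : Finset α → ℝ) :
    ∑ G ∈ (E' ∪ B).powerset, g G = ∑ ω ∈ B.powerset, ∑ G ∈ E'.powerset, g (G ∪ ω) := by
  rw [← Finset.sum_product']
  refine Finset.sum_nbij' (fun G => (G ∩ B, G ∩ E')) (fun x => x.2 ∪ x.1) ?_ ?_ ?_ ?_ ?_
  · intro G hG
    simp only [mem_product, mem_powerset]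
    exact ⟨inter_subset_right, inter_subset_right⟩
  · intro x hx
    simp only [mem_product, mem_powerset] at hx ⊢
    exact union_subset_union hx.2 hx.1
  · intro G hG
    simp only [mem_powerset] at hG
    ext x
    simp only [mem_union, mem_inter]
    constructor
    · rintro (h | h) <;> exact h.1
    · intro h
      rcases mem_union.1 (hG h) with h' | h'
      · exact Or.inl ⟨h, h'⟩
      · exact Or.inr ⟨h, h'⟩
  · intro x hx
    simp only [mem_product, mem_powerset] at hx
    have h1 : ∀ y, y ∈ x.1 → y ∉ E' := fun y hy hy' =>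
      (Finset.disjoint_left.1 hd hy' (hx.1 hy))
    have h2 : ∀ y, y ∈ x.2 → y ∉ B := fun y hy hy' =>
      (Finset.disjoint_left.1 hd (hx.2 hy) hy')
    refine Prod.ext ?_ ?_
    · ext y
      simp only [mem_union, mem_inter]
      constructor
      · rintro ⟨h | h, h'⟩
        · exact absurd h' (h2 y h)
        · exact h
      · intro h
        exact ⟨Or.inr h, hx.1 h⟩
    · ext y
      simp only [mem_union, mem_inter]
      constructor
      · rintro ⟨h | h, h'⟩
        · exact h
        · exact absurd h' (h1 y h)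
      · intro h
        exact ⟨Or.inl h, hx.2 h⟩
  · intro G hG
    simp only [mem_powerset] at hG
    congr 1
    ext x
    simp only [mem_union, mem_inter]
    constructor
    · intro h
      rcases mem_union.1 (hG h) with h' | h'
      · exact Or.inl ⟨h, h'⟩
      · exact Or.inr ⟨h, h'⟩
    · rintro (h | h) <;> exact h.1

lemma wt_union (p : ℝ) {E' B G ω : Finset α} (hd : Disjoint E' B) (hG : G ⊆ E') (hω : ω ⊆ B) :
    wt p (E' ∪ B) (G ∪ ω) = wt p B ω * wt p E' G := by
  have hd' : Disjoint G ω := Finset.disjoint_of_subset_left hG (Finset.disjoint_of_subset_right hω hd)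
  unfold wt
  rw [Finset.card_union_of_disjoint hd, Finset.card_union_of_disjoint hd']
  have h1 := Finset.card_le_card hG
  have h2 := Finset.card_le_card hω
  have h3 : E'.card + B.card - (G.card + ω.card) = (E'.card - G.card) + (B.card - ω.card) := by
    omega
  rw [h3, pow_add, pow_add]
  ring

lemma step_num {κ : Type*} (s : Finset κ) (w a x : κ → ℝ) (K c β : ℝ)
    (hw : ∀ i ∈ s, 0 ≤ w i) (hw1 : ∑ i ∈ s, w i = 1) (hK : 0 ≤ K) (hc : 1 ≤ c)
    (ha0 : ∀ i ∈ s, 0 ≤ a i) (haβ : ∀ i ∈ s, a i ≤ β) (hx : ∀ i ∈ s, 0 ≤ x i)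
    (h1 : ∀ i ∈ s, a i * x i ≤ K) (h2 : ∀ i ∈ s, β * x i ≤ c * K) :
    4 * c * ((∑ i ∈ s, w i * a i) * (∑ i ∈ s, w i * x i)) ≤ K * (1 + c) ^ 2 := by
  have hc0 : 0 ≤ c := by linarith
  rcases le_or_gt β 0 with hβ | hβ
  · have : ∑ i ∈ s, w i * a i = 0 := by
      refine Finset.sum_eq_zero fun i hi => ?_
      have : a i = 0 := le_antisymm ((haβ i hi).trans hβ) (ha0 i hi)
      simp [this]
    rw [this]
    simp only [zero_mul, mul_zero]
    positivity
  · have key : ∀ i ∈ s, β ^ 2 * x i ≤ K * ((1 + c) * β - c * a i) := by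
      intro i hi
      have e1 := h1 i hi
      have e2 := h2 i hi
      have e3 := haβ i hi
      have e4 := ha0 i hi
      have e5 := hx i hi
      rcases le_or_gt (c * a i) β with h | h
      · have : β ^ 2 * x i ≤ β * (c * K) := by
          have := mul_le_mul_of_nonneg_left e2 hβ.le
          linarith [this, (by ring : β * (β * x i) = β ^ 2 * x i)]
        have h' := mul_le_mul_of_nonneg_left h hK
        nlinarith
      · have hapos : 0 < a i := by
          rcases lt_or_eq_of_le e4 with h' | h'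
          · exact h'
          · rw [← h'] at h
            simp at h
            linarith
        have hq : 0 ≤ (β - a i) * (c * a i - β) := mul_nonneg (by linarith) (by linarith)
        have hq' := mul_nonneg hK hq
        have h3 := mul_le_mul_of_nonneg_left e1 (sq_nonneg β)
        have h4 : (β ^ 2 * x i) * a i ≤ (K * ((1 + c) * β - c * a i)) * a i := by
          nlinarith
        exact le_of_mul_le_mul_right h4 hapos
    set S := ∑ i ∈ s, w i * a i with hS
    set T := ∑ i ∈ s, w i * x i with hT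
    have hS0 : 0 ≤ S := Finset.sum_nonneg fun i hi => mul_nonneg (hw i hi) (ha0 i hi)
    have hsum : β ^ 2 * T ≤ K * ((1 + c) * β - c * S) := by
      have e1 : β ^ 2 * T = ∑ i ∈ s, w i * (β ^ 2 * x i) := by
        rw [hT, Finset.mul_sum]
        exact Finset.sum_congr rfl fun i _ => by ring
      have e2 : K * ((1 + c) * β - c * S) = ∑ i ∈ s, w i * (K * ((1 + c) * β - c * a i)) := by
        have : ∑ i ∈ s, w i * (K * ((1 + c) * β - c * a i)) =
            K * (1 + c) * β * (∑ i ∈ s, w i) - K * c * ∑ i ∈ s, w i * a i := by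
          rw [Finset.mul_sum, Finset.mul_sum, ← Finset.sum_sub_distrib]
          exact Finset.sum_congr rfl fun i _ => by ring
        rw [this, hw1, ← hS]
        ring
      rw [e1, e2]
      exact Finset.sum_le_sum fun i hi => mul_le_mul_of_nonneg_left (key i hi) (hw i hi)
    have h5 := mul_le_mul_of_nonneg_left hsum (mul_nonneg (mul_nonneg (by norm_num : (0:ℝ) ≤ 4) hc0) hS0)
    have h6 : 0 ≤ K * ((1 + c) * β - 2 * c * S) ^ 2 := mul_nonneg hK (sq_nonneg _)
    have h7 : β ^ 2 * (4 * c * (S * T)) ≤ β ^ 2 * (K * (1 + c) ^ 2) := by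
      nlinarith
    exact le_of_mul_le_mul_left h7 (by positivity)

lemma exp_ineq (t : ℝ) : (1 + Real.exp t) ^ 2 ≤ 4 * Real.exp t * Real.exp (t ^ 2 / 4) := by
  have h := Real.cosh_le_exp_half_sq (t / 2)
  have h0 : 0 ≤ Real.cosh (t / 2) := (Real.cosh_pos _).le
  have h1 : Real.cosh (t / 2) ^ 2 ≤ Real.exp (t ^ 2 / 4) := by
    calc Real.cosh (t / 2) ^ 2 ≤ (Real.exp ((t / 2) ^ 2 / 2)) ^ 2 := by gcongr
      _ = Real.exp (t ^ 2 / 4) := by
        rw [← Real.exp_nat_mul]
        congr 1
        push_cast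
        ring
  have h2 : (1 + Real.exp t) ^ 2 = 4 * Real.exp t * Real.cosh (t / 2) ^ 2 := by
    rw [Real.cosh_eq]
    have e1 : Real.exp t = Real.exp (t / 2) * Real.exp (t / 2) := by
      rw [← Real.exp_add]; congr 1; ring
    have e2 : Real.exp (t / 2) * Real.exp (-(t / 2)) = 1 := by
      rw [← Real.exp_add]; simp
    rw [e1]
    set u := Real.exp (t / 2)
    set v := Real.exp (-(t / 2))
    have : 4 * (u * u) * ((u + v) / 2) ^ 2 = (u * u + u * v) ^ 2 := by ring
    rw [this, e2]
    ring
  rw [h2]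
  exact mul_le_mul_of_nonneg_left h1 (by positivity)

lemma general {p : ℝ} (hp0 : 0 ≤ p) (hp1 : p ≤ 1) (b : α → ι) (t : ℝ) (ht : 0 ≤ t)
    (J : Finset ι) : ∀ (E : Finset α), (∀ e ∈ E, b e ∈ J) → ∀ (A : Set (Finset α))
    (f : Finset α → ℝ), (∀ G, 0 ≤ f G) →
    (∀ G ⊆ E, ∀ H ⊆ E, H ∈ A → f G ≤ Real.exp (t * ((image b (symmDiff G H)).card : ℝ))) →
    P p E A * ∑ G ∈ E.powerset, wt p E G * f G ≤ Real.exp (t ^ 2 * J.card / 4) := by
  induction J using Finset.induction_on with
  | empty =>
    intro E hE A f hf h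
    have hE' : E = ∅ := Finset.eq_empty_of_forall_notMem fun e he => by simpa using hE e he
    subst hE'
    simp only [powerset_empty, sum_singleton, card_empty, Nat.cast_zero, mul_zero, zero_div,
      Real.exp_zero]
    rw [P_eq]
    simp only [powerset_empty, sum_singleton, wt, card_empty, pow_zero,
      Nat.sub_self, mul_one, one_mul]
    split_ifs with hA
    · have := h ∅ (subset_refl _) ∅ (subset_refl _) hA
      simpa using this
    · simp
  | insert j J hj ih =>
    intro E hE A f hf h
    set E' : Finset α := E.filter (fun e => b e ≠ j) with hE'def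
    set B : Finset α := E.filter (fun e => b e = j) with hBdef
    have hd : Disjoint E' B := by
      rw [Finset.disjoint_left]
      intro e he he'
      simp only [hE'def, hBdef, mem_filter] at he he'
      exact he.2 he'.2
    have hEu : E = E' ∪ B := by
      ext e
      simp only [hE'def, hBdef, mem_union, mem_filter]
      tauto
    have hE'J : ∀ e ∈ E', b e ∈ J := by
      intro e he
      simp only [hE'def, mem_filter] at he
      rcases mem_insert.1 (hE e he.1) with h' | h'
      · exact absurd h' he.2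
      · exact h'
    set K : ℝ := Real.exp (t ^ 2 * J.card / 4) with hKdef
    -- slices
    set Aω : Finset α → Set (Finset α) := fun ω => {H | H ∪ ω ∈ A} with hAω
    set ℬ : Set (Finset α) := {H | ∃ ω ⊆ B, H ∪ ω ∈ A} with hℬ
    set x : Finset α → ℝ := fun ω => ∑ G ∈ E'.powerset, wt p E' G * f (G ∪ ω) with hx
    have hPA : P p E A = ∑ ω ∈ B.powerset, wt p B ω * P p E' (Aω ω) := by
      rw [P_eq, hEu, sum_split E' B hd]
      refine Finset.sum_congr rfl fun ω hω => ?_
      rw [P_eq, Finset.mul_sum]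
      refine Finset.sum_congr rfl fun G hG => ?_
      rw [wt_union p hd (mem_powerset.1 hG) (mem_powerset.1 hω)]
      simp only [hAω, Set.mem_ofPred_eq]
      ring
    have hSf : ∑ G ∈ E.powerset, wt p E G * f G = ∑ ω ∈ B.powerset, wt p B ω * x ω := by
      rw [hEu, sum_split E' B hd]
      refine Finset.sum_congr rfl fun ω hω => ?_
      rw [hx, Finset.mul_sum]
      refine Finset.sum_congr rfl fun G hG => ?_
      rw [wt_union p hd (mem_powerset.1 hG) (mem_powerset.1 hω)]
      ring
    -- distance bounds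
    have hdist : ∀ G ⊆ E', ∀ H ⊆ E', ∀ ω ⊆ B, image b (symmDiff (G ∪ ω) (H ∪ ω)) ⊆
        image b (symmDiff G H) := by
      intro G hG H hH ω hω i hi
      simp only [mem_image, mem_symmDiff, mem_union] at hi ⊢
      obtain ⟨e, he, hbe⟩ := hi
      refine ⟨e, ?_, hbe⟩
      tauto
    have hdist' : ∀ G ⊆ E', ∀ H ⊆ E', ∀ ω ⊆ B, ∀ ω' ⊆ B,
        image b (symmDiff (G ∪ ω) (H ∪ ω')) ⊆ insert j (image b (symmDiff G H)) := by
      intro G hG H hH ω hω ω' hω' i hi
      simp only [mem_image, mem_symmDiff, mem_union, mem_insert] at hi ⊢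
      obtain ⟨e, he, hbe⟩ := hi
      by_cases hej : b e = j
      · left; rw [← hbe, hej]
      · right
        refine ⟨e, ?_, hbe⟩
        have n1 : e ∉ ω := fun h' => hej (by have := hω h'; simp only [hBdef, mem_filter] at this; exact this.2)
        have n2 : e ∉ ω' := fun h' => hej (by have := hω' h'; simp only [hBdef, mem_filter] at this; exact this.2)
        tauto
    have hsub : ∀ G ⊆ E', ∀ ω ⊆ B, G ∪ ω ⊆ E := by
      intro G hG ω hω
      rw [hEu]
      exact union_subset_union hG hω
    have hIH1 : ∀ ω ∈ B.powerset, P p E' (Aω ω) * x ω ≤ K := by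
      intro ω hω
      have hω' := mem_powerset.1 hω
      refine ih E' hE'J (Aω ω) (fun G => f (G ∪ ω)) (fun G => hf _) ?_
      intro G hG H hH hHA
      refine (h (G ∪ ω) (hsub G hG ω hω') (H ∪ ω) (hsub H hH ω hω') hHA).trans ?_
      refine Real.exp_le_exp.2 (mul_le_mul_of_nonneg_left ?_ ht)
      exact_mod_cast card_le_card (hdist G hG H hH ω hω')
    have hIH2 : ∀ ω ∈ B.powerset, P p E' ℬ * x ω ≤ Real.exp t * K := by
      intro ω hω
      have hω' := mem_powerset.1 hω
      have := ih E' hE'J ℬ (fun G => Real.exp (-t) * f (G ∪ ω))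
        (fun G => mul_nonneg (Real.exp_pos _).le (hf _)) ?_
      · have e1 : ∑ G ∈ E'.powerset, wt p E' G * (Real.exp (-t) * f (G ∪ ω)) =
            Real.exp (-t) * x ω := by
          rw [hx, Finset.mul_sum]
          exact Finset.sum_congr rfl fun G _ => by ring
        rw [e1] at this
        have e2 : Real.exp t * Real.exp (-t) = 1 := by rw [← Real.exp_add]; simp
        have e3 := mul_le_mul_of_nonneg_left this (Real.exp_pos t).le
        calc P p E' ℬ * x ω = (Real.exp t * Real.exp (-t)) * (P p E' ℬ * x ω) := by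
              rw [e2, one_mul]
          _ = Real.exp t * (P p E' ℬ * (Real.exp (-t) * x ω)) := by ring
          _ ≤ _ := e3
      · intro G hG H hH hHA
        obtain ⟨ω', hω'B, hHω'⟩ := hHA
        have h1 := h (G ∪ ω) (hsub G hG ω hω') (H ∪ ω') (hsub H hH ω' hω'B) hHω'
        have h2 : ((image b (symmDiff (G ∪ ω) (H ∪ ω'))).card : ℝ) ≤
            (image b (symmDiff G H)).card + 1 := by
          have := (card_le_card (hdist' G hG H hH ω hω' ω' hω'B)).trans (card_insert_le _ _)
          exact_mod_cast this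
        have h3 := mul_le_mul_of_nonneg_left h2 ht
        calc Real.exp (-t) * f (G ∪ ω)
            ≤ Real.exp (-t) * Real.exp (t * ((image b (symmDiff G H)).card + 1)) := by
              refine mul_le_mul_of_nonneg_left (h1.trans (Real.exp_le_exp.2 h3)) (Real.exp_pos _).le
          _ = Real.exp (t * ((image b (symmDiff G H)).card : ℝ)) := by
              rw [← Real.exp_add]
              congr 1
              ring
    have hnum := step_num B.powerset (wt p B) (fun ω => P p E' (Aω ω)) x K (Real.exp t)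
      (P p E' ℬ) (fun ω _ => wt_nonneg hp0 hp1 _ _) (sum_wt p B) (Real.exp_pos _).le
      (Real.one_le_exp ht) (fun ω _ => P_nonneg hp0 hp1 _ _)
      (fun ω hω => P_mono hp0 hp1 _ fun H hH => ⟨ω, mem_powerset.1 hω, hH⟩)
      (fun ω _ => Finset.sum_nonneg fun G _ => mul_nonneg (wt_nonneg hp0 hp1 _ _) (hf _))
      hIH1 hIH2
    rw [← hPA, ← hSf] at hnum
    have hexp := exp_ineq t
    have hcard : ((insert j J).card : ℝ) = J.card + 1 := by
      rw [card_insert_of_notMem hj]; push_cast; rfl
    have hK' : Real.exp (t ^ 2 * ((insert j J).card : ℝ) / 4) = K * Real.exp (t ^ 2 / 4) := by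
      rw [hKdef, ← Real.exp_add, hcard]
      congr 1
      ring
    rw [hK']
    have hpos : 0 < 4 * Real.exp t := by positivity
    refine le_of_mul_le_mul_left ?_ hpos
    calc 4 * Real.exp t * (P p E A * ∑ G ∈ E.powerset, wt p E G * f G)
        ≤ K * (1 + Real.exp t) ^ 2 := hnum
      _ ≤ K * (4 * Real.exp t * Real.exp (t ^ 2 / 4)) :=
          mul_le_mul_of_nonneg_left hexp (Real.exp_pos _).le
      _ = _ := by ring

end Blow

open Blow in
theorem blowup {n : ℕ} (p : ℝ) (hp0 : 0 ≤ p) (hp1 : p ≤ 1) (A : Set (Finset (Pr n))) (s : ℝ)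
    (hs : 0 ≤ s) :
    P p univ A *
      P p univ {G | ∀ R : Finset (Fin n), (R.card : ℝ) ≤ s → ∀ H ∈ A,
        ∃ e : Pr n, (∀ v ∈ R, v ∉ e.1) ∧ ¬ (e ∈ G ↔ e ∈ H)} ≤ Real.exp (-(s ^ 2) / n) := by
  rcases Nat.eq_zero_or_pos n with hn | hn
  · subst hn
    simp only [Nat.cast_zero, div_zero, Real.exp_zero]
    exact mul_le_one₀ (P_le_one hp0 hp1 _ _) (P_nonneg hp0 hp1 _ _) (P_le_one hp0 hp1 _ _)
  · set D : Set (Finset (Pr n)) := {G | ∀ R : Finset (Fin n), (R.card : ℝ) ≤ s → ∀ H ∈ A,
        ∃ e : Pr n, (∀ v ∈ R, v ∉ e.1) ∧ ¬ (e ∈ G ↔ e ∈ H)} with hD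
    have hn' : (0 : ℝ) < n := by exact_mod_cast hn
    set t : ℝ := 2 * s / n with ht
    have ht0 : 0 ≤ t := by positivity
    have key := general (p := p) hp0 hp1 (fun e : Pr n => (Quot.out e.1).1) t ht0
      (univ : Finset (Fin n)) (univ : Finset (Pr n)) (fun _ _ => mem_univ _) A
      (fun G => if G ∈ D then Real.exp (t * s) else 0)
      (fun G => by split_ifs <;> positivity) ?_
    · have e1 : ∑ G ∈ (univ : Finset (Pr n)).powerset,
          wt p univ G * (if G ∈ D then Real.exp (t * s) else 0) = Real.exp (t * s) * P p univ D := by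
        rw [P_eq, Finset.mul_sum]
        refine Finset.sum_congr rfl fun G _ => ?_
        split_ifs <;> ring
      rw [e1] at key
      simp only [card_univ, Fintype.card_fin] at key
      have e2 : Real.exp (-(s ^ 2) / n) = Real.exp (-(t * s)) * Real.exp (t ^ 2 * n / 4) := by
        rw [← Real.exp_add]
        congr 1
        rw [ht]
        field_simp
        ring
      rw [e2]
      have e3 : Real.exp (-(t * s)) * Real.exp (t * s) = 1 := by
        rw [← Real.exp_add]; simp
      calc P p univ A * P p univ D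
          = (Real.exp (-(t * s)) * Real.exp (t * s)) * (P p univ A * P p univ D) := by
            rw [e3, one_mul]
        _ = Real.exp (-(t * s)) * (P p univ A * (Real.exp (t * s) * P p univ D)) := by ring
        _ ≤ _ := mul_le_mul_of_nonneg_left key (Real.exp_pos _).le
    · intro G _ H _ hH
      split_ifs with hG
      · refine Real.exp_le_exp.2 (mul_le_mul_of_nonneg_left ?_ ht0)
        by_contra hcon
        push Not at hcon
        obtain ⟨e, he1, he2⟩ := hG _ hcon.le H hH
        refine he1 (Quot.out e.1).1 ?_ (Sym2.out_fst_mem e.1)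
        simp only [mem_image, mem_symmDiff]
        refine ⟨e, ?_, rfl⟩
        tauto
      · positivity

end Pool.Agent.H982R2.BL
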