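import Pool.Agent.H982R2.BLBase

/-! Deterministic part: from degree and expansion conditions to a bilinked collection. -/

set_option autoImplicit false

namespace Pool.Agent.H982R2.BL

open Finset Classical

noncomputable section

variable {n k : ℕ}

/-- colour class -/
def cl (σ : Fin n → Fin k) (i : Fin k) : Finset (Fin n) := univ.filter fun v => σ v = i

lemma mem_cl {σ : Fin n → Fin k} {i : Fin k} {v : Fin n} : v ∈ cl σ i ↔ σ v = i := by
  simp [cl]

/-- number of neighbours of `v` in `W` -/
def dg (G : Finset (Pr n)) (v : Fin n) (W : Finset (Fin n)) : ℕ :=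
  (W.filter fun w => (gr G).Adj v w).card

lemma dg_mono (G : Finset (Pr n)) (v : Fin n) {W W' : Finset (Fin n)} (h : W ⊆ W') :
    dg G v W ≤ dg G v W' :=
  Finset.card_le_card (Finset.filter_subset_filter _ h)

/-- vertices with few neighbours in some other class -/
def bad1 (σ : Fin n → Fin k) (D : ℕ) (G : Finset (Pr n)) : Finset (Fin n) :=
  univ.filter fun v => ∃ l, l ≠ σ v ∧ dg G v (cl σ l) < 2 * D

/-- vertices outside `bad1` with few neighbours outside `bad1` in some other class -/
def def1 (σ : Fin n → Fin k) (D : ℕ) (G : Finset (Pr n)) : Finset (Fin n) :=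
  (univ \ bad1 σ D G).filter fun v => ∃ j, j ≠ σ v ∧ dg G v ((univ \ bad1 σ D G) ∩ cl σ j) < D

theorem det (σ : Fin n → Fin k) (G : Finset (Pr n)) (N g q₀ D : ℕ) (R : Finset (Fin n))
    (hN : ∀ i, (cl σ i).card = N)
    (h1 : ∀ j, (bad1 σ D G ∩ cl σ j).card ≤ g)
    (hQ : (R ∪ def1 σ D G).card ≤ q₀) (hq : q₀ ≤ g) (h4g : 4 * g < N)
    (h3 : ∀ Q T : Finset (Fin n), Q.card ≤ q₀ →
      (∀ v ∈ T \ Q, ∃ j, j ≠ σ v ∧ D ≤ dg G v (T ∩ cl σ j)) →
      (∀ j, (T ∩ cl σ j).card ≤ 2 * g) → (∃ j, g < (T ∩ cl σ j).card) → False)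
    (h4 : ∀ i j, i ≠ j → ∀ W C : Finset (Fin n), W ⊆ cl σ i ∪ cl σ j →
      ((cl σ i ∪ cl σ j) \ W).card ≤ 4 * g → C ⊆ W → g ≤ C.card → 2 * C.card ≤ W.card →
      (∀ u ∈ C, ∀ w ∈ W \ C, ¬ (gr G).Adj u w) → False) :
    ∃ W : Fin k → Finset (Fin n),
      (∀ i, (W i).Nonempty) ∧ (∀ i, ∀ v ∈ W i, σ v = i ∧ v ∉ R) ∧
      ∀ i j, i ≠ j →
        ((gr G).induce ((W i ∪ W j : Finset (Fin n)) : Set (Fin n))).Connected := by
  set U1 := univ \ bad1 σ D G with hU1
  set Q := R ∪ def1 σ D G with hQdef
  -- the family
  let F : Finset (Finset (Fin n)) := univ.filter fun T => Q ⊆ T ∧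
    (∀ v ∈ T \ Q, ∃ j, j ≠ σ v ∧ D ≤ dg G v (T ∩ cl σ j)) ∧ ∀ j, (T ∩ cl σ j).card ≤ g
  have hF : F.Nonempty := by
    refine ⟨Q, ?_⟩
    simp only [F, Finset.mem_filter, Finset.mem_univ, true_and]
    refine ⟨Finset.Subset.refl _, ?_, ?_⟩
    · intro v hv
      simp at hv
    · intro j
      exact (Finset.card_le_card Finset.inter_subset_left).trans (hQ.trans hq)
  obtain ⟨T, hTF, hTmax⟩ := Finset.exists_max_image F Finset.card hF
  simp only [F, Finset.mem_filter, Finset.mem_univ, true_and] at hTF
  obtain ⟨hQT, hTs, hTg⟩ := hTF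
  let W : Fin k → Finset (Fin n) := fun i => (U1 \ T) ∩ cl σ i
  have hWcard : ∀ i, (cl σ i \ W i).card ≤ 2 * g := by
    intro i
    have : cl σ i \ W i ⊆ (bad1 σ D G ∩ cl σ i) ∪ (T ∩ cl σ i) := by
      intro v hv
      simp only [W, hU1, Finset.mem_sdiff, Finset.mem_inter, Finset.mem_univ, true_and,
        Finset.mem_union, not_and, not_not] at hv ⊢
      obtain ⟨a, b⟩ := hv
      by_cases h : v ∈ bad1 σ D G
      · exact Or.inl ⟨h, a⟩
      · right
        refine ⟨?_, a⟩
        by_contra h'
        exact b ⟨h, h'⟩ a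
    calc (cl σ i \ W i).card ≤ _ := Finset.card_le_card this
      _ ≤ _ := Finset.card_union_le _ _
      _ ≤ g + g := add_le_add (h1 i) (hTg i)
      _ = 2 * g := by ring
  have hWsub : ∀ i, W i ⊆ cl σ i := fun i => Finset.inter_subset_right
  have hWne : ∀ i, (W i).Nonempty := by
    intro i
    rw [← Finset.card_pos]
    have := hWcard i
    rw [Finset.card_sdiff_of_subset (hWsub i), hN] at this
    omega
  refine ⟨W, hWne, ?_, ?_⟩
  · intro i v hv
    simp only [W, Finset.mem_inter, Finset.mem_sdiff, mem_cl] at hv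
    refine ⟨hv.2, fun hR => hv.1.2 (hQT ?_)⟩
    exact Finset.mem_union_left _ hR
  · intro i j hij
    -- closed sets are impossible
    have key : ∀ C : Finset (Fin n), C ⊆ W i ∪ W j → C.Nonempty → 2 * C.card ≤ (W i ∪ W j).card →
        (∀ u ∈ C, ∀ w ∈ (W i ∪ W j) \ C, ¬ (gr G).Adj u w) → False := by
      intro C hC hCne hC2 hcl
      have hWWsub : W i ∪ W j ⊆ cl σ i ∪ cl σ j :=
        Finset.union_subset_union (hWsub i) (hWsub j)
      have hcompl : ((cl σ i ∪ cl σ j) \ (W i ∪ W j)).card ≤ 4 * g := by
        have : (cl σ i ∪ cl σ j) \ (W i ∪ W j) ⊆ (cl σ i \ W i) ∪ (cl σ j \ W j) := by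
          intro v hv
          simp only [Finset.mem_sdiff, Finset.mem_union, not_or] at hv ⊢
          tauto
        calc _ ≤ _ := Finset.card_le_card this
          _ ≤ _ := Finset.card_union_le _ _
          _ ≤ 2 * g + 2 * g := add_le_add (hWcard i) (hWcard j)
          _ = 4 * g := by ring
      by_cases hCg : g ≤ C.card
      · exact h4 i j hij _ C hWWsub hcompl hC hCg hC2 hcl
      · push Not at hCg
        -- T ∪ C is self-supporting
        have hCU : ∀ v ∈ C, v ∈ U1 ∧ v ∉ T ∧ (σ v = i ∨ σ v = j) := by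
          intro v hv
          have := hC hv
          simp only [W, Finset.mem_union, Finset.mem_inter, Finset.mem_sdiff, mem_cl] at this
          tauto
        have hdj : Disjoint T C := by
          rw [Finset.disjoint_left]
          intro v hv hv'
          exact (hCU v hv').2.1 hv
        have hself : ∀ v ∈ (T ∪ C) \ Q, ∃ l, l ≠ σ v ∧ D ≤ dg G v ((T ∪ C) ∩ cl σ l) := by
          intro v hv
          rw [Finset.mem_sdiff, Finset.mem_union] at hv
          obtain ⟨hv1 | hv1, hvQ⟩ := hv
          · obtain ⟨l, hl, hD⟩ := hTs v (Finset.mem_sdiff.2 ⟨hv1, hvQ⟩)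
            refine ⟨l, hl, hD.trans (dg_mono G v ?_)⟩
            exact Finset.inter_subset_inter_right Finset.subset_union_left
          · obtain ⟨a, b, c⟩ := hCU v hv1
            have hvd : v ∉ def1 σ D G := fun h => hvQ (Finset.mem_union_right _ h)
            have hvd' : ∀ l, l ≠ σ v → D ≤ dg G v (U1 ∩ cl σ l) := by
              intro l hl
              by_contra hlt
              push Not at hlt
              apply hvd
              rw [def1, Finset.mem_filter]
              exact ⟨a, l, hl, hlt⟩
            -- the other class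
            have : ∃ l, l ≠ σ v ∧ (l = i ∨ l = j) := by
              rcases c with c | c
              · exact ⟨j, by rw [c]; exact hij.symm, Or.inr rfl⟩
              · exact ⟨i, by rw [c]; exact hij, Or.inl rfl⟩
            obtain ⟨l, hl, hlij⟩ := this
            refine ⟨l, hl, (hvd' l hl).trans ?_⟩
            refine Finset.card_le_card ?_
            intro w hw
            rw [Finset.mem_filter] at hw ⊢
            obtain ⟨hw1, hw2⟩ := hw
            refine ⟨?_, hw2⟩
            rw [Finset.mem_inter] at hw1 ⊢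
            refine ⟨?_, hw1.2⟩
            by_contra hcon
            rw [Finset.mem_union, not_or] at hcon
            have hwW : w ∈ (W i ∪ W j) \ C := by
              rw [Finset.mem_sdiff]
              refine ⟨?_, hcon.2⟩
              have : w ∈ W l := by
                simp only [W, Finset.mem_inter, Finset.mem_sdiff]
                exact ⟨⟨hw1.1, hcon.1⟩, hw1.2⟩
              rcases hlij with h | h
              · rw [h] at this; exact Finset.mem_union_left _ this
              · rw [h] at this; exact Finset.mem_union_right _ this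
            exact hcl v hv1 w hwW hw2
        have hcard : ∀ l, ((T ∪ C) ∩ cl σ l).card ≤ 2 * g := by
          intro l
          rw [Finset.union_inter_distrib_right]
          calc _ ≤ _ := Finset.card_union_le _ _
            _ ≤ g + C.card := add_le_add (hTg l) (Finset.card_le_card Finset.inter_subset_left)
            _ ≤ 2 * g := by omega
        by_cases hbig : ∃ l, g < ((T ∪ C) ∩ cl σ l).card
        · exact h3 Q (T ∪ C) hQ hself hcard hbig
        · push Not at hbig
          have hmem : T ∪ C ∈ F := by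
            simp only [F, Finset.mem_filter, Finset.mem_univ, true_and]
            exact ⟨hQT.trans Finset.subset_union_left, hself, hbig⟩
          have := hTmax _ hmem
          rw [Finset.card_union_of_disjoint hdj] at this
          have := hCne.card_pos
          omega
    -- connectedness
    have hne : Nonempty ((W i ∪ W j : Finset (Fin n)) : Set (Fin n)) := by
      obtain ⟨v, hv⟩ := hWne i
      exact ⟨⟨v, by simp [hv]⟩⟩
    refine { preconnected := ?_, nonempty := hne }
    intro x y
    by_contra hxy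
    let H := (gr G).induce ((W i ∪ W j : Finset (Fin n)) : Set (Fin n))
    let C : Finset (Fin n) := (W i ∪ W j).filter fun v => ∃ h : v ∈ ((W i ∪ W j : Finset (Fin n)) : Set (Fin n)), H.Reachable x ⟨v, h⟩
    have hCsub : C ⊆ W i ∪ W j := Finset.filter_subset _ _
    have hxC : x.1 ∈ C := by
      simp only [C, Finset.mem_filter]
      exact ⟨by have := x.2; exact_mod_cast this, x.2, SimpleGraph.Reachable.refl _⟩
    have hyC : y.1 ∉ C := by
      simp only [C, Finset.mem_filter, not_and, not_exists]
      intro _ h hr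
      exact hxy hr
    have hclosed : ∀ u ∈ C, ∀ w ∈ (W i ∪ W j) \ C, ¬ (gr G).Adj u w := by
      intro u hu w hw hadj
      simp only [C, Finset.mem_filter] at hu
      rw [Finset.mem_sdiff] at hw
      apply hw.2
      obtain ⟨_, hu', hr⟩ := hu
      have hw' : w ∈ ((W i ∪ W j : Finset (Fin n)) : Set (Fin n)) := by exact_mod_cast hw.1
      simp only [C, Finset.mem_filter]
      refine ⟨hw.1, hw', hr.trans ?_⟩
      have : H.Adj ⟨u, hu'⟩ ⟨w, hw'⟩ := by
        simpa [H] using hadj
      exact this.reachable
    by_cases h2 : 2 * C.card ≤ (W i ∪ W j).card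
    · exact key C hCsub ⟨_, hxC⟩ h2 hclosed
    · push Not at h2
      refine key ((W i ∪ W j) \ C) Finset.sdiff_subset ⟨y.1, ?_⟩ ?_ ?_
      · rw [Finset.mem_sdiff]
        exact ⟨by have := y.2; exact_mod_cast this, hyC⟩
      · rw [Finset.card_sdiff_of_subset hCsub]
        omega
      · intro u hu w hw hadj
        rw [Finset.sdiff_sdiff_eq_self hCsub] at hw
        exact hclosed w hw u hu hadj.symm

end

end Pool.Agent.H982R2.BL
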