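import Pool.Agent.H982R2.BLProb
import Pool.Agent.H982R2.BLDet

/-! Stars, degrees and the basic union bounds for the planted model. -/

set_option autoImplicit false

namespace Pool.Agent.H982R2.BL

open Finset Classical

noncomputable section

variable {n k : ℕ}

lemma gr_adj {G : Finset (Pr n)} {v w : Fin n} :
    (gr G).Adj v w ↔ ∃ h : ¬ (s(v, w)).IsDiag, (⟨s(v, w), h⟩ : Pr n) ∈ G := by
  unfold gr
  rw [SimpleGraph.fromEdgeSet_adj]
  constructor
  · rintro ⟨⟨h, hG⟩, _⟩
    exact ⟨h, hG⟩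
  · rintro ⟨h, hG⟩
    exact ⟨⟨h, hG⟩, by simpa using h⟩

/-- edges joining `v` to `W` -/
def star (v : Fin n) (W : Finset (Fin n)) : Finset (Pr n) :=
  univ.filter fun e => ∃ w ∈ W, e.1 = s(v, w)

lemma mem_star {v : Fin n} {W : Finset (Fin n)} {e : Pr n} :
    e ∈ star v W ↔ ∃ w ∈ W, e.1 = s(v, w) := by simp [star]

lemma card_inter_star (G : Finset (Pr n)) (v : Fin n) (W : Finset (Fin n)) :
    (G ∩ star v W).card = dg G v W := by
  unfold dg
  symm
  refine Finset.card_bij (fun w hw => ⟨s(v, w), (gr_adj.1 (Finset.mem_filter.1 hw).2).1⟩) ?_ ?_ ?_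
  · intro w hw
    obtain ⟨h1, h2⟩ := Finset.mem_filter.1 hw
    rw [Finset.mem_inter, mem_star]
    exact ⟨(gr_adj.1 h2).2, w, h1, rfl⟩
  · intro w hw w' hw' h
    have : s(v, w) = s(v, w') := congrArg Subtype.val h
    exact Sym2.congr_right.1 this
  · intro e he
    rw [Finset.mem_inter, mem_star] at he
    obtain ⟨h1, w, hw, h2⟩ := he
    have hd : ¬ (s(v, w)).IsDiag := by rw [← h2]; exact e.2
    refine ⟨w, ?_, ?_⟩
    · rw [Finset.mem_filter]
      refine ⟨hw, gr_adj.2 ⟨hd, ?_⟩⟩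
      convert h1
      exact h2.symm
    · exact Subtype.ext h2.symm

lemma card_star {v : Fin n} {W : Finset (Fin n)} (h : v ∉ W) : (star v W).card = W.card := by
  symm
  refine Finset.card_bij (fun w hw => ⟨s(v, w), ?_⟩) ?_ ?_ ?_
  · rw [Sym2.mk_isDiag_iff]
    intro h'
    exact h (by rw [h']; exact hw)
  · intro w hw
    exact mem_star.2 ⟨w, hw, rfl⟩
  · intro w hw w' hw' h
    have : s(v, w) = s(v, w') := congrArg Subtype.val h
    exact Sym2.congr_right.1 this
  · intro e he
    obtain ⟨w, hw, h2⟩ := mem_star.1 he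
    exact ⟨w, hw, Subtype.ext h2.symm⟩

lemma card_star_le (v : Fin n) (W : Finset (Fin n)) : (star v W).card ≤ W.card := by
  refine Finset.card_le_card_of_injOn
    (fun e => if h : ∃ w ∈ W, e.1 = s(v, w) then h.choose else v) ?_ ?_
  · intro e he
    have he' := mem_star.1 (Finset.mem_coe.1 he)
    simp only [he', dif_pos]
    exact he'.choose_spec.1
  · intro e he e' he' h
    have h1 := mem_star.1 (Finset.mem_coe.1 he)
    have h2 := mem_star.1 (Finset.mem_coe.1 he')
    simp only [h1, h2, dif_pos] at h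
    apply Subtype.ext
    rw [h1.choose_spec.2, h2.choose_spec.2, h]

lemma mem_E {σ : Fin n → Fin k} {e : Pr n} {v w : Fin n} (he : e.1 = s(v, w)) :
    e ∈ (univ \ mono σ : Finset (Pr n)) ↔ σ v ≠ σ w := by
  rw [Finset.mem_sdiff]
  simp only [Finset.mem_univ, true_and, mono, Finset.mem_filter, he, Sym2.mem_iff,
    forall_eq_or_imp, forall_eq, not_exists, not_and]
  constructor
  · intro h h'
    exact h (σ w) h' rfl
  · intro h i h1 h2
    exact h (h1.trans h2.symm)

lemma star_subset_E {σ : Fin n → Fin k} {v : Fin n} {W : Finset (Fin n)}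
    (h : ∀ w ∈ W, σ w ≠ σ v) : star v W ⊆ univ \ mono σ := by
  intro e he
  obtain ⟨w, hw, h2⟩ := mem_star.1 he
  rw [mem_E h2]
  exact (h w hw).symm

/-- union of stars -/
def stars (S : Finset (Fin n)) (Z : Fin n → Finset (Fin n)) : Finset (Pr n) :=
  S.biUnion fun v => star v (Z v)

lemma card_stars_le (S : Finset (Fin n)) (Z : Fin n → Finset (Fin n)) (z : ℕ)
    (hz : ∀ v ∈ S, (Z v).card ≤ z) : (stars S Z).card ≤ S.card * z := by
  refine Finset.card_biUnion_le_card_mul _ _ _ ?_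
  intro v hv
  exact (card_star_le _ _).trans (hz v hv)

lemma card_ends (e : Pr n) (S : Finset (Fin n)) : (S.filter fun v => v ∈ e.1).card ≤ 2 := by
  obtain ⟨e, he⟩ := e
  induction e using Sym2.ind with
  | _ a b =>
    have : (S.filter fun v => v ∈ s(a, b)) ⊆ {a, b} := by
      intro v hv
      have := (Finset.mem_filter.1 hv).2
      simpa using this
    exact (Finset.card_le_card this).trans Finset.card_le_two

/-- many neighbours force many edges in the union of the stars -/
lemma card_inter_stars_ge (G : Finset (Pr n)) (S : Finset (Fin n)) (Z : Fin n → Finset (Fin n))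
    (D : ℕ) (h : ∀ v ∈ S, 2 * D ≤ dg G v (Z v)) : D * S.card ≤ (G ∩ stars S Z).card := by
  have h1 : ∑ v ∈ S, dg G v (Z v) ≤ ∑ v ∈ S, ((G ∩ stars S Z).filter fun e => v ∈ e.1).card := by
    refine Finset.sum_le_sum fun v hv => ?_
    rw [← card_inter_star]
    refine Finset.card_le_card ?_
    intro e he
    rw [Finset.mem_inter] at he
    rw [Finset.mem_filter, Finset.mem_inter]
    refine ⟨⟨he.1, Finset.mem_biUnion.2 ⟨v, hv, he.2⟩⟩, ?_⟩
    obtain ⟨w, _, h2⟩ := mem_star.1 he.2
    rw [h2]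
    exact Sym2.mem_mk_left _ _
  have h2 : ∑ v ∈ S, ((G ∩ stars S Z).filter fun e => v ∈ e.1).card =
      ∑ e ∈ G ∩ stars S Z, (S.filter fun v => v ∈ e.1).card := by
    simp only [Finset.card_filter]
    exact Finset.sum_comm
  have h3 : ∑ e ∈ G ∩ stars S Z, (S.filter fun v => v ∈ e.1).card ≤ (G ∩ stars S Z).card * 2 :=
    Finset.sum_le_card_nsmul _ _ _ fun e _ => card_ends e S
  have h4 : S.card * (2 * D) ≤ ∑ v ∈ S, dg G v (Z v) :=
    Finset.card_nsmul_le_sum _ _ _ h
  have h5 : S.card * (2 * D) ≤ (G ∩ stars S Z).card * 2 := by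
    calc _ ≤ _ := h4
      _ ≤ _ := h1
      _ = _ := h2
      _ ≤ _ := h3
  have : 2 * (D * S.card) ≤ 2 * (G ∩ stars S Z).card := by
    calc _ = S.card * (2 * D) := by ring
      _ ≤ _ := h5
      _ = _ := by ring
  omega

lemma card_inter_stars_le (G : Finset (Pr n)) (S : Finset (Fin n)) (Z : Fin n → Finset (Fin n))
    (D : ℕ) (h : ∀ v ∈ S, dg G v (Z v) ≤ D) : (G ∩ stars S Z).card ≤ D * S.card := by
  unfold stars
  rw [Finset.inter_biUnion, mul_comm]
  refine Finset.card_biUnion_le_card_mul _ _ _ ?_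
  intro v hv
  rw [card_inter_star]
  exact h v hv

/-- number of edges in the union of stars with centres in one class and leaves outside -/
lemma card_stars_eq (S : Finset (Fin n)) (Z : Fin n → Finset (Fin n))
    (h : ∀ v ∈ S, ∀ w ∈ S, w ∉ Z v) :
    (stars S Z).card = ∑ v ∈ S, (Z v).card := by
  unfold stars
  rw [Finset.card_biUnion]
  · exact Finset.sum_congr rfl fun v hv => card_star (h v hv v hv)
  · intro v hv w hw hvw
    show Disjoint (star v (Z v)) (star w (Z w))
    rw [Finset.disjoint_left]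
    intro e he he'
    obtain ⟨a, ha, h1⟩ := mem_star.1 he
    obtain ⟨b, hb, h2⟩ := mem_star.1 he'
    rw [h1, Sym2.eq_iff] at h2
    rcases h2 with ⟨h3, _⟩ | ⟨h3, h4⟩
    · exact hvw h3
    · rw [h4] at ha
      exact h v hv w hw ha

/-- union bound over assignments -/
lemma P_assign {p : ℝ} (hp0 : 0 ≤ p) (hp1 : p ≤ 1) (hk : 0 < k) (E : Finset (Pr n))
    (S : Finset (Fin n)) (B : Fin n → Fin k → Finset (Pr n) → Prop) (c : ℝ)
    (h : ∀ a : Fin n → Fin k, P p E {G | ∀ v ∈ S, B v (a v) G} ≤ c) :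
    P p E {G | ∀ v ∈ S, ∃ l, B v l G} ≤ (k : ℝ) ^ S.card * c := by
  let ext : (S → Fin k) → Fin n → Fin k := fun a v => if h : v ∈ S then a ⟨v, h⟩ else ⟨0, hk⟩
  have h1 := P_union hp0 hp1 E (univ : Finset (S → Fin k))
    (fun a => {G | ∀ v ∈ S, B v (ext a v) G})
  have h2 : ∑ a ∈ (univ : Finset (S → Fin k)), P p E {G | ∀ v ∈ S, B v (ext a v) G} ≤
      (k : ℝ) ^ S.card * c := by
    calc _ ≤ ∑ a ∈ (univ : Finset (S → Fin k)), c := Finset.sum_le_sum fun a _ => h _
      _ = _ := by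
        rw [Finset.sum_const, nsmul_eq_mul]
        congr 1
        simp
  refine le_trans (P_mono hp0 hp1 E ?_) (h1.trans h2)
  intro G _ hG
  have : Nonempty (Fin k) := ⟨⟨0, hk⟩⟩
  rw [Set.mem_ofPred] at hG ⊢
  choose! l hl using hG
  refine ⟨fun v => l v.1, Finset.mem_univ _, ?_⟩
  rw [Set.mem_ofPred]
  intro v hv
  simp only [ext, hv, dif_pos]
  exact hl v hv

/-- Lemma C: every vertex of `S` has at least `2 * D` neighbours in a small set -/
lemma P_selfsup {p : ℝ} (hp0 : 0 ≤ p) (hp1 : p ≤ 1) (hk : 0 < k) (σ : Fin n → Fin k)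
    (E : Finset (Pr n)) (S : Finset (Fin n)) (Z : Fin k → Finset (Fin n)) (z D : ℕ)
    (hz : ∀ j, (Z j).card ≤ z)
    (hE : ∀ v ∈ S, ∀ j, j ≠ σ v → star v (Z j) ⊆ E) {x : ℝ} (hx : 1 ≤ x) :
    P p E {G | ∀ v ∈ S, ∃ j, j ≠ σ v ∧ 2 * D ≤ dg G v (Z j)} ≤
      (k * ((x ^ D)⁻¹ * Real.exp (p * x * z))) ^ S.card := by
  rw [mul_pow]
  refine P_assign hp0 hp1 hk E S (fun v j G => j ≠ σ v ∧ 2 * D ≤ dg G v (Z j)) _ ?_
  intro a
  by_cases ha : ∀ v ∈ S, a v ≠ σ v
  · have hsub : stars S (fun v => Z (a v)) ⊆ E := by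
      intro e he
      obtain ⟨v, hv, he'⟩ := Finset.mem_biUnion.1 he
      exact hE v hv _ (ha v hv) he'
    have h1 := P_card_ge hp0 hp1 E (stars S (fun v => Z (a v))) hsub (D * S.card) hx
    refine (P_mono hp0 hp1 E ?_).trans (h1.trans ?_)
    · intro G _ hG
      rw [Set.mem_ofPred] at hG ⊢
      convert card_inter_stars_ge G S (fun v => Z (a v)) D fun v hv => (hG v hv).2
    · rw [mul_pow, inv_pow, ← pow_mul, ← Real.exp_nat_mul]
      refine mul_le_mul_of_nonneg_left ?_ (by positivity)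
      refine Real.exp_le_exp.2 ?_
      have hc : ((stars S (fun v => Z (a v))).card : ℝ) ≤ S.card * z := by
        exact_mod_cast card_stars_le S _ z fun v _ => hz _
      have : 0 ≤ p * x := mul_nonneg hp0 (by linarith)
      calc p * x * ((stars S (fun v => Z (a v))).card : ℝ) ≤ p * x * (S.card * z) :=
            mul_le_mul_of_nonneg_left hc this
        _ = _ := by ring
  · push Not at ha
    obtain ⟨v, hv, hav⟩ := ha
    have : {G : Finset (Pr n) | ∀ v ∈ S, a v ≠ σ v ∧ 2 * D ≤ dg G v (Z (a v))} = ∅ := by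
      ext G
      simp only [Set.mem_ofPred_eq, Set.mem_empty_iff_false, iff_false, not_forall]
      exact ⟨v, hv, fun h => h.1 hav⟩
    rw [this]
    have h0 : P p E (∅ : Set (Finset (Pr n))) = 0 := by
      rw [P_eq_Ex]; simp [Ex]
    rw [h0]
    positivity

/-- Lemma F1: many vertices of class `j` with few neighbours in some other class -/
lemma P_lowdeg {p : ℝ} (hp0 : 0 ≤ p) (hp1 : p ≤ 1) (hk : 0 < k) (σ : Fin n → Fin k)
    (N : ℕ) (hN : ∀ i, (cl σ i).card = N) (S' : Finset (Fin n)) (j : Fin k) (y₁ y₂ D : ℕ)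
    (hS' : S'.card ≤ y₂) {x : ℝ} (hx0 : 0 < x) (hx : x ≤ 1) :
    P p (univ \ mono σ) {G | y₁ ≤ ((cl σ j).filter fun w =>
        ∃ l, l ≠ σ w ∧ dg G w (cl σ l \ S') < 2 * D).card} ≤
      (N.choose y₁ : ℝ) * (k * ((x ^ (2 * D))⁻¹ * Real.exp (-(p * (1 - x) * ((N : ℝ) - y₂))))) ^ y₁
      := by
  have h1 := P_union hp0 hp1 (univ \ mono σ) (powersetCard y₁ (cl σ j))
    (fun S => {G | ∀ w ∈ S, ∃ l, l ≠ σ w ∧ dg G w (cl σ l \ S') < 2 * D})
  have h2 : ∀ S ∈ powersetCard y₁ (cl σ j),
      P p (univ \ mono σ) {G | ∀ w ∈ S, ∃ l, l ≠ σ w ∧ dg G w (cl σ l \ S') < 2 * D} ≤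
      (k * ((x ^ (2 * D))⁻¹ * Real.exp (-(p * (1 - x) * ((N : ℝ) - y₂))))) ^ y₁ := by
    intro S hS
    obtain ⟨hSj, hSc⟩ := Finset.mem_powersetCard.1 hS
    rw [mul_pow, ← hSc]
    refine P_assign hp0 hp1 hk _ S (fun w l G => l ≠ σ w ∧ dg G w (cl σ l \ S') < 2 * D) _ ?_
    intro a
    by_cases ha : ∀ v ∈ S, a v ≠ σ v
    · have hsub : stars S (fun v => cl σ (a v) \ S') ⊆ univ \ mono σ := by
        intro e he
        obtain ⟨v, hv, he'⟩ := Finset.mem_biUnion.1 he
        refine star_subset_E ?_ he'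
        intro w hw
        have := (Finset.mem_sdiff.1 hw).1
        rw [mem_cl] at this
        rw [this]
        exact ha v hv
      have h3 := P_card_le hp0 hp1 (univ \ mono σ) (stars S (fun v => cl σ (a v) \ S')) hsub
        (2 * D * S.card) hx0 hx
      refine (P_mono hp0 hp1 _ ?_).trans (h3.trans ?_)
      · intro G _ hG
        rw [Set.mem_ofPred] at hG ⊢
        convert card_inter_stars_le G S (fun v => cl σ (a v) \ S') (2 * D)
          fun v hv => (hG v hv).2.le
      · rw [mul_pow, inv_pow, ← pow_mul, ← Real.exp_nat_mul]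
        refine mul_le_mul_of_nonneg_left ?_ (by positivity)
        refine Real.exp_le_exp.2 ?_
        have hc : (S.card : ℝ) * ((N : ℝ) - y₂) ≤
            ((stars S (fun v => cl σ (a v) \ S')).card : ℝ) := by
          rw [card_stars_eq]
          · push_cast
            rw [← nsmul_eq_mul]
            refine Finset.card_nsmul_le_sum _ _ _ ?_
            intro v _
            have e1 : (cl σ (a v)).card - S'.card ≤ (cl σ (a v) \ S').card :=
              Finset.le_card_sdiff _ _
            rw [hN] at e1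
            have e2 : (N : ℝ) ≤ (cl σ (a v) \ S').card + S'.card := by
              exact_mod_cast (by omega : N ≤ (cl σ (a v) \ S').card + S'.card)
            have e3 : (S'.card : ℝ) ≤ y₂ := by exact_mod_cast hS'
            linarith
          · intro v hv w hw h'
            have := (Finset.mem_sdiff.1 h').1
            rw [mem_cl] at this
            have hv' := mem_cl.1 (hSj hv)
            have hw' := mem_cl.1 (hSj hw)
            apply ha v hv
            rw [← this, hw', hv']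
        have h0 : 0 ≤ p * (1 - x) := mul_nonneg hp0 (by linarith)
        have := mul_le_mul_of_nonneg_left hc h0
        linarith
    · push Not at ha
      obtain ⟨v, hv, hav⟩ := ha
      have : {G : Finset (Pr n) | ∀ v ∈ S, a v ≠ σ v ∧ dg G v (cl σ (a v) \ S') < 2 * D} = ∅ := by
        ext G
        simp only [Set.mem_ofPred_eq, Set.mem_empty_iff_false, iff_false, not_forall]
        exact ⟨v, hv, fun h => h.1 hav⟩
      rw [this]
      have h0 : P p (univ \ mono σ) (∅ : Set (Finset (Pr n))) = 0 := by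
        rw [P_eq_Ex]; simp [Ex]
      rw [h0]
      positivity
  refine (P_mono hp0 hp1 _ ?_).trans (h1.trans ((Finset.sum_le_sum h2).trans ?_))
  · intro G _ hG
    rw [Set.mem_ofPred] at hG ⊢
    obtain ⟨S, hS, hSc⟩ := Finset.exists_subset_card_eq hG
    refine ⟨S, Finset.mem_powersetCard.2 ⟨hS.trans (Finset.filter_subset _ _), hSc⟩, ?_⟩
    rw [Set.mem_ofPred]
    intro w hw
    exact (Finset.mem_filter.1 (hS hw)).2
  · rw [Finset.sum_const, Finset.card_powersetCard, hN, nsmul_eq_mul]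

end

end Pool.Agent.H982R2.BL
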