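import Pool.Agent.H982R2.BLTransfer
import Pool.Agent.H982R2.BLStar

/-! Final assembly for S13220. -/

set_option autoImplicit false

namespace Pool.Agent.H982R2.BL

open Finset Classical

/-- bilinked k-collection -/
def Bil' {n : ℕ} (k : ℕ) (H : SimpleGraph (Fin n)) : Prop :=
  ∃ V : Fin k → Finset (Fin n), (∀ i, (V i).Nonempty) ∧ (∀ i j, i ≠ j → Disjoint (V i) (V j)) ∧
    (∀ i, H.IsIndepSet ((V i : Finset (Fin n)) : Set (Fin n))) ∧
    (∀ i j, i ≠ j → (H.induce ((V i ∪ V j : Finset (Fin n)) : Set (Fin n))).Connected)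

/-- the set of edge orderings of the frozen statement -/
def frozenSet (k : ℕ) (ε : ℝ) (n : ℕ) :
    Set ({e : Sym2 (Fin n) // ¬ e.IsDiag} ≃
      Fin (Fintype.card {e : Sym2 (Fin n) // ¬ e.IsDiag})) :=
  {σ : {e : Sym2 (Fin n) // ¬ e.IsDiag} ≃
              Fin (Fintype.card {e : Sym2 (Fin n) // ¬ e.IsDiag}) |
            ∀ G : ℕ → SimpleGraph (Fin n),
              (∀ t : ℕ, G t = SimpleGraph.fromEdgeSet
                {e : Sym2 (Fin n) | ∃ h : ¬ e.IsDiag, ((σ ⟨e, h⟩ : ℕ) < t)}) →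
            ∀ B : SimpleGraph (Fin n) → Prop,
              (∀ H : SimpleGraph (Fin n), B H ↔
                ∃ V : Fin k → Finset (Fin n),
                  (∀ i, (V i).Nonempty) ∧
                  (∀ i j, i ≠ j → Disjoint (V i) (V j)) ∧
                  (∀ i, H.IsIndepSet ((V i : Finset (Fin n)) : Set (Fin n))) ∧
                  (∀ i j, i ≠ j →
                    (H.induce ((V i ∪ V j : Finset (Fin n)) : Set (Fin n))).Connected) ∧
                  ¬ (k = 3 ∧ ∀ i, (V i).card = 1)) →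
            ∃ t₁ t₂ : ℕ,
              B (G t₁) ∧ (∀ t, t < t₁ → ¬ B (G t)) ∧
              ((k + 1 : ℕ∞) ≤ (G t₂).chromaticNumber) ∧
              (∀ t, t < t₂ → ¬ ((k + 1 : ℕ∞) ≤ (G t).chromaticNumber)) ∧
              (t₂ : ℝ) ≤ (t₁ : ℝ) + ε * (n : ℝ) ∧
              (t₁ : ℝ) ≤ (t₂ : ℝ) + ε * (n : ℝ)}

/-- one fixed `n` -/
lemma ratio_le (k n m M : ℕ) (hk : k ≠ 3) (ε : ℝ) (hgap : (m : ℝ) + ε * n < M)
    (hm : 7 / 8 ≤ U m (univ : Finset (Pr n)) {S | Bil' k (gr S)})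
    (hM : 7 / 8 ≤ U M (univ : Finset (Pr n)) {S | (gr S).Colorable k}) :
    ((frozenSet k ε n).ncard : ℝ) /
      ((Fintype.card {e : Sym2 (Fin n) // ¬ e.IsDiag}).factorial : ℝ) ≤ 1 / 4 := by
  set c := Fintype.card (Pr n) with hc
  have hle : ∀ (q : ℕ) (A : Set (Finset (Pr n))), 7 / 8 ≤ U q (univ : Finset (Pr n)) A → q ≤ c := by
    intro q A h
    by_contra hcon
    push Not at hcon
    have : U q (univ : Finset (Pr n)) A = 0 := by
      unfold U
      rw [Finset.card_univ, Nat.choose_eq_zero_of_lt (by simpa [hc] using hcon)]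
      simp
    rw [this] at h
    norm_num at h
  have e1 := perm_eq_U m (hle m _ hm) {S : Finset (Pr n) | Bil' k (gr S)}
  have e2 := perm_eq_U M (hle M _ hM) {S : Finset (Pr n) | (gr S).Colorable k}
  rw [← e1] at hm
  rw [← e2] at hM
  set EA : Set (Pr n ≃ Fin c) := {σ : Pr n ≃ Fin (Fintype.card (Pr n)) |
        (univ.filter fun e => ((σ e : Fin _) : ℕ) < m) ∈ {S : Finset (Pr n) | Bil' k (gr S)}} with hEA
  set EB : Set (Pr n ≃ Fin c) := {σ : Pr n ≃ Fin (Fintype.card (Pr n)) |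
        (univ.filter fun e => ((σ e : Fin _) : ℕ) < M) ∈
          {S : Finset (Pr n) | (gr S).Colorable k}} with hEB
  have hfac : (0 : ℝ) < (c.factorial : ℝ) := by exact_mod_cast Nat.factorial_pos _
  rw [le_div_iff₀ hfac] at hm hM
  -- disjointness
  have hgr : ∀ (σ : Pr n ≃ Fin c) (q : ℕ),
      gr (univ.filter fun e => ((σ e : Fin _) : ℕ) < q) = SimpleGraph.fromEdgeSet
                {e : Sym2 (Fin n) | ∃ h : ¬ e.IsDiag, ((σ ⟨e, h⟩ : ℕ) < q)} := by
    intro σ q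
    unfold gr
    congr 1
    ext e
    simp
  have hdisj : frozenSet k ε n ⊆ (EA ∩ EB)ᶜ := by
    intro σ hσ hAB
    obtain ⟨hA, hB⟩ := hAB
    rw [hEA, Set.mem_ofPred, Set.mem_ofPred] at hA
    rw [hEB, Set.mem_ofPred, Set.mem_ofPred] at hB
    unfold frozenSet at hσ
    rw [Set.mem_ofPred] at hσ
    obtain ⟨t₁, t₂, b1, b2, b3, _, b5, _⟩ := hσ
      (fun t => SimpleGraph.fromEdgeSet
                {e : Sym2 (Fin n) | ∃ h : ¬ e.IsDiag, ((σ ⟨e, h⟩ : ℕ) < t)}) (fun t => rfl)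
      (fun H => ∃ V : Fin k → Finset (Fin n),
                  (∀ i, (V i).Nonempty) ∧
                  (∀ i j, i ≠ j → Disjoint (V i) (V j)) ∧
                  (∀ i, H.IsIndepSet ((V i : Finset (Fin n)) : Set (Fin n))) ∧
                  (∀ i j, i ≠ j →
                    (H.induce ((V i ∪ V j : Finset (Fin n)) : Set (Fin n))).Connected) ∧
                  ¬ (k = 3 ∧ ∀ i, (V i).card = 1)) (fun H => Iff.rfl)
    have ht1 : t₁ ≤ m := by
      by_contra hcon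
      push Not at hcon
      apply b2 m hcon
      rw [hgr] at hA
      obtain ⟨V, v1, v2, v3, v4⟩ := hA
      exact ⟨V, v1, v2, v3, v4, fun h => hk h.1⟩
    have ht2 : M < t₂ := by
      by_contra hcon
      push Not at hcon
      rw [hgr] at hB
      have hmono : SimpleGraph.fromEdgeSet
                {e : Sym2 (Fin n) | ∃ h : ¬ e.IsDiag, ((σ ⟨e, h⟩ : ℕ) < t₂)} ≤
          SimpleGraph.fromEdgeSet
                {e : Sym2 (Fin n) | ∃ h : ¬ e.IsDiag, ((σ ⟨e, h⟩ : ℕ) < M)} := by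
        refine SimpleGraph.fromEdgeSet_mono ?_
        rintro e ⟨h, h'⟩
        exact ⟨h, lt_of_lt_of_le h' hcon⟩
      have hcol : (SimpleGraph.fromEdgeSet
                {e : Sym2 (Fin n) | ∃ h : ¬ e.IsDiag, ((σ ⟨e, h⟩ : ℕ) < t₂)}).Colorable k :=
        hB.mono_left hmono
      have h1 := hcol.chromaticNumber_le
      have h2 : ((k : ℕ∞) + 1) ≤ (k : ℕ∞) := b3.trans h1
      have h3 : (k + 1 : ℕ) ≤ k := by exact_mod_cast h2
      omega
    have r1 : (t₁ : ℝ) ≤ m := by exact_mod_cast ht1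
    have r2 : (M : ℝ) < t₂ := by exact_mod_cast ht2
    linarith
  -- counting
  have hfin : ∀ s : Set (Pr n ≃ Fin c), s.Finite := fun s => Set.toFinite s
  have hcardall : (Set.univ : Set (Pr n ≃ Fin c)).ncard = c.factorial := by
    rw [Set.ncard_univ, Nat.card_eq_fintype_card, Fintype.card_equiv (Fintype.equivFin _)]
  have h1 : (frozenSet k ε n).ncard ≤ ((EA ∩ EB)ᶜ).ncard := Set.ncard_le_ncard hdisj (hfin _)
  have h2 : ((EA ∩ EB)ᶜ).ncard ≤ (EAᶜ).ncard + (EBᶜ).ncard := by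
    rw [Set.compl_inter]
    exact Set.ncard_union_le _ _
  have h3 : EA.ncard + (EAᶜ).ncard = c.factorial := by
    rw [Set.ncard_add_ncard_compl EA (hfin _) (hfin _), ← Set.ncard_univ, hcardall]
  have h4 : EB.ncard + (EBᶜ).ncard = c.factorial := by
    rw [Set.ncard_add_ncard_compl EB (hfin _) (hfin _), ← Set.ncard_univ, hcardall]
  have r1 : ((frozenSet k ε n).ncard : ℝ) ≤ (EAᶜ).ncard + (EBᶜ).ncard := by
    exact_mod_cast h1.trans h2
  have r3 : (EA.ncard : ℝ) + (EAᶜ).ncard = c.factorial := by exact_mod_cast h3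
  have r4 : (EB.ncard : ℝ) + (EBᶜ).ncard = c.factorial := by exact_mod_cast h4
  rw [div_le_iff₀ hfac]
  linarith

theorem final_of
    (hB : ∃ k₀ : ℕ, ∀ k : ℕ, k₀ ≤ k → ∀ δ : ℝ, 0 < δ → ∃ N₀ : ℕ, ∀ N : ℕ, N₀ ≤ N →
      ∀ n : ℕ, n = k * N → ∃ m : ℕ, (m : ℝ) ≤ 92 / 100 * (k * Real.log k) * n ∧
      1 - δ ≤ U m (univ : Finset (Pr n)) {S | Bil' k (gr S)})
    (hC : ∀ (K : ℕ), 8 ≤ K → ∀ (c : ℝ), 0 < c → c < K * (Real.log K - 1) →
      ∀ (δ : ℝ), 0 < δ → ∃ N₀ : ℕ, ∀ N : ℕ, N₀ ≤ N → ∀ n : ℕ, n = K * N → ∀ M : ℕ,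
      (M : ℝ) ≤ c * n → 1 - δ ≤ U M (univ : Finset (Pr n)) {S | (gr S).Colorable (K + 3)}) :
    ¬ (∀ k : ℕ, 3 ≤ k → ∀ ε : ℝ, 0 < ε →
      Filter.Tendsto (fun n : ℕ => ((frozenSet k ε n).ncard : ℝ) /
          ((Fintype.card {e : Sym2 (Fin n) // ¬ e.IsDiag}).factorial : ℝ))
        Filter.atTop (nhds 1)) := by
  intro hall
  obtain ⟨k₀, hB⟩ := hB
  obtain ⟨k₁, hk₁⟩ := exists_nat_ge (Real.exp 100)
  set k : ℕ := max k₀ (max k₁ 1000) with hk
  have hkk0 : k₀ ≤ k := le_max_left _ _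
  have hkk1 : k₁ ≤ k := (le_max_left _ _).trans (le_max_right _ _)
  have hk1000 : 1000 ≤ k := (le_max_right _ _).trans (le_max_right _ _)
  have hkR : (1000 : ℝ) ≤ k := by exact_mod_cast hk1000
  have hlogk : 100 ≤ Real.log k := by
    rw [Real.le_log_iff_exp_le (by linarith)]
    refine hk₁.trans ?_
    exact_mod_cast hkk1
  set L := Real.log k with hL
  set K : ℕ := k - 3 with hK
  have hK3 : K + 3 = k := by omega
  have hK8 : 8 ≤ K := by omega
  have hKR : (K : ℝ) = k - 3 := by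
    rw [hK, Nat.cast_sub (by omega)]; norm_num
  have hlogK : L - 1 / 50 ≤ Real.log K := by
    have h1 : Real.log (99 / 100 * k) ≤ Real.log K := by
      refine Real.log_le_log (by positivity) ?_
      rw [hKR]; linarith
    rw [Real.log_mul (by norm_num) (by linarith)] at h1
    have h2 : -(1 / 50 : ℝ) ≤ Real.log (99 / 100) := by
      have := Real.one_sub_inv_le_log_of_pos (show (0:ℝ) < 99 / 100 by norm_num)
      refine le_trans ?_ this
      norm_num
    linarith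
  set c : ℝ := 94 / 100 * (k * L) with hc
  have hkL : 0 < (k : ℝ) * L := by positivity
  have hcK : c < K * (Real.log K - 1) := by
    have h1 : (K : ℝ) * (L - 1 / 50 - 1) ≤ K * (Real.log K - 1) :=
      mul_le_mul_of_nonneg_left (by linarith) (Nat.cast_nonneg _)
    refine lt_of_lt_of_le ?_ h1
    rw [hKR, hc]
    nlinarith
  obtain ⟨N₁, hN₁⟩ := hB k hkk0 (1 / 8) (by norm_num)
  obtain ⟨N₂, hN₂⟩ := hC K hK8 c (by positivity) hcK (1 / 8) (by norm_num)
  set ε : ℝ := 1 / 100 * (k * L) with hε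
  have hε0 : 0 < ε := by positivity
  have htend := hall k (by omega) ε hε0
  have hev := htend.eventually (lt_mem_nhds (show (1 / 2 : ℝ) < 1 by norm_num))
  obtain ⟨n₀, hn₀⟩ := Filter.eventually_atTop.1 hev
  set N' : ℕ := N₁ + N₂ + n₀ + 1 with hN'
  set n : ℕ := k * (K * N') with hn
  have hKpos : 1 ≤ K := by omega
  have hkpos : 1 ≤ k := by omega
  have hn1 : N' ≤ n := by
    rw [hn, ← mul_assoc]
    exact Nat.le_mul_of_pos_left _ (Nat.mul_pos hkpos hKpos)
  have hnn₀ : n₀ ≤ n := le_trans (by omega) hn1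
  obtain ⟨m, hm, hmU⟩ := hN₁ (K * N') (le_trans (by omega : N₁ ≤ N')
    (Nat.le_mul_of_pos_left _ hKpos)) n rfl
  have hnR : (1 : ℝ) ≤ n := by
    have : 1 ≤ n := le_trans (by omega) hn1
    exact_mod_cast this
  have hcol := hN₂ (k * N') (le_trans (by omega : N₂ ≤ N') (Nat.le_mul_of_pos_left _ hkpos)) n
    (by rw [hn]; ring) ⌊c * n⌋₊ (Nat.floor_le (by positivity))
  rw [hK3] at hcol
  have hfloor := Nat.sub_one_lt_floor (c * (n : ℝ))
  have hgap : (m : ℝ) + ε * n < (⌊c * n⌋₊ : ℝ) := by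
    have h1 : (1 : ℝ) < 1 / 100 * (k * L) * n := by
      have : (1000 : ℝ) * 100 ≤ k * L := mul_le_mul hkR hlogk (by norm_num) (by linarith)
      nlinarith
    rw [hε]
    have h2 : c * n = 92 / 100 * (k * L) * n + 1 / 100 * (k * L) * n + 1 / 100 * (k * L) * n := by
      rw [hc]; ring
    linarith
  have hfin := ratio_le k n m ⌊c * n⌋₊ (by omega) ε hgap (by linarith) (by linarith)
  have := hn₀ n hnn₀
  linarith

end Pool.Agent.H982R2.BL
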