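import Pool.Agent.H982R2.BLStar

/-! Union bounds for the planted model: F2, F3, F4. -/

set_option autoImplicit false

namespace Pool.Agent.H982R2.BL

open Finset Classical

noncomputable section

variable {n k : ℕ}

lemma dg_congr {G G' : Finset (Pr n)} {v : Fin n} {W : Finset (Fin n)}
    (h : ∀ w ∈ W, ∀ hd : ¬ (s(v, w)).IsDiag, ((⟨s(v, w), hd⟩ : Pr n) ∈ G ↔ (⟨s(v, w), hd⟩ : Pr n) ∈ G')) :
    dg G v W = dg G' v W := by
  unfold dg
  congr 1
  refine Finset.filter_congr fun w hw => ?_
  rw [gr_adj, gr_adj]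
  constructor
  · rintro ⟨hd, h1⟩
    exact ⟨hd, (h w hw hd).1 h1⟩
  · rintro ⟨hd, h1⟩
    exact ⟨hd, (h w hw hd).2 h1⟩

lemma dg_union (G : Finset (Pr n)) (v : Fin n) (W W' : Finset (Fin n)) :
    dg G v (W ∪ W') ≤ dg G v W + dg G v W' := by
  unfold dg
  rw [Finset.filter_union]
  exact Finset.card_union_le _ _

/-- vertices with few neighbours outside `S'` in some other class -/
def Zb (σ : Fin n → Fin k) (D : ℕ) (G : Finset (Pr n)) (S' : Finset (Fin n)) :
    Finset (Fin n) :=
  univ.filter fun w => ∃ l, l ≠ σ w ∧ dg G w (cl σ l \ S') < 2 * D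

lemma bad1_subset_Zb (σ : Fin n → Fin k) (D : ℕ) (G : Finset (Pr n)) (S' : Finset (Fin n)) :
    bad1 σ D G ⊆ Zb σ D G S' := by
  intro v hv
  simp only [bad1, Zb, Finset.mem_filter, Finset.mem_univ, true_and] at hv ⊢
  obtain ⟨l, hl, h⟩ := hv
  exact ⟨l, hl, lt_of_le_of_lt (dg_mono G v Finset.sdiff_subset) h⟩

lemma def1_spec (σ : Fin n → Fin k) (D : ℕ) (G : Finset (Pr n)) (S' : Finset (Fin n))
    {v : Fin n} (hv : v ∈ def1 σ D G) :
    ∃ j, j ≠ σ v ∧ D ≤ dg G v (Zb σ D G S' ∩ cl σ j) := by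
  simp only [def1, Finset.mem_filter, Finset.mem_sdiff, Finset.mem_univ, true_and] at hv
  obtain ⟨hb, j, hj, hlt⟩ := hv
  refine ⟨j, hj, ?_⟩
  have h1 : ¬ dg G v (cl σ j) < 2 * D := by
    intro h
    apply hb
    simp only [bad1, Finset.mem_filter, Finset.mem_univ, true_and]
    exact ⟨j, hj, h⟩
  have h2 : cl σ j = ((univ \ bad1 σ D G) ∩ cl σ j) ∪ (bad1 σ D G ∩ cl σ j) := by
    ext w
    simp only [Finset.mem_union, Finset.mem_inter, Finset.mem_sdiff, Finset.mem_univ, true_and]
    tauto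
  have h3 := dg_union G v ((univ \ bad1 σ D G) ∩ cl σ j) (bad1 σ D G ∩ cl σ j)
  rw [← h2] at h3
  have h4 : dg G v (bad1 σ D G ∩ cl σ j) ≤ dg G v (Zb σ D G S' ∩ cl σ j) :=
    dg_mono G v (Finset.inter_subset_inter_right (bad1_subset_Zb σ D G S'))
  omega

/-- event F2 for a fixed set `S` inside class `i` -/
lemma P_F2 {p : ℝ} (hp0 : 0 ≤ p) (hp1 : p ≤ 1) (hk : 0 < k) (σ : Fin n → Fin k)
    (i : Fin k) (S : Finset (Fin n)) (hS : S ⊆ cl σ i) (y₁ D₀ D : ℕ) {x : ℝ} (hx : 1 ≤ x) :
    P p (univ \ mono σ) {G | ∀ v ∈ S, ∃ j, j ≠ σ v ∧ 2 * D₀ ≤ dg G v (Zb σ D G S ∩ cl σ j)} ≤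
      (∑ j : Fin k, P p (univ \ mono σ) {G | y₁ ≤ (Zb σ D G S ∩ cl σ j).card}) +
      (k * ((x ^ D₀)⁻¹ * Real.exp (p * x * y₁))) ^ S.card := by
  set E : Finset (Pr n) := univ \ mono σ with hE
  let E₂ : Finset (Pr n) := E.filter fun e => ∃ v ∈ S, v ∈ e.1
  let E₁ : Finset (Pr n) := E.filter fun e => ¬ ∃ v ∈ S, v ∈ e.1
  have hEE : E₁ ∪ E₂ = E := by
    rw [Finset.union_comm]; exact Finset.filter_union_filter_not_eq _ _
  have hdisj : Disjoint E₁ E₂ := (Finset.disjoint_filter_filter_not _ _ _).symm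
  set A : Set (Finset (Pr n)) :=
    {G | ∀ v ∈ S, ∃ j, j ≠ σ v ∧ 2 * D₀ ≤ dg G v (Zb σ D G S ∩ cl σ j)} with hA
  set B : Set (Finset (Pr n)) := {G | G ∈ A ∧ ∀ j, (Zb σ D G S ∩ cl σ j).card < y₁} with hB
  set C : Set (Finset (Pr n)) := {G | ∃ j ∈ (univ : Finset (Fin k)),
    G ∈ {G : Finset (Pr n) | y₁ ≤ (Zb σ D G S ∩ cl σ j).card}} with hC
  have h1 : P p E A ≤ P p E C + P p E B := by
    refine le_trans (P_mono hp0 hp1 E ?_) (P_union2 hp0 hp1 E C B)
    intro G _ hG
    rw [Set.mem_ofPred]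
    by_cases h : ∀ j, (Zb σ D G S ∩ cl σ j).card < y₁
    · right
      rw [hB, Set.mem_ofPred]
      exact ⟨hG, h⟩
    · left
      push Not at h
      obtain ⟨j, hj⟩ := h
      rw [hC, Set.mem_ofPred]
      refine ⟨j, Finset.mem_univ _, ?_⟩
      rw [Set.mem_ofPred]
      exact hj
  refine h1.trans (add_le_add (P_union hp0 hp1 E univ _) ?_)
  -- the conditional estimate
  rw [P_eq_Ex, ← hEE]
  have hsplit := Ex_split' p E₁ E₂ hdisj (fun G => if G ∈ B then (1:ℝ) else 0)
  refine (le_of_eq (?_ : _ = Ex p E₁ (fun G₁ => Ex p E₂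
    (fun G₂ => if (G₁ ∪ G₂) ∈ B then (1:ℝ) else 0)))).trans ?_
  · convert hsplit
  set c : ℝ := (k * ((x ^ D₀)⁻¹ * Real.exp (p * x * y₁))) ^ S.card with hc
  have hc1 : Ex p E₁ (fun _ => c) = c := by
    have := Ex_const_mul p E₁ c (fun _ => 1)
    rw [Ex_one] at this
    simpa using this
  rw [← hc1]
  refine Ex_mono hp0 hp1 E₁ fun G₁ hG₁ => ?_
  -- fixed G₁
  have hG₁S : ∀ e ∈ G₁, ∀ v ∈ S, v ∉ e.1 := by
    intro e he v hv hve
    have := hG₁ he
    simp only [E₁, Finset.mem_filter] at this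
    exact this.2 ⟨v, hv, hve⟩
  by_cases hsmall : ∀ j, j ≠ i → (Zb σ D G₁ S ∩ cl σ j).card < y₁
  · let Z : Fin k → Finset (Fin n) := fun j => if j = i then ∅ else Zb σ D G₁ S ∩ cl σ j
    have hZ : ∀ j, (Z j).card ≤ y₁ := by
      intro j
      by_cases hj : j = i
      · simp [Z, hj]
      · simp only [Z, hj, if_false]
        exact (hsmall j hj).le
    have hZE : ∀ v ∈ S, ∀ j, j ≠ σ v → star v (Z j) ⊆ E₂ := by
      intro v hv j hj e he
      obtain ⟨w, hw, h2⟩ := mem_star.1 he
      have hwj : w ∈ cl σ j := by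
        by_cases hji : j = i
        · simp [Z, hji] at hw
        · simp only [Z, hji, if_false] at hw
          exact Finset.inter_subset_right hw
      simp only [E₂, Finset.mem_filter, hE]
      rw [mem_E h2]
      refine ⟨?_, v, hv, ?_⟩
      · rw [mem_cl.1 hwj]; exact hj.symm
      · rw [h2]; exact Sym2.mem_mk_left _ _
    have h3 := P_selfsup hp0 hp1 hk σ E₂ S Z y₁ D₀ hZ hZE hx
    refine le_trans ?_ h3
    rw [P_eq_Ex]
    refine Ex_mono hp0 hp1 E₂ fun G₂ hG₂ => ?_
    by_cases hGB : (G₁ ∪ G₂) ∈ B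
    · rw [if_pos hGB, if_pos]
      rw [hB, Set.mem_ofPred, hA, Set.mem_ofPred] at hGB
      rw [Set.mem_ofPred]
      intro v hv
      obtain ⟨j, hj, hd⟩ := hGB.1 v hv
      refine ⟨j, hj, ?_⟩
      have hvi : σ v = i := mem_cl.1 (hS hv)
      have hji : j ≠ i := by rw [← hvi]; exact hj
      refine hd.trans ?_
      -- first replace the set
      have hset : Zb σ D (G₁ ∪ G₂) S ∩ cl σ j ⊆ Z j := by
        intro w hw
        rw [Finset.mem_inter] at hw
        simp only [Z, hji, if_false]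
        rw [Finset.mem_inter]
        refine ⟨?_, hw.2⟩
        have hw1 := hw.1
        simp only [Zb, Finset.mem_filter, Finset.mem_univ, true_and] at hw1 ⊢
        obtain ⟨l, hl, hlt⟩ := hw1
        refine ⟨l, hl, lt_of_le_of_lt ?_ hlt⟩
        refine Finset.card_le_card ?_
        intro u hu
        rw [Finset.mem_filter] at hu ⊢
        refine ⟨hu.1, ?_⟩
        rw [gr_adj] at hu ⊢
        obtain ⟨hd, hm⟩ := hu.2
        exact ⟨hd, Finset.mem_union_left _ hm⟩
      refine (dg_mono _ v hset).trans (le_of_eq ?_)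
      refine dg_congr fun w _ hd => ?_
      rw [Finset.mem_union]
      constructor
      · rintro (h | h)
        · exact absurd (Sym2.mem_mk_left v w) (hG₁S _ h v hv)
        · exact h
      · intro h
        exact Or.inr h
    · rw [if_neg hGB]
      split_ifs <;> norm_num
  · -- then the indicator vanishes
    push Not at hsmall
    obtain ⟨j, hji, hj⟩ := hsmall
    have hzero : ∀ G₂, G₂ ⊆ E₂ → (G₁ ∪ G₂) ∉ B := by
      intro G₂ hG₂ hGB
      rw [hB, Set.mem_ofPred] at hGB
      have := hGB.2 j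
      apply absurd this
      push Not
      refine hj.trans (Finset.card_le_card ?_)
      intro w hw
      rw [Finset.mem_inter] at hw ⊢
      refine ⟨?_, hw.2⟩
      have hwS : w ∉ S := by
        intro h
        apply hji
        rw [← mem_cl.1 hw.2, mem_cl.1 (hS h)]
      have hw1 := hw.1
      simp only [Zb, Finset.mem_filter, Finset.mem_univ, true_and] at hw1 ⊢
      obtain ⟨l, hl, hlt⟩ := hw1
      refine ⟨l, hl, lt_of_le_of_lt (le_of_eq ?_) hlt⟩
      refine dg_congr fun u hu hd => ?_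
      rw [Finset.mem_union]
      constructor
      · rintro (h | h)
        · exact h
        · exfalso
          have h' := hG₂ h
          simp only [E₂, Finset.mem_filter, Sym2.mem_iff] at h'
          obtain ⟨_, v, hv, hv'⟩ := h'
          rcases hv' with hv' | hv'
          · exact hwS (hv' ▸ hv)
          · exact (Finset.mem_sdiff.1 hu).2 (hv' ▸ hv)
      · intro h
        exact Or.inl h
    have hle : Ex p E₂ (fun G₂ => if (G₁ ∪ G₂) ∈ B then (1:ℝ) else 0) ≤
        Ex p E₂ (fun _ => 0) := by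
      refine Ex_mono hp0 hp1 E₂ fun G₂ hG₂ => ?_
      rw [if_neg (hzero G₂ hG₂)]
    refine hle.trans ?_
    have : Ex p E₂ (fun _ => (0:ℝ)) = 0 := by simp [Ex]
    rw [this]
    positivity

/-- sums over subsets with size constraints -/
lemma sum_subset_ge {β : Type*} (V : Finset β) (r₀ : ℕ) {y c : ℝ} (hy : 1 ≤ y) (hc : 0 ≤ c)
    (I : Finset (Finset β)) (hI : I ⊆ V.powerset) (hr : ∀ T ∈ I, r₀ ≤ T.card) :
    ∑ T ∈ I, c ^ T.card ≤ (y ^ r₀)⁻¹ * (1 + y * c) ^ V.card := by
  have hy0 : 0 < y := by linarith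
  have h1 : ∀ T ∈ I, c ^ T.card ≤ (y ^ r₀)⁻¹ * ((y * c) ^ T.card * 1 ^ (V.card - T.card)) := by
    intro T hT
    rw [one_pow, mul_one, mul_pow, ← mul_assoc]
    have : y ^ r₀ ≤ y ^ T.card := pow_le_pow_right₀ hy (hr T hT)
    have h2 : 1 ≤ (y ^ r₀)⁻¹ * y ^ T.card := by
      rw [inv_mul_eq_div, le_div_iff₀ (by positivity)]
      linarith
    have h3 : 0 ≤ c ^ T.card := by positivity
    nlinarith
  refine (Finset.sum_le_sum h1).trans ?_
  rw [← Finset.mul_sum]
  refine mul_le_mul_of_nonneg_left ?_ (by positivity)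
  rw [add_comm (1:ℝ) (y * c), ← Finset.sum_pow_mul_eq_add_pow]
  refine Finset.sum_le_sum_of_subset_of_nonneg hI fun T _ _ => ?_
  positivity

lemma card_subset_le {β : Type*} (V : Finset β) (q₀ : ℕ) {z : ℝ} (hz0 : 0 < z) (hz : z ≤ 1)
    (I : Finset (Finset β)) (hI : I ⊆ V.powerset) (hr : ∀ T ∈ I, T.card ≤ q₀) :
    (I.card : ℝ) ≤ (z ^ q₀)⁻¹ * (1 + z) ^ V.card := by
  have h1 : ∀ T ∈ I, (1 : ℝ) ≤ (z ^ q₀)⁻¹ * (z ^ T.card * 1 ^ (V.card - T.card)) := by
    intro T hT
    rw [one_pow, mul_one]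
    have : z ^ q₀ ≤ z ^ T.card := pow_le_pow_of_le_one hz0.le hz (hr T hT)
    rw [inv_mul_eq_div, le_div_iff₀ (by positivity)]
    linarith
  have h2 := Finset.sum_le_sum h1
  rw [Finset.sum_const, nsmul_eq_mul, mul_one, ← Finset.mul_sum] at h2
  refine h2.trans (mul_le_mul_of_nonneg_left ?_ (by positivity))
  rw [add_comm (1:ℝ) z, ← Finset.sum_pow_mul_eq_add_pow]
  refine Finset.sum_le_sum_of_subset_of_nonneg hI fun T _ _ => ?_
  positivity

/-- event F3: large self-supporting sets -/
lemma P_F3 {p : ℝ} (hp0 : 0 ≤ p) (hp1 : p ≤ 1) (hk : 0 < k) (σ : Fin n → Fin k)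
    (q₀ g D₀ : ℕ) {x y z : ℝ} (hx : 1 ≤ x) (hy : 1 ≤ y) (hz0 : 0 < z) (hz : z ≤ 1) :
    P p (univ \ mono σ) {G | ∃ Q T : Finset (Fin n), Q.card ≤ q₀ ∧
      (∀ v ∈ T \ Q, ∃ j, j ≠ σ v ∧ 2 * D₀ ≤ dg G v (T ∩ cl σ j)) ∧
      (∀ j, (T ∩ cl σ j).card ≤ 2 * g) ∧ (∃ j, g < (T ∩ cl σ j).card)} ≤
      ((z ^ q₀)⁻¹ * (1 + z) ^ n) * ((y ^ (g - q₀))⁻¹ *
        (1 + y * (k * ((x ^ D₀)⁻¹ * Real.exp (p * x * (2 * g : ℕ))))) ^ n) := by
  set E : Finset (Pr n) := univ \ mono σ with hE
  set c : ℝ := k * ((x ^ D₀)⁻¹ * Real.exp (p * x * (2 * g : ℕ))) with hc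
  have hc0 : 0 ≤ c := by positivity
  let IQ : Finset (Finset (Fin n)) := univ.filter fun Q => Q.card ≤ q₀
  let IT : Finset (Finset (Fin n)) := univ.filter fun T => g - q₀ ≤ T.card
  let A : Finset (Fin n) × Finset (Fin n) → Set (Finset (Pr n)) := fun QT =>
    if (∀ j, ((QT.1 ∪ QT.2) ∩ cl σ j).card ≤ 2 * g) then
      {G | ∀ v ∈ QT.2, ∃ j, j ≠ σ v ∧ 2 * D₀ ≤ dg G v ((QT.1 ∪ QT.2) ∩ cl σ j)} else ∅
  have h1 := P_union hp0 hp1 E (IQ ×ˢ IT) A
  have h2 : ∀ QT ∈ IQ ×ˢ IT, P p E (A QT) ≤ c ^ QT.2.card := by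
    rintro ⟨Q, T⟩ _
    simp only [A]
    split_ifs with h
    · refine P_selfsup hp0 hp1 hk σ E T (fun j => (Q ∪ T) ∩ cl σ j) (2 * g) D₀ h ?_ hx
      intro v _ j hj
      refine star_subset_E fun w hw => ?_
      rw [mem_cl.1 (Finset.mem_inter.1 hw).2]
      exact hj
    · rw [P_eq_Ex]
      simp only [Set.mem_empty_iff_false, if_false]
      have : Ex p E (fun _ => (0:ℝ)) = 0 := by simp [Ex]
      rw [this]
      positivity
  refine (P_mono hp0 hp1 E ?_).trans (h1.trans ((Finset.sum_le_sum h2).trans ?_))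
  · intro G _ hG
    rw [Set.mem_ofPred] at hG ⊢
    obtain ⟨Q, T, hQ, hs, hT, j, hj⟩ := hG
    have hunion : (Q ∩ T) ∪ (T \ Q) = T := by
      ext v
      simp only [Finset.mem_union, Finset.mem_inter, Finset.mem_sdiff]
      tauto
    refine ⟨(Q ∩ T, T \ Q), ?_, ?_⟩
    · simp only [IQ, IT, Finset.mem_product, Finset.mem_filter, Finset.mem_univ, true_and]
      refine ⟨(Finset.card_le_card Finset.inter_subset_left).trans hQ, ?_⟩
      have e1 : (T ∩ cl σ j).card ≤ T.card := Finset.card_le_card Finset.inter_subset_left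
      have e2 := Finset.le_card_sdiff Q T
      omega
    · simp only [A, hunion]
      rw [if_pos hT, Set.mem_ofPred]
      exact hs
  · rw [Finset.sum_product]
    have h3 : ∑ T ∈ IT, c ^ T.card ≤ (y ^ (g - q₀))⁻¹ * (1 + y * c) ^ n := by
      have := sum_subset_ge (univ : Finset (Fin n)) (g - q₀) hy hc0 IT
        (fun T _ => Finset.mem_powerset.2 (Finset.subset_univ _))
        (fun T hT => (Finset.mem_filter.1 hT).2)
      simpa using this
    have h4 : (IQ.card : ℝ) ≤ (z ^ q₀)⁻¹ * (1 + z) ^ n := by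
      have := card_subset_le (univ : Finset (Fin n)) q₀ hz0 hz IQ
        (fun T _ => Finset.mem_powerset.2 (Finset.subset_univ _))
        (fun T hT => (Finset.mem_filter.1 hT).2)
      simpa using this
    simp only []
    rw [Finset.sum_const, nsmul_eq_mul]
    exact mul_le_mul h4 h3 (Finset.sum_nonneg fun T _ => by positivity) (by positivity)

/-- event F4 for one pair of classes -/
lemma P_F4 {p : ℝ} (hp0 : 0 ≤ p) (hp1 : p ≤ 1) (σ : Fin n → Fin k)
    (N : ℕ) (hN : ∀ i, (cl σ i).card = N) (i j : Fin k) (hij : i ≠ j)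
    (g : ℕ) {y z : ℝ} (hy : 1 ≤ y) (hz0 : 0 < z) (hz : z ≤ 1) :
    P p (univ \ mono σ) {G | ∃ W C : Finset (Fin n), W ⊆ cl σ i ∪ cl σ j ∧
      ((cl σ i ∪ cl σ j) \ W).card ≤ 4 * g ∧ C ⊆ W ∧ g ≤ C.card ∧ 2 * C.card ≤ W.card ∧
      (∀ u ∈ C, ∀ w ∈ W \ C, ¬ (gr G).Adj u w)} ≤
      ((z ^ (4 * g))⁻¹ * (1 + z) ^ (2 * N)) * ((y ^ g)⁻¹ *
        (1 + y * Real.exp (-(p * (99 / 100) * ((N : ℝ) / 2 - 4 * g)))) ^ (2 * N)) := by
  set E : Finset (Pr n) := univ \ mono σ with hE
  set c : ℝ := Real.exp (-(p * (99 / 100) * ((N : ℝ) / 2 - 4 * g))) with hc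
  have hc0 : 0 ≤ c := Real.exp_nonneg _
  set V : Finset (Fin n) := cl σ i ∪ cl σ j with hV
  have hVcard : V.card = 2 * N := by
    rw [hV, Finset.card_union_of_disjoint, hN, hN]
    · ring
    · rw [Finset.disjoint_left]
      intro v h1 h2
      exact hij ((mem_cl.1 h1).symm.trans (mem_cl.1 h2))
  let IX : Finset (Finset (Fin n)) := V.powerset.filter fun X => X.card ≤ 4 * g
  let IC : Finset (Finset (Fin n)) := V.powerset.filter fun C => g ≤ C.card
  let A : Finset (Fin n) × Finset (Fin n) → Set (Finset (Pr n)) := fun XC =>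
    if XC.2 ⊆ V \ XC.1 ∧ 2 * XC.2.card ≤ (V \ XC.1).card then
      {G | ∀ u ∈ XC.2, ∀ w ∈ (V \ XC.1) \ XC.2, ¬ (gr G).Adj u w} else ∅
  have h1 := P_union hp0 hp1 E (IX ×ˢ IC) A
  have h2 : ∀ XC ∈ IX ×ˢ IC, P p E (A XC) ≤ c ^ XC.2.card := by
    rintro ⟨X, C⟩ hXC
    simp only [IX, IC, Finset.mem_product, Finset.mem_filter, Finset.mem_powerset] at hXC
    obtain ⟨⟨hXV, hX4⟩, hCV, hCg⟩ := hXC
    simp only [A]
    split_ifs with h
    · obtain ⟨hCW, hC2⟩ := h
      set W : Finset (Fin n) := V \ X with hW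
      let Z : Fin n → Finset (Fin n) := fun u =>
        if σ u = i then (W \ C) ∩ cl σ j else (W \ C) ∩ cl σ i
      have hZsub : ∀ u, Z u ⊆ W \ C := by
        intro u
        simp only [Z]
        split_ifs <;> exact Finset.inter_subset_left
      have hFsub : stars C Z ⊆ E := by
        intro e he
        obtain ⟨v, hv, he'⟩ := Finset.mem_biUnion.1 he
        refine star_subset_E ?_ he'
        intro w hw
        have hv' : σ v = i ∨ σ v = j := by
          have := hCV hv
          rw [hV, Finset.mem_union, mem_cl, mem_cl] at this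
          exact this
        by_cases hvi : σ v = i
        · simp only [Z, hvi, if_true] at hw
          rw [mem_cl.1 (Finset.mem_inter.1 hw).2, hvi]
          exact hij.symm
        · simp only [Z, hvi, if_false] at hw
          rw [mem_cl.1 (Finset.mem_inter.1 hw).2]
          exact fun h => hvi h.symm
      have h3 := P_card_le hp0 hp1 E (stars C Z) hFsub 0 (x := 1/100) (by norm_num) (by norm_num)
      refine (P_mono hp0 hp1 E ?_).trans (h3.trans ?_)
      · intro G _ hG
        rw [Set.mem_ofPred] at hG ⊢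
        have : G ∩ stars C Z = ∅ := by
          rw [Finset.eq_empty_iff_forall_notMem]
          intro e he
          obtain ⟨heG, heS⟩ := Finset.mem_inter.1 he
          obtain ⟨v, hv, he'⟩ := Finset.mem_biUnion.1 heS
          obtain ⟨w, hw, hvw⟩ := mem_star.1 he'
          refine hG v hv w (hZsub v hw) ?_
          rw [gr_adj]
          refine ⟨by rw [← hvw]; exact e.2, ?_⟩
          convert heG
          exact hvw.symm
        rw [Nat.le_zero, Finset.card_eq_zero]
        convert this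
      · rw [pow_zero, inv_one, one_mul, hc, ← Real.exp_nat_mul]
        refine Real.exp_le_exp.2 ?_
        -- count edges
        have hcount : (C.card : ℝ) * ((N : ℝ) / 2 - 4 * g) ≤ ((stars C Z).card : ℝ) := by
          rw [card_stars_eq]
          · have hsplit : ∑ v ∈ C, (Z v).card =
                (C ∩ cl σ i).card * ((W \ C) ∩ cl σ j).card +
                (C ∩ cl σ j).card * ((W \ C) ∩ cl σ i).card := by
              have e1 : C = (C ∩ cl σ i) ∪ (C ∩ cl σ j) := by
                rw [← Finset.inter_union_distrib_left]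
                exact (Finset.inter_eq_left.2 hCV).symm
              have e2 : Disjoint (C ∩ cl σ i) (C ∩ cl σ j) := by
                rw [Finset.disjoint_left]
                intro v h1 h2
                exact hij ((mem_cl.1 (Finset.mem_inter.1 h1).2).symm.trans
                  (mem_cl.1 (Finset.mem_inter.1 h2).2))
              conv_lhs => rw [e1]
              rw [Finset.sum_union e2]
              congr 1
              · rw [Finset.sum_congr rfl (g := fun _ => ((W \ C) ∩ cl σ j).card), Finset.sum_const,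
                  smul_eq_mul]
                intro v hv
                simp only [Z, mem_cl.1 (Finset.mem_inter.1 hv).2, if_true]
              · rw [Finset.sum_congr rfl (g := fun _ => ((W \ C) ∩ cl σ i).card), Finset.sum_const,
                  smul_eq_mul]
                intro v hv
                have : σ v ≠ i := by
                  rw [mem_cl.1 (Finset.mem_inter.1 hv).2]; exact hij.symm
                simp only [Z, this, if_false]
            rw [hsplit]
            push_cast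
            -- cardinalities
            have ca : C.card = (C ∩ cl σ i).card + (C ∩ cl σ j).card := by
              rw [← Finset.card_union_of_disjoint, ← Finset.inter_union_distrib_left,
                Finset.inter_eq_left.2 hCV]
              rw [Finset.disjoint_left]
              intro v h1 h2
              exact hij ((mem_cl.1 (Finset.mem_inter.1 h1).2).symm.trans
                (mem_cl.1 (Finset.mem_inter.1 h2).2))
            have cb : ∀ l, l = i ∨ l = j → N ≤ ((W \ C) ∩ cl σ l).card + (C ∩ cl σ l).card +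
                4 * g := by
              intro l hl
              have hsub : cl σ l ⊆ (((W \ C) ∩ cl σ l) ∪ (C ∩ cl σ l)) ∪ X := by
                intro v hv
                have hvV : v ∈ V := by
                  rw [hV, Finset.mem_union]
                  rcases hl with hl | hl
                  · left; rw [← hl]; exact hv
                  · right; rw [← hl]; exact hv
                simp only [hW, Finset.mem_union, Finset.mem_inter, Finset.mem_sdiff]
                tauto
              have := Finset.card_le_card hsub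
              rw [hN] at this
              have e1 := Finset.card_union_le (((W \ C) ∩ cl σ l) ∪ (C ∩ cl σ l)) X
              have e2 := Finset.card_union_le ((W \ C) ∩ cl σ l) (C ∩ cl σ l)
              omega
            have cc : C.card ≤ N := by
              have : W.card ≤ V.card := Finset.card_le_card Finset.sdiff_subset
              omega
            have cbi := cb i (Or.inl rfl)
            have cbj := cb j (Or.inr rfl)
            have ra : (C.card : ℝ) = ((C ∩ cl σ i).card : ℝ) + ((C ∩ cl σ j).card : ℝ) := by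
              exact_mod_cast ca
            have rbi : (N : ℝ) ≤ (((W \ C) ∩ cl σ i).card : ℝ) + ((C ∩ cl σ i).card : ℝ) + 4 * g := by
              exact_mod_cast cbi
            have rbj : (N : ℝ) ≤ (((W \ C) ∩ cl σ j).card : ℝ) + ((C ∩ cl σ j).card : ℝ) + 4 * g := by
              exact_mod_cast cbj
            have rc : (C.card : ℝ) ≤ N := by exact_mod_cast cc
            set a : ℝ := ((C ∩ cl σ i).card : ℝ)
            set b : ℝ := ((C ∩ cl σ j).card : ℝ)
            set wi : ℝ := (((W \ C) ∩ cl σ i).card : ℝ)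
            set wj : ℝ := (((W \ C) ∩ cl σ j).card : ℝ)
            have ha : 0 ≤ a := Nat.cast_nonneg _
            have hb : 0 ≤ b := Nat.cast_nonneg _
            rw [ra] at rc ⊢
            have m1 : a * ((N : ℝ) - b - 4 * g) ≤ a * wj := mul_le_mul_of_nonneg_left (by linarith) ha
            have m2 : b * ((N : ℝ) - a - 4 * g) ≤ b * wi := mul_le_mul_of_nonneg_left (by linarith) hb
            nlinarith [mul_nonneg (add_nonneg ha hb) (sub_nonneg.2 rc), sq_nonneg (a - b)]
          · intro v _ w hw h'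
            exact (Finset.mem_sdiff.1 (hZsub v h')).2 hw
        have h0 : 0 ≤ p * (99 / 100) := by positivity
        have := mul_le_mul_of_nonneg_left hcount h0
        linarith
    · rw [P_eq_Ex]
      simp only [Set.mem_empty_iff_false, if_false]
      have : Ex p E (fun _ => (0:ℝ)) = 0 := by simp [Ex]
      rw [this]
      positivity
  refine (P_mono hp0 hp1 E ?_).trans (h1.trans ((Finset.sum_le_sum h2).trans ?_))
  · intro G _ hG
    rw [Set.mem_ofPred] at hG ⊢
    obtain ⟨W, C, hW, hW4, hC, hCg, hC2, hcl⟩ := hG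
    have hWW : V \ (V \ W) = W := Finset.sdiff_sdiff_eq_self hW
    refine ⟨(V \ W, C), ?_, ?_⟩
    · simp only [IX, IC, Finset.mem_product, Finset.mem_filter, Finset.mem_powerset]
      exact ⟨⟨Finset.sdiff_subset, hW4⟩, hC.trans hW, hCg⟩
    · simp only [A, hWW]
      rw [if_pos ⟨hC, hC2⟩, Set.mem_ofPred]
      exact hcl
  · rw [Finset.sum_product]
    have h3 : ∑ T ∈ IC, c ^ T.card ≤ (y ^ g)⁻¹ * (1 + y * c) ^ (2 * N) := by
      have := sum_subset_ge V g hy hc0 IC (Finset.filter_subset _ _)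
        (fun T hT => (Finset.mem_filter.1 hT).2)
      rwa [hVcard] at this
    have h4 : (IX.card : ℝ) ≤ (z ^ (4 * g))⁻¹ * (1 + z) ^ (2 * N) := by
      have := card_subset_le V (4 * g) hz0 hz IX (Finset.filter_subset _ _)
        (fun T hT => (Finset.mem_filter.1 hT).2)
      rwa [hVcard] at this
    simp only []
    rw [Finset.sum_const, nsmul_eq_mul]
    exact mul_le_mul h4 h3 (Finset.sum_nonneg fun T _ => by positivity) (by positivity)

end

end Pool.Agent.H982R2.BL
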