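import Pool.Agent.H982R2.BLBase

/-! Elementary probability for a random subset of a finite set. -/

set_option autoImplicit false

namespace Pool.Agent.H982R2.BL

open Finset Classical

noncomputable section

variable {α : Type*}

/-- expectation of `f` over the `p`-random subset of `E` -/
def Ex (p : ℝ) (E : Finset α) (f : Finset α → ℝ) : ℝ :=
  ∑ G ∈ E.powerset, p ^ G.card * (1 - p) ^ (E.card - G.card) * f G

lemma wt_nonneg {p : ℝ} (hp0 : 0 ≤ p) (hp1 : p ≤ 1) (a b : ℕ) : 0 ≤ p ^ a * (1 - p) ^ b :=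
  mul_nonneg (pow_nonneg hp0 _) (pow_nonneg (by linarith) _)

lemma P_eq_Ex (p : ℝ) (E : Finset α) (A : Set (Finset α)) :
    P p E A = Ex p E (fun G => if G ∈ A then 1 else 0) := by
  unfold P Ex
  rw [Finset.sum_filter]
  refine Finset.sum_congr rfl fun G _ => ?_
  by_cases h : G ∈ A <;> simp [h]

lemma Ex_mono {p : ℝ} (hp0 : 0 ≤ p) (hp1 : p ≤ 1) (E : Finset α) {f g : Finset α → ℝ}
    (h : ∀ G, G ⊆ E → f G ≤ g G) : Ex p E f ≤ Ex p E g := by
  unfold Ex
  refine Finset.sum_le_sum fun G hG => ?_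
  exact mul_le_mul_of_nonneg_left (h G (Finset.mem_powerset.1 hG)) (wt_nonneg hp0 hp1 _ _)

lemma Ex_nonneg {p : ℝ} (hp0 : 0 ≤ p) (hp1 : p ≤ 1) (E : Finset α) {f : Finset α → ℝ}
    (h : ∀ G, G ⊆ E → 0 ≤ f G) : 0 ≤ Ex p E f :=
  Finset.sum_nonneg fun G hG => mul_nonneg (wt_nonneg hp0 hp1 _ _) (h G (Finset.mem_powerset.1 hG))

lemma Ex_sum {ι : Type*} (p : ℝ) (E : Finset α) (I : Finset ι) (f : ι → Finset α → ℝ) :
    Ex p E (fun G => ∑ i ∈ I, f i G) = ∑ i ∈ I, Ex p E (f i) := by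
  unfold Ex
  rw [Finset.sum_comm]
  refine Finset.sum_congr rfl fun G _ => ?_
  rw [Finset.mul_sum]

lemma Ex_const_mul (p : ℝ) (E : Finset α) (c : ℝ) (f : Finset α → ℝ) :
    Ex p E (fun G => c * f G) = c * Ex p E f := by
  unfold Ex
  rw [Finset.mul_sum]
  refine Finset.sum_congr rfl fun G _ => ?_
  ring

lemma Ex_mgf (p x : ℝ) (E F : Finset α) (hF : F ⊆ E) :
    Ex p E (fun G => x ^ (G ∩ F).card) = (1 - p + p * x) ^ F.card := by
  have h := Finset.prod_add (fun e => p * (if e ∈ F then x else 1)) (fun _ => 1 - p) E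
  have h2 : ∏ e ∈ E, (p * (if e ∈ F then x else 1) + (1 - p)) = (1 - p + p * x) ^ F.card := by
    have : ∀ e ∈ E, (p * (if e ∈ F then x else 1) + (1 - p)) =
        (if e ∈ F then (1 - p + p * x) else 1) := by
      intro e _
      split_ifs <;> ring
    rw [Finset.prod_congr rfl this, Finset.prod_ite, Finset.prod_const, Finset.prod_const_one,
      mul_one]
    congr 2
    ext e
    simp only [Finset.mem_filter]
    exact ⟨fun h => h.2, fun h => ⟨hF h, h⟩⟩
  rw [← h2, h]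
  unfold Ex
  refine Finset.sum_congr rfl fun G hG => ?_
  have hGE := Finset.mem_powerset.1 hG
  rw [Finset.prod_mul_distrib, Finset.prod_const, Finset.prod_const, Finset.card_sdiff_of_subset hGE,
    Finset.prod_ite, Finset.prod_const, Finset.prod_const_one, mul_one]
  have : G.filter (· ∈ F) = G ∩ F := by
    ext e; simp
  rw [this]
  ring

lemma Ex_one (p : ℝ) (E : Finset α) : Ex p E (fun _ => 1) = 1 := by
  have := Ex_mgf p 1 E ∅ (Finset.empty_subset _)
  simpa using this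

lemma P_nonneg {p : ℝ} (hp0 : 0 ≤ p) (hp1 : p ≤ 1) (E : Finset α) (A : Set (Finset α)) :
    0 ≤ P p E A := by
  rw [P_eq_Ex]
  refine Ex_nonneg hp0 hp1 E fun G _ => ?_
  split_ifs <;> norm_num

lemma P_mono {p : ℝ} (hp0 : 0 ≤ p) (hp1 : p ≤ 1) (E : Finset α) {A B : Set (Finset α)}
    (h : ∀ G, G ⊆ E → G ∈ A → G ∈ B) : P p E A ≤ P p E B := by
  rw [P_eq_Ex, P_eq_Ex]
  refine Ex_mono hp0 hp1 E fun G hG => ?_
  by_cases h1 : G ∈ A
  · simp [h1, h G hG h1]
  · simp only [h1, if_false]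
    split_ifs <;> norm_num

lemma P_univ (p : ℝ) (E : Finset α) : P p E Set.univ = 1 := by
  rw [P_eq_Ex]; simpa using Ex_one p E

lemma P_le_one {p : ℝ} (hp0 : 0 ≤ p) (hp1 : p ≤ 1) (E : Finset α) (A : Set (Finset α)) :
    P p E A ≤ 1 := by
  rw [← P_univ p E]
  exact P_mono hp0 hp1 E fun G _ _ => trivial

lemma P_le_Ex {p : ℝ} (hp0 : 0 ≤ p) (hp1 : p ≤ 1) (E : Finset α) (A : Set (Finset α))
    {f : Finset α → ℝ} (h0 : ∀ G, G ⊆ E → 0 ≤ f G) (h1 : ∀ G, G ⊆ E → G ∈ A → 1 ≤ f G) :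
    P p E A ≤ Ex p E f := by
  rw [P_eq_Ex]
  refine Ex_mono hp0 hp1 E fun G hG => ?_
  split_ifs with h
  · exact h1 G hG h
  · exact h0 G hG

lemma P_union {ι : Type*} {p : ℝ} (hp0 : 0 ≤ p) (hp1 : p ≤ 1) (E : Finset α) (I : Finset ι)
    (A : ι → Set (Finset α)) :
    P p E {G | ∃ i ∈ I, G ∈ A i} ≤ ∑ i ∈ I, P p E (A i) := by
  have : ∑ i ∈ I, P p E (A i) = Ex p E (fun G => ∑ i ∈ I, if G ∈ A i then 1 else 0) := by
    rw [Ex_sum]
    exact Finset.sum_congr rfl fun i _ => P_eq_Ex _ _ _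
  rw [this]
  refine P_le_Ex hp0 hp1 E _ ?_ ?_
  · intro G _
    exact Finset.sum_nonneg fun i _ => by split_ifs <;> norm_num
  · rintro G _ ⟨i, hi, hG⟩
    have := Finset.single_le_sum (f := fun i => if G ∈ A i then (1:ℝ) else 0)
      (fun i _ => by positivity) hi
    simpa [hG] using this

lemma P_union2 {p : ℝ} (hp0 : 0 ≤ p) (hp1 : p ≤ 1) (E : Finset α) (A B : Set (Finset α)) :
    P p E {G | G ∈ A ∨ G ∈ B} ≤ P p E A + P p E B := by
  have h := P_union hp0 hp1 E (univ : Finset Bool) (fun b => if b then A else B)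
  simp only [Finset.mem_univ, true_and, Fintype.sum_bool, if_true, Bool.false_eq_true,
    if_false] at h
  refine le_trans (P_mono hp0 hp1 E ?_) h
  rintro G _ (hG | hG)
  · exact ⟨true, by simpa using hG⟩
  · exact ⟨false, by simpa using hG⟩

lemma P_compl {p : ℝ} (E : Finset α) (A : Set (Finset α)) :
    P p E {G | G ∉ A} = 1 - P p E A := by
  have h : P p E {G | G ∉ A} + P p E A = Ex p E (fun _ => 1) := by
    rw [P_eq_Ex, P_eq_Ex]
    unfold Ex
    rw [← Finset.sum_add_distrib]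
    refine Finset.sum_congr rfl fun G _ => ?_
    by_cases h : G ∈ A <;> simp [h]
  rw [Ex_one] at h
  linarith

/-- splitting the ground set -/
lemma Ex_split (p : ℝ) (E₁ E₂ : Finset α) (hd : Disjoint E₁ E₂) (f : Finset α → ℝ) :
    Ex p (E₁ ∪ E₂) f = Ex p E₁ (fun G₁ => Ex p E₂ (fun G₂ => f (G₁ ∪ G₂))) := by
  have h : ∀ G ∈ E₁.powerset, ∀ G' ∈ E₂.powerset, Disjoint G G' := by
    intro G hG G' hG'
    exact Finset.disjoint_of_subset_left (Finset.mem_powerset.1 hG)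
      (Finset.disjoint_of_subset_right (Finset.mem_powerset.1 hG') hd)
  unfold Ex
  have e1 : ∀ G₁ ∈ E₁.powerset, p ^ G₁.card * (1 - p) ^ (E₁.card - G₁.card) *
      (∑ G₂ ∈ E₂.powerset, p ^ G₂.card * (1 - p) ^ (E₂.card - G₂.card) * f (G₁ ∪ G₂)) =
      ∑ G₂ ∈ E₂.powerset, p ^ (G₁ ∪ G₂).card *
        (1 - p) ^ ((E₁ ∪ E₂).card - (G₁ ∪ G₂).card) * f (G₁ ∪ G₂) := by
    intro G₁ h1
    rw [Finset.mul_sum]
    refine Finset.sum_congr rfl fun G₂ h2 => ?_
    have c1 := Finset.card_le_card (Finset.mem_powerset.1 h1)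
    have c2 := Finset.card_le_card (Finset.mem_powerset.1 h2)
    rw [Finset.card_union_of_disjoint (h _ h1 _ h2), Finset.card_union_of_disjoint hd,
      show E₁.card + E₂.card - (G₁.card + G₂.card) = (E₁.card - G₁.card) + (E₂.card - G₂.card) by
        omega, pow_add, pow_add]
    ring
  rw [Finset.sum_congr rfl e1, ← Finset.sum_product']
  refine (Finset.sum_nbij' (fun x : Finset α × Finset α => x.1 ∪ x.2)
    (fun G => (G ∩ E₁, G ∩ E₂)) ?_ ?_ ?_ ?_ ?_).symm
  · rintro ⟨a, b⟩ hab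
    simp only [Finset.mem_product, Finset.mem_powerset] at hab ⊢
    exact Finset.union_subset_union hab.1 hab.2
  · intro G _
    simp only [Finset.mem_product, Finset.mem_powerset]
    exact ⟨Finset.inter_subset_right, Finset.inter_subset_right⟩
  · rintro ⟨a, b⟩ hab
    simp only [Finset.mem_product, Finset.mem_powerset] at hab
    have d1 : b ∩ E₁ = ∅ := by
      rw [← Finset.disjoint_iff_inter_eq_empty]
      exact (Finset.disjoint_of_subset_right hab.2 hd).symm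
    have d2 : a ∩ E₂ = ∅ := by
      rw [← Finset.disjoint_iff_inter_eq_empty]
      exact Finset.disjoint_of_subset_left hab.1 hd
    simp only [Finset.union_inter_distrib_right, d1, d2, Finset.union_empty, Finset.empty_union,
      Finset.inter_eq_left.2 hab.1, Finset.inter_eq_left.2 hab.2]
  · intro G hG
    rw [Finset.mem_powerset] at hG
    simp only [← Finset.inter_union_distrib_left]
    exact Finset.inter_eq_left.2 hG
  · rintro ⟨a, b⟩ _
    rfl

lemma Ex_split' [DecidableEq α] (p : ℝ) (E₁ E₂ : Finset α) (hd : Disjoint E₁ E₂)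
    (f : Finset α → ℝ) :
    Ex p (E₁ ∪ E₂) f = Ex p E₁ (fun G₁ => Ex p E₂ (fun G₂ => f (G₁ ∪ G₂))) := by
  have := Ex_split p E₁ E₂ hd f
  convert this

/-- Chernoff bound, upper tail -/
lemma P_card_ge {p : ℝ} (hp0 : 0 ≤ p) (hp1 : p ≤ 1) (E F : Finset α) (hF : F ⊆ E) (r : ℕ)
    {x : ℝ} (hx : 1 ≤ x) :
    P p E {G | r ≤ (G ∩ F).card} ≤ (x ^ r)⁻¹ * Real.exp (p * x * F.card) := by
  have hx0 : 0 < x := by linarith
  have h1 : P p E {G | r ≤ (G ∩ F).card} ≤ Ex p E (fun G => (x ^ r)⁻¹ * x ^ (G ∩ F).card) := by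
    refine P_le_Ex hp0 hp1 E _ (fun G _ => by positivity) ?_
    intro G _ hG
    have : x ^ r ≤ x ^ (G ∩ F).card := pow_le_pow_right₀ hx hG
    rw [inv_mul_eq_div, le_div_iff₀ (by positivity)]
    linarith
  refine h1.trans ?_
  rw [Ex_const_mul, Ex_mgf _ _ _ _ hF]
  refine mul_le_mul_of_nonneg_left ?_ (by positivity)
  have h2 : 1 - p + p * x ≤ Real.exp (p * x) := by
    have := Real.add_one_le_exp (p * x)
    linarith
  calc (1 - p + p * x) ^ F.card ≤ (Real.exp (p * x)) ^ F.card := by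
        refine pow_le_pow_left₀ ?_ h2 _
        nlinarith
    _ = Real.exp (p * x * F.card) := by
        rw [← Real.exp_nat_mul]; ring_nf

/-- Chernoff bound, lower tail -/
lemma P_card_le {p : ℝ} (hp0 : 0 ≤ p) (hp1 : p ≤ 1) (E F : Finset α) (hF : F ⊆ E) (r : ℕ)
    {x : ℝ} (hx0 : 0 < x) (hx : x ≤ 1) :
    P p E {G | (G ∩ F).card ≤ r} ≤ (x ^ r)⁻¹ * Real.exp (- (p * (1 - x) * F.card)) := by
  have h1 : P p E {G | (G ∩ F).card ≤ r} ≤ Ex p E (fun G => (x ^ r)⁻¹ * x ^ (G ∩ F).card) := by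
    refine P_le_Ex hp0 hp1 E _ (fun G _ => by positivity) ?_
    intro G _ hG
    have : x ^ r ≤ x ^ (G ∩ F).card := pow_le_pow_of_le_one hx0.le hx hG
    rw [inv_mul_eq_div, le_div_iff₀ (by positivity)]
    linarith
  refine h1.trans ?_
  rw [Ex_const_mul, Ex_mgf _ _ _ _ hF]
  refine mul_le_mul_of_nonneg_left ?_ (by positivity)
  have h2 : 1 - p + p * x ≤ Real.exp (-(p * (1 - x))) := by
    have := Real.add_one_le_exp (-(p * (1 - x)))
    nlinarith
  calc (1 - p + p * x) ^ F.card ≤ (Real.exp (-(p * (1 - x)))) ^ F.card := by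
        refine pow_le_pow_left₀ ?_ h2 _
        nlinarith [mul_nonneg hp0 hx0.le]
    _ = Real.exp (-(p * (1 - x) * F.card)) := by
        rw [← Real.exp_nat_mul]; ring_nf

end

end Pool.Agent.H982R2.BL
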